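import Pool.Agent.Q45.EM.Stm

/-!
# Project EM: Frobenius over finite fields

Each statement has a proof in its docstring.
-/

set_option autoImplicit false
set_option linter.all false

open Polynomial
open scoped Classical

namespace Pool.Agent.Q45.EM

/-- JOB FRB. The cycle lengths of Frobenius on the roots of a separable polynomial over a finite field are
the degrees of its irreducible factors.

PROOF. Let `q` be the number of elements of `k`. The roots of `p` in `k'` are the disjoint union of the roots
of the factors `g ∈ s` (they are pairwise coprime, `p` is separable), and each root set is stable under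
`r ↦ r ^ q`. For an irreducible factor `g` of degree `c` and a root `r` of `g` the field `k(r)` has
`q ^ c` elements, the least `j > 0` with `r ^ (q ^ j) = r` is `c` (the fixed field of the `j`-th power of
Frobenius in `k(r)`), so the orbit of `r` has `c` elements and it is the full set of the `c` roots of `g`. So
`π` restricted to the roots of `g` is a cycle of length `c` (of length one if `c = 1`). For the partition: for
instance induction on `s`, or: for a permutation the multiset `(partition π).parts` is the
multiset of the cardinalities of its orbits (`Equiv.Perm.cycleType` plus ones for the fixed points,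
`Equiv.Perm.parts_partition`). -/
def S_FRB : Prop :=
  ∀ (k k' : Type) [Field k] [Finite k] [Field k'] [Algebra k k'] [IsSepClosure k k'] (p : k[X])
    (s : Multiset k[X]), p.Separable → (∀ g ∈ s, Irreducible g) → Associated p s.prod →
    ∀ π : Equiv.Perm (p.rootSet k'),
      (∀ r : p.rootSet k', ((π r : p.rootSet k') : k') = (r : k') ^ Nat.card k) →
      (Equiv.Perm.partition π).parts = s.map natDegree

/-- JOB SST. A criterion for semisimplicity with an invariant form.

PROOF. Work over `ℚ_2`: let `E = ℚ_[2]`, `W = E ⊗ V` (`LinearMap.baseChange`), `Φ` the base change of `φ`,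
and extend `β` to a nondegenerate form on `W`. Suppose that the minimal polynomial `μ` of `Φ` is divisible by
`q ^ 2`, `q` monic irreducible over `E`. `μ` divides the characteristic polynomial `χ` of `φ`, which is monic
over `ℤ_2`, so `q` has coefficients in `ℤ_2` (Gauss) and `q ^ 2 ∣ χ` over `ℤ_2`. Modulo `2`, `q̄ ^ 2` divides
`(X - 1) ^ 2 * S` with `S` separable and prime to `X - 1`, so `q̄ = X - 1` (every irreducible factor `h` of
`q̄` satisfies `h ^ 2 ∣ (X - 1) ^ 2 * S`, so `h = X - 1`, and it occurs once), hence `q = X - α` with
`α = 1` modulo `2`. `φ` is injective (it preserves a nondegenerate form), `α ≠ 0`, and `α⁻¹` is also an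
eigenvalue of `Φ` on the generalized eigenspace dual to that of `α`: the form is zero on
`W_α × W_β` unless `α β = 1`, where `W_α` is the generalized eigenspace; so `W_α` and `W_(1/α)` are in
duality and `(X - α) ^ 2 (X - α⁻¹) ^ 2` divides `χ` if `α ≠ α⁻¹`: modulo `2` this gives
`(X - 1) ^ 4 ∣ (X - 1) ^ 2 * S`, a contradiction. So `α = 1` or `α = -1`, `W_α` has dimension exactly two
(the dimension is at least two, and at most two modulo `2`) and the form is nondegenerate on `W_α`. `X - α`
squared divides `μ`, so there is `v ∈ W_α` with `u = Φ v - α v ≠ 0`, `Φ u = α u`. From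
`β(Φ u, Φ v) = β(u, v)` and `Φ v = α v + u` one gets `β(u, u) = 0` (`α ^ 2 = 1`), and from
`β(Φ v, Φ v) = β(v, v)` one gets `2 α β(u, v) + β(u, u) = 0`, so `β(u, v) = 0`; `u, v` is a basis of
`W_α`, so `u` is orthogonal to `W_α` and, as the generalized eigenspaces for other eigenvalues are
orthogonal to `W_α` (or: `W = W_α ⊕ W'`, `W'` the kernel of `h(Φ)` where `χ = (X - α) ^ 2 h`, and
`β(W_α, W') = 0`), to everything: a contradiction. So `μ` is squarefree. If `p(φ) (p(φ) v) = 0` then
`gcd(p, μ)`, `gcd(p ^ 2, μ)` agree, so `p(φ) v = 0`. (A direct argument with `v, p(φ) v` is of course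
possible.) -/
def S_SST : Prop :=
  ∀ (V : Type) [AddCommGroup V] [Module ℤ_[2] V] [Module.Free ℤ_[2] V] [Module.Finite ℤ_[2] V]
    (φ : V →ₗ[ℤ_[2]] V) (S : (ZMod 2)[X]), S.Separable → IsCoprime S (X - 1) →
    φ.charpoly.map PadicInt.toZMod ∣ (X - 1) ^ 2 * S →
    ∀ β : V →ₗ[ℤ_[2]] V →ₗ[ℤ_[2]] ℤ_[2], (∀ x y, β x y = β y x) →
      (∀ x, (∀ y, β x y = 0) → x = 0) → (∀ x y, β (φ x) (φ y) = β x y) →
      ∀ (p : ℤ_[2][X]) (v : V), aeval φ p (aeval φ p v) = 0 → aeval φ p v = 0

end Pool.Agent.Q45.EM
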