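import Pool.Agent.Q45.EM.Cyc
import Pool.Agent.Q45.EM.StmC
import Pool.Agent.Q237.EM.QCH
import Pool.Agent.Q45.GM.Fin

/-!
# Consequences for one automorphism
-/

set_option autoImplicit false
set_option linter.all false

open Polynomial
open scoped Classical TensorProduct

namespace Pool.Agent.Q45.EM

section one

variable {R M : Type} [Fintype R] [AddCommGroup M] [Module ℤ_[2] M] [Module.Free ℤ_[2] M]
  [Module.Finite ℤ_[2] M] {κ : M →+ (R → ZMod 2)} {D : M} {φ : M →ₗ[ℤ_[2]] M} {π : Equiv.Perm R}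

theorem span_stable (h : φ D = D) : ∀ u ∈ Submodule.span ℤ_[2] {D}, φ u ∈ Submodule.span ℤ_[2] {D} := by
  intro u hu
  obtain ⟨c, rfl⟩ := Submodule.mem_span_singleton.1 hu
  rw [map_smul, h]
  exact Submodule.smul_mem _ _ (Submodule.mem_span_singleton_self D)

/-- The characteristic polynomial on the quotient. -/
theorem quot_poly [Nonempty R] (hr : Red κ D) (hD : φ D = D) (hT : Thr κ φ π) {s : Multiset ℕ}
    (hs : (Equiv.Perm.partition π).parts = s) (ho : ∀ c ∈ s, Odd c) (hp : s.Pairwise Nat.Coprime)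
    (hφ : ∀ u ∈ Submodule.span ℤ_[2] {D}, φ u ∈ Submodule.span ℤ_[2] {D}) :
    ∃ (_ : Module.Free ℤ_[2] (M ⧸ Submodule.span ℤ_[2] {D})) (S : (ZMod 2)[X]), S.Separable ∧
      IsCoprime S (X - 1) ∧
      (Submodule.mapQ _ (Submodule.span ℤ_[2] {D}) φ hφ).charpoly.map PadicInt.toZMod ∣
        (X - 1) ^ (Multiset.card s - 1) * S := by
  obtain ⟨hfree, hdvd⟩ := Pool.Agent.Q237.EM.QCH.main R M κ D φ π hφ hr hD hT
  obtain ⟨S, h1, h2, h3⟩ := multi_prod s ho hp
  refine ⟨hfree, S, h1, h2, ?_⟩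
  have hs0 : Multiset.card s ≠ 0 := by
    intro h0
    have h4 := (Equiv.Perm.partition π).parts_sum
    rw [hs, Multiset.card_eq_zero.1 h0, Multiset.sum_zero] at h4
    exact Fintype.card_ne_zero h4.symm
  have h4 : ((Equiv.Perm.partition π).parts.map fun c : ℕ => (X ^ c - 1 : (ZMod 2)[X])).prod =
      (X - 1) * ((X - 1) ^ (Multiset.card s - 1) * S) := by
    rw [hs, h3, ← mul_assoc, ← pow_succ', Nat.sub_add_cancel (Nat.one_le_iff_ne_zero.2 hs0)]
  rw [h4] at hdvd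
  have h5 : (X - 1 : (ZMod 2)[X]) ≠ 0 := by
    have h6 := X_sub_C_ne_zero (1 : ZMod 2)
    rwa [C_1] at h6
  exact (mul_dvd_mul_iff_left h5).1 hdvd

end one

end Pool.Agent.Q45.EM
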