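import Pool.Agent.Q45.EM.Use

/-!
# Automorphisms with a given effect on the constants
-/

set_option autoImplicit false
set_option linter.all false

open Polynomial IsDedekindDomain
open scoped Classical

namespace Pool.Agent.Q45.EM

open Pool.Agent.Q45.TW (IsGeom)
open Pool.Agent.Q45.TG (ds IsBr)
open Pool.Agent.Q45.GM
open Pool.Agent.Q45.NE (eG model)
open Pool.Agent.Y160.SQ
open Pool.Agent.TH115.GD (incl rs ak Sep Comp)

variable {k k' K F : Type} [Field k] [Field k'] [Algebra k k'] [Field K] [Algebra k[X] K]
  [IsFractionRing k[X] K] [Field F] [Algebra k'[X] F] [IsFractionRing k'[X] F] [Algebra K F]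

/-- Every automorphism of the constants is induced by an automorphism of the separable closure. -/
theorem exists_T (hcomp : ∀ p : k[X], algebraMap K F (algebraMap k[X] K p) =
      algebraMap k'[X] F (p.map (algebraMap k k'))) (τ : k' ≃ₐ[k] k') :
    ∃ T : Sep F ≃ₐ[K] Sep F, ∀ x : k', T (cs k' F x) = cs k' F (τ x) := by
  let e0 : k'[X] ≃+* k'[X] := Polynomial.mapEquiv (τ : k' ≃+* k')
  let e : F ≃+* F := IsFractionRing.ringEquivOfRingEquiv e0
  have he : ∀ p : k'[X], e (algebraMap k'[X] F p) = algebraMap k'[X] F (p.map (τ : k' →+* k')) := by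
    intro p
    exact IsFractionRing.ringEquivOfRingEquiv_algebraMap e0 p
  have hfix : ∀ p : k[X], e (algebraMap K F (algebraMap k[X] K p)) =
      algebraMap K F (algebraMap k[X] K p) := by
    intro p
    rw [hcomp, he, Polynomial.map_map]
    congr 2
    exact RingHom.ext fun x => τ.commutes x
  have heK : ∀ x : K, e (algebraMap K F x) = algebraMap K F x := by
    intro x
    obtain ⟨a, b, hb, rfl⟩ := IsFractionRing.div_surjective (A := k[X]) x
    rw [map_div₀, map_div₀, hfix, hfix]
  obtain ⟨T, hT⟩ := lift_e (K := K) (F := F) (L := F) e heK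
  refine ⟨T, fun x => ?_⟩
  rw [cs_apply, cs_apply, hT, he, map_C]
  rfl

end Pool.Agent.Q45.EM
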