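import Pool.Agent.Q45.SN.All
import Pool.Agent.Q45.EM.Lift

/-!
# The full symmetric group over a finite extension, for almost all sections
-/

set_option autoImplicit false
set_option linter.all false

open Polynomial
open scoped Classical

namespace Pool.Agent.Q45.EM

open Pool.Agent.Q45.NE (eG sec sec_deg)
open Pool.Agent.Q45.SN (Full)
open Pool.Agent.Q45.TG (ds ds_map upF)
open Pool.Agent.Q45.GM (pm)
open Pool.Agent.W275.UB (UD)

section line

/-- A curve which is isomorphic to the affine line stays irreducible. -/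
theorem irr_of_line {k' W : Type} [Field k'] [Field W] [Algebra k' W] {Q : k'[X][X]} (hQ : Q.Monic)
    (hn : 0 < Q.natDegree) (φ : AdjoinRoot Q ≃ₐ[k'] k'[X]) :
    Irreducible (Q.map (mapRingHom (algebraMap k' W))) := by
  set f : k' →+* W := algebraMap k' W with hf
  obtain ⟨Q', hQ'⟩ : ∃ Q', Q.map (mapRingHom f) = Q' := ⟨_, rfl⟩
  have hQm : Q'.Monic := by rw [← hQ']; exact hQ.map _
  have hQd : 0 < Q'.natDegree := by rw [← hQ', hQ.natDegree_map]; exact hn
  rw [hQ']
  let i : AdjoinRoot Q →+* AdjoinRoot Q' :=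
    AdjoinRoot.lift ((AdjoinRoot.of Q').comp (mapRingHom f)) (AdjoinRoot.root Q') (by
      rw [← eval₂_map, hQ']
      exact AdjoinRoot.eval₂_root Q')
  have hiC : ∀ p : k'[X], i (AdjoinRoot.of Q p) = AdjoinRoot.of Q' (p.map f) := by
    intro p
    exact AdjoinRoot.lift_of _
  have hir : i (AdjoinRoot.root Q) = AdjoinRoot.root Q' := AdjoinRoot.lift_root _
  let ψ : W[X] →+* AdjoinRoot Q' :=
    eval₂RingHom ((AdjoinRoot.of Q').comp C) (i (φ.symm X))
  have hψC : ∀ c : W, ψ (C c) = AdjoinRoot.of Q' (C c) := fun c => eval₂_C _ _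
  have hψX : ψ X = i (φ.symm X) := eval₂_X _ _
  have hal : ∀ c : k', algebraMap k' (AdjoinRoot Q) c = AdjoinRoot.of Q (C c) := fun c => rfl
  have hψ : ∀ p : k'[X], ψ (p.map f) = i (φ.symm p) := by
    have h1 : ψ.comp (mapRingHom f) = i.comp (φ.symm : k'[X] ≃ₐ[k'] AdjoinRoot Q).toRingHom := by
      refine Polynomial.ringHom_ext (fun c => ?_) ?_
      · show ψ ((C c : k'[X]).map f) = i (φ.symm (C c))
        have h2 : φ.symm (C c) = AdjoinRoot.of Q (C c) := by
          have h3 := φ.symm.commutes c
          rw [hal] at h3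
          exact h3
        rw [map_C, hψC, h2, hiC, map_C]
      · show ψ ((X : k'[X]).map f) = i (φ.symm X)
        rw [map_X, hψX]
    intro p
    exact congrArg (fun g : k'[X] →+* AdjoinRoot Q' => g p) h1
  let g : W[X] →+* W[X] := eval₂RingHom C ((φ (AdjoinRoot.of Q X)).map f)
  have hgC : ∀ c : W, g (C c) = C c := fun c => eval₂_C _ _
  have hgX : g X = (φ (AdjoinRoot.of Q X)).map f := eval₂_X _ _
  have hg : g.comp (mapRingHom f) =
      (mapRingHom f).comp ((φ : AdjoinRoot Q ≃ₐ[k'] k'[X]).toRingHom.comp (AdjoinRoot.of Q)) := by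
    refine Polynomial.ringHom_ext (fun c => ?_) ?_
    · show g ((C c : k'[X]).map f) = (φ (AdjoinRoot.of Q (C c))).map f
      have h2 : φ (AdjoinRoot.of Q (C c)) = C c := by
        rw [← hal, φ.commutes]
        rfl
      rw [map_C, hgC, h2, map_C]
    · show g ((X : k'[X]).map f) = (φ (AdjoinRoot.of Q X)).map f
      rw [map_X, hgX]
  let θ : AdjoinRoot Q' →+* W[X] := AdjoinRoot.lift g ((φ (AdjoinRoot.root Q)).map f) (by
    rw [← hQ', eval₂_map, hg]
    have h1 := hom_eval₂ Q (AdjoinRoot.of Q)
      ((mapRingHom f).comp (φ : AdjoinRoot Q ≃ₐ[k'] k'[X]).toRingHom) (AdjoinRoot.root Q)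
    rw [AdjoinRoot.eval₂_root, map_zero] at h1
    exact h1.symm)
  have hθC : ∀ p : W[X], θ (AdjoinRoot.of Q' p) = g p := fun p => AdjoinRoot.lift_of _
  have hθr : θ (AdjoinRoot.root Q') = (φ (AdjoinRoot.root Q)).map f := AdjoinRoot.lift_root _
  have hid : ∀ a, ψ (θ a) = a := by
    have h1 : ψ.comp θ = RingHom.id _ := by
      refine AdjoinRoot.ringHom_ext ?_ ?_
      · refine Polynomial.ringHom_ext (fun c => ?_) ?_
        · show ψ (θ (AdjoinRoot.of Q' (C c))) = AdjoinRoot.of Q' (C c)
          rw [hθC, hgC, hψC]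
        · show ψ (θ (AdjoinRoot.of Q' X)) = AdjoinRoot.of Q' X
          rw [hθC, hgX, hψ, AlgEquiv.symm_apply_apply, hiC, map_X]
      · show ψ (θ (AdjoinRoot.root Q')) = AdjoinRoot.root Q'
        rw [hθr, hψ, AlgEquiv.symm_apply_apply, hir]
    intro a
    exact congrArg (fun g : AdjoinRoot Q' →+* AdjoinRoot Q' => g a) h1
  have hinj : Function.Injective θ := fun a b hab => by rw [← hid a, hab, hid]
  haveI : Nontrivial (AdjoinRoot Q') := AdjoinRoot.nontrivial Q'
    (natDegree_pos_iff_degree_pos.1 hQd).ne'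
  have hdom : IsDomain (AdjoinRoot Q') := hinj.isDomain θ
  have h3 : Prime Q' := (Ideal.span_singleton_prime hQm.ne_zero).1
    ((Ideal.Quotient.isDomain_iff_prime _).1 hdom)
  exact h3.irreducible

/-- Geometric irreducibility. -/
theorem irr_ext {k k' k'' : Type} [Field k] [Field k'] [Algebra k k'] [Algebra.IsAlgebraic k k']
    [Field k''] [Algebra k k''] {P : k[X][X]} (hP : P.Monic) (hn : 0 < P.natDegree)
    (φ : AdjoinRoot (pm k' P) ≃ₐ[k'] k'[X]) :
    Irreducible (P.map (mapRingHom (algebraMap k k''))) := by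
  let j : k' →ₐ[k] AlgebraicClosure k'' := IsAlgClosed.lift
  letI : Algebra k' (AlgebraicClosure k'') := j.toRingHom.toAlgebra
  have h1 := irr_of_line (W := AlgebraicClosure k'') (Q := pm k' P) (hP.map _)
    (by unfold pm; rw [hP.natDegree_map]; exact hn) φ
  have h2 : (pm k' P).map (mapRingHom (algebraMap k' (AlgebraicClosure k''))) =
      (P.map (mapRingHom (algebraMap k k''))).map
        (mapRingHom (algebraMap k'' (AlgebraicClosure k''))) := by
    unfold pm
    rw [Polynomial.map_map, Polynomial.map_map, mapRingHom_comp, mapRingHom_comp]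
    congr 2
    refine RingHom.ext fun x => ?_
    show j (algebraMap k k' x) = algebraMap k'' (AlgebraicClosure k'') (algebraMap k k'' x)
    rw [j.commutes, IsScalarTower.algebraMap_apply k k'' (AlgebraicClosure k'')]
  rw [h2] at h1
  exact (hP.map _).irreducible_of_irreducible_map _ _ h1

end line

section ovr

variable {k k' : Type} [Field k] [Field k'] [Algebra k k'] [IsSepClosure k k']

/-- The permutations of the roots over an extension. -/
theorem full_over (E : IntermediateField k k') {p : k[X]} (hp : p ≠ 0)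
    (h : Full (p.map (algebraMap k E))) (π : Equiv.Perm (p.rootSet k')) :
    ∃ σ : k' ≃ₐ[k] k', (∀ x ∈ E, σ x = x) ∧ ∀ r : p.rootSet k', σ r = (π r : k') := by
  haveI hk' : IsSepClosure k k' := inferInstance
  haveI : IsSepClosed k' := hk'.sep_closed
  haveI : Algebra.IsSeparable k k' := hk'.separable
  haveI : Algebra.IsSeparable E k' := Algebra.isSeparable_tower_top_of_isSeparable k E k'
  haveI : IsSepClosure E k' := ⟨inferInstance, inferInstance⟩
  let j : SeparableClosure E ≃ₐ[E] k' := IsSepClosure.equiv E (SeparableClosure E) k'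
  have hp' : p.map (algebraMap k E) ≠ 0 := (Polynomial.map_ne_zero_iff (algebraMap k E).injective).2 hp
  have key : ∀ x : SeparableClosure E, aeval (j x) p = j (aeval x (p.map (algebraMap k E))) := by
    intro x
    rw [aeval_def, aeval_def, eval₂_map]
    have h1 := hom_eval₂ p ((algebraMap E (SeparableClosure E)).comp (algebraMap k E))
      (j : SeparableClosure E ≃ₐ[E] k').toRingHom x
    refine Eq.trans ?_ h1.symm
    congr 1
    refine RingHom.ext fun c => ?_
    show algebraMap k k' c = j (algebraMap E (SeparableClosure E) (algebraMap k E c))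
    rw [j.commutes]
    rfl
  have hm : ∀ x : SeparableClosure E, x ∈ (p.map (algebraMap k E)).rootSet (SeparableClosure E) ↔
      j x ∈ p.rootSet k' := by
    intro x
    rw [mem_rootSet_of_ne hp', mem_rootSet_of_ne hp, key]
    exact (map_eq_zero_iff j j.injective).symm
  let e : (p.map (algebraMap k E)).rootSet (SeparableClosure E) ≃ p.rootSet k' :=
    { toFun := fun x => ⟨j x, (hm _).1 x.2⟩
      invFun := fun y => ⟨j.symm y, (hm _).2 (by rw [AlgEquiv.apply_symm_apply]; exact y.2)⟩
      left_inv := fun x => Subtype.ext (j.symm_apply_apply x)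
      right_inv := fun y => Subtype.ext (j.apply_symm_apply y) }
  obtain ⟨σ₀, hσ₀⟩ := h.2 ((e.trans π).trans e.symm)
  refine ⟨(j.symm.trans (σ₀.trans j)).restrictScalars k, fun x hx => ?_, fun r => ?_⟩
  · exact (j.symm.trans (σ₀.trans j)).commutes ⟨x, hx⟩
  · show j (σ₀ (j.symm r)) = (π r : k')
    have h1 := hσ₀ (e.symm r)
    have h2 : ((e.symm r : (p.map (algebraMap k E)).rootSet (SeparableClosure E)) :
        SeparableClosure E) = j.symm r := rfl
    rw [h2] at h1
    rw [h1]
    show j (j.symm (π (e (e.symm r)) : k')) = (π r : k')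
    rw [AlgEquiv.apply_symm_apply, Equiv.apply_symm_apply]

variable [NumberField k] {P : k[X][X]} {G : k[X]}

/-- **The full symmetric group over a finite extension.** -/
theorem ud_ext (hP : P.Monic) (hn : 1 < P.natDegree)
    (hl : Nonempty (AdjoinRoot (pm k' P) ≃ₐ[k'] k'[X]))
    (hsm : ∃ a b c : k[X][X], a * P + b * derivative P + c * ds P = 1) (hG : 2 ≤ G.natDegree)
    (hdeg : ∀ i < P.natDegree, (P.coeff i).natDegree < (P.natDegree - i) * G.natDegree)
    (E : IntermediateField k k') [FiniteDimensional k E] (ε : ℝ) (hε : 0 < ε) :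
    UD ε {v : Fin 2 → ℤ | ¬ ((eG P (sec G v)).Separable ∧
      ∀ π : Equiv.Perm ((eG P (sec G v)).rootSet k'), ∃ σ : k' ≃ₐ[k] k',
        (∀ x ∈ E, σ x = x) ∧ ∀ r : (eG P (sec G v)).rootSet k', σ r = (π r : k'))} := by
  haveI hk' : IsSepClosure k k' := inferInstance
  haveI : Algebra.IsSeparable k k' := hk'.separable
  haveI : NumberField E := NumberField.of_module_finite k E
  obtain ⟨φ⟩ := hl
  have hinj := (algebraMap k E).injective
  have hd : ∀ p : k[X], (p.map (algebraMap k E)).natDegree = p.natDegree := fun p =>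
    natDegree_map_eq_of_injective hinj p
  have hPd : (P.map (mapRingHom (algebraMap k E))).natDegree = P.natDegree := hP.natDegree_map _
  have h1 := Pool.Agent.Q45.SN.ud_full (k := E) (F := P.map (mapRingHom (algebraMap k E)))
    (hP.map _) (irr_ext (k' := k') hP (by omega) φ) (by rw [hPd]; exact hn) (by
      intro k'' _ _
      letI : Algebra k k'' := ((algebraMap E k'').comp (algebraMap k E)).toAlgebra
      have h2 := irr_ext (k'' := k'') (k' := k') hP (by omega) φ
      rw [Polynomial.map_map, mapRingHom_comp]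
      exact h2) (by
      obtain ⟨a, b, c, h⟩ := hsm
      refine ⟨a.map (mapRingHom (algebraMap k E)), b.map (mapRingHom (algebraMap k E)),
        c.map (mapRingHom (algebraMap k E)), ?_⟩
      rw [derivative_map, ds_map, ← Polynomial.map_mul, ← Polynomial.map_mul, ← Polynomial.map_mul,
        ← Polynomial.map_add, ← Polynomial.map_add, h, Polynomial.map_one])
    (G := G.map (algebraMap k E)) (by rw [hd]; exact hG) (by
      intro i hi
      rw [hPd] at hi ⊢
      rw [coeff_map, coe_mapRingHom, hd, hd]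
      exact hdeg i hi) ε hε
  refine Pool.Agent.Y706.UD_mono ?_ h1
  intro v hv hfull
  apply hv
  have h2 : eG (P.map (mapRingHom (algebraMap k E))) (sec (G.map (algebraMap k E)) v) =
      (eG P (sec G v)).map (algebraMap k E) := by
    have h3 : sec (G.map (algebraMap k E)) v = (sec G v).map (algebraMap k E) := by
      unfold sec
      rw [Polynomial.map_add, Polynomial.map_add, Polynomial.map_mul, map_C, map_C, map_X,
        map_intCast (algebraMap k E), map_intCast (algebraMap k E)]
    rw [h3]
    exact Pool.Agent.Q45.NE.eG_up P (sec G v)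
  rw [h2] at hfull
  have hs : (eG P (sec G v)).Separable := (separable_map (algebraMap k E)).1 hfull.1
  exact ⟨hs, fun π => full_over E hs.ne_zero hfull π⟩

end ovr

end Pool.Agent.Q45.EM
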