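import Pool.Agent.Q45.GM.ClsZ
import Pool.Agent.Q45.TG.Base

/-!
# The map to the functions
-/

set_option autoImplicit false
set_option linter.all false

open Polynomial IsDedekindDomain WithZero
open scoped Classical

namespace Pool.Agent.Q45.EM

open Pool.Agent.Q45.GM (XL clX clX_surj clX_zero clX_mul two_clX sqS evS opX opX_cl)
open Pool.Agent.Q45.TG (IsBr even_cls)
open Pool.Agent.Y160.SE (IsPw)

section chi

variable {L : Type} [Field L]

theorem sq_sqS (z : Lˣ) : z * z ∈ sqS L := ⟨z, pow_two z⟩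

/-- Membership depends on the class only. -/
theorem mem_congr {E : Subgroup Lˣ} (hE : sqS L ≤ E) {z z' : Lˣ} (h : clX z = clX z') :
    z ∈ E ↔ z' ∈ E := by
  have h1 : (QuotientGroup.mk z : Lˣ ⧸ sqS L) = QuotientGroup.mk z' := h
  rw [QuotientGroup.eq] at h1
  have h2 := hE h1
  constructor
  · intro h3
    have h4 := E.mul_mem h3 h2
    rwa [mul_inv_cancel_left] at h4
  · intro h3
    have h4 := E.mul_mem h3 (E.inv_mem h2)
    rwa [mul_inv, inv_inv, mul_comm z, mul_inv_cancel_left] at h4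

variable {M : Type} [AddCommGroup M] (kM : M →+ XL L)

/-- The homomorphism to `𝔽_2` defined by a subgroup. -/
theorem chi_exists {E : Subgroup Lˣ} (hE : sqS L ≤ E) {θ : Lˣ} (hθ : θ ∉ E)
    (h : ∀ m, ∃ z, kM m = clX z ∧ (z ∈ E ∨ z * θ ∈ E)) :
    ∃ χ : M →+ ZMod 2, ∀ m z, kM m = clX z → (χ m = 0 ↔ z ∈ E) := by
  let P : M → Prop := fun m => ∃ z ∈ E, kM m = clX z
  have hP : ∀ m z, kM m = clX z → (P m ↔ z ∈ E) := by
    intro m z hz
    constructor
    · rintro ⟨z', hz', h1⟩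
      exact (mem_congr hE (by rw [← h1, hz])).1 hz'
    · intro h1
      exact ⟨z, h1, hz⟩
  have h01 : (1 : ZMod 2) ≠ 0 := by decide
  refine ⟨AddMonoidHom.mk' (fun m => if P m then 0 else 1) ?_, ?_⟩
  · intro m m'
    obtain ⟨z, hz, h1⟩ := h m
    obtain ⟨z', hz', h2⟩ := h m'
    have h3 : kM (m + m') = clX (z * z') := by rw [map_add, hz, hz', clX_mul]
    rw [show (if P (m + m') then (0 : ZMod 2) else 1) = if z * z' ∈ E then 0 else 1 from
      if_congr (hP _ _ h3) rfl rfl, show (if P m then (0 : ZMod 2) else 1) = if z ∈ E then 0 else 1 from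
      if_congr (hP _ _ hz) rfl rfl, show (if P m' then (0 : ZMod 2) else 1) = if z' ∈ E then 0 else 1
      from if_congr (hP _ _ hz') rfl rfl]
    by_cases ha : z ∈ E
    · by_cases hb : z' ∈ E
      · rw [if_pos ha, if_pos hb, if_pos (E.mul_mem ha hb), add_zero]
      · rw [if_pos ha, if_neg hb, if_neg (fun h4 => hb ((E.mul_mem_cancel_left ha).1 h4)), zero_add]
    · by_cases hb : z' ∈ E
      · rw [if_neg ha, if_pos hb, if_neg (fun h4 => ha ((E.mul_mem_cancel_right hb).1 h4)), add_zero]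
      · have h4 : z * θ ∈ E := h1.resolve_left ha
        have h5 : z' * θ ∈ E := h2.resolve_left hb
        have h6 : z * z' ∈ E := by
          have h7 := E.mul_mem h4 h5
          have h8 : z * θ * (z' * θ) = z * z' * (θ * θ) := by
            rw [mul_mul_mul_comm]
          rw [h8] at h7
          exact (E.mul_mem_cancel_right (hE (sq_sqS θ))).1 h7
        rw [if_neg ha, if_neg hb, if_pos h6]
        decide
  · intro m z hz
    rw [← hP m z hz]
    show (if P m then (0 : ZMod 2) else 1) = 0 ↔ P m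
    by_cases hm : P m
    · simp [hm]
    · simp [hm]

/-- The homomorphism to the functions. -/
theorem kap_exists {R : Type} (E : R → Subgroup Lˣ) (hE : ∀ r, sqS L ≤ E r) {θ : Lˣ}
    (hθ : ∀ r, θ ∉ E r) (h : ∀ m r, ∃ z, kM m = clX z ∧ (z ∈ E r ∨ z * θ ∈ E r)) :
    ∃ κ : M →+ (R → ZMod 2), ∀ m z, kM m = clX z → ∀ r, (κ m r = 0 ↔ z ∈ E r) := by
  choose χ hχ using fun r => chi_exists kM (hE r) (hθ r) fun m => h m r
  refine ⟨AddMonoidHom.mk' (fun m r => χ r m) (fun m m' => funext fun r => map_add _ _ _), ?_⟩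
  intro m z hz r
  exact hχ r m z hz

end chi

section vals

variable {S L : Type} [CommRing S] [IsDedekindDomain S] [Field L] [Algebra S L] [IsFractionRing S L]

/-- The elements with even valuations at the primes with the property `P`. -/
def evP (P : HeightOneSpectrum S → Prop) : Subgroup Lˣ where
  carrier := {z | ∀ 𝔓, P 𝔓 → IsPw 2 (𝔓.valuation L (z : L))}
  mul_mem' := fun {a b} ha hb 𝔓 h => by
    rw [Units.val_mul, map_mul]
    exact (ha 𝔓 h).mul (hb 𝔓 h)
  one_mem' := fun 𝔓 _ => ⟨1, by rw [Units.val_one, map_one, one_pow]⟩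
  inv_mem' := fun {a} ha 𝔓 h => by
    obtain ⟨δ, hδ⟩ := ha 𝔓 h
    exact ⟨δ⁻¹, by rw [Units.val_inv_eq_inv_val, map_inv₀, hδ, inv_pow]⟩

theorem mem_evP {P : HeightOneSpectrum S → Prop} {z : Lˣ} :
    z ∈ evP (L := L) P ↔ ∀ 𝔓, P 𝔓 → IsPw 2 (𝔓.valuation L (z : L)) := Iff.rfl

theorem sq_evP {P : HeightOneSpectrum S → Prop} : sqS L ≤ evP (L := L) P := by
  rintro z ⟨y, rfl⟩ 𝔓 _
  refine ⟨𝔓.valuation L (y : L), ?_⟩
  show 𝔓.valuation L (((y ^ 2 : Lˣ)) : L) = _
  rw [Units.val_pow_eq_pow_val, map_pow]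

theorem not_pw : ¬ IsPw 2 (exp (-1 : ℤ)) := by
  rintro ⟨δ, hδ⟩
  have h0 : δ ≠ 0 := by
    rintro rfl
    rw [zero_pow two_ne_zero] at hδ
    exact exp_ne_zero hδ
  have h1 := congrArg log hδ
  rw [log_exp, log_pow] at h1
  simp only [nsmul_eq_mul, Nat.cast_ofNat] at h1
  omega

end vals

section ev

variable {k' : Type} [Field k'] [IsSepClosed k'] {Q : k'[X][X]} {L : Type} [Field L]
  [IsDedekindDomain (AdjoinRoot Q)] [Algebra (AdjoinRoot Q) L] [IsFractionRing (AdjoinRoot Q) L]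

/-- The elements with even valuations at all the points. -/
theorem sq_of_even (h2 : (2 : k') ≠ 0) (hB : IsBr 2 Q) {z : Lˣ}
    (hev : ∀ v : HeightOneSpectrum (AdjoinRoot Q), IsPw 2 (v.valuation L (z : L))) : z ∈ sqS L := by
  obtain ⟨u, w, hw, h1⟩ := even_cls two_ne_zero (RingEquiv.refl (AdjoinRoot Q)) hB.cls z.ne_zero hev
  obtain ⟨a, ha⟩ := hB.units u
  have ha0 : a ≠ 0 := by
    rintro rfl
    rw [C_0, map_zero] at ha
    exact u.ne_zero ha
  haveI : NeZero (2 : k') := ⟨h2⟩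
  obtain ⟨b, hb⟩ := IsSepClosed.exists_pow_nat_eq (k := k') a 2
  rw [RingEquiv.refl_apply, ha, ← hb, C_pow, map_pow, map_pow, ← mul_pow] at h1
  have h3 : algebraMap (AdjoinRoot Q) L (AdjoinRoot.of Q (C b)) * w ≠ 0 := by
    intro h0
    rw [h0, zero_pow two_ne_zero] at h1
    exact z.ne_zero h1
  exact ⟨Units.mk0 _ h3, Units.ext (by
    show (((Units.mk0 _ h3 ^ 2 : Lˣ)) : L) = z
    rw [Units.val_pow_eq_pow_val, Units.val_mk0, h1])⟩

end ev

end Pool.Agent.Q45.EM
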