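import Pool.Agent.Q45.EM.Abs
import Pool.Agent.Q45.EM.Lift
import Pool.Agent.Q45.GM.J.LIN2

/-!
# Semisimplicity
-/

set_option autoImplicit false
set_option linter.all false

open Polynomial
open scoped Classical TensorProduct

namespace Pool.Agent.Q45.EM

theorem halves {A : Type*} [AddCommGroup A] (R : ℕ → A) (h : ∀ n, 2 • R (n + 1) = R n) (n : ℕ) :
    2 ^ n • R n = R 0 := by
  induction n with
  | zero => rw [pow_zero, one_smul]
  | succ n ih => rw [pow_succ, mul_smul, h]; exact ih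

section perm

variable {k k' : Type} [Field k] [Field k'] [Algebra k k']

/-- The permutation of the roots. -/
theorem exists_perm (p : k[X]) (τ : k' ≃ₐ[k] k') :
    ∃ π : Equiv.Perm (p.rootSet k'), ∀ r, ((π r : p.rootSet k') : k') = τ r := by
  have h1 : ∀ (σ : k' ≃ₐ[k] k') (r : k'), r ∈ p.rootSet k' → σ r ∈ p.rootSet k' := by
    intro σ r hr
    rw [mem_rootSet] at hr ⊢
    refine ⟨hr.1, ?_⟩
    have h2 := aeval_algHom_apply (σ : k' →ₐ[k] k') r p
    have h3 : aeval (σ r) p = σ (aeval r p) := h2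
    rw [h3, hr.2, map_zero]
  exact ⟨{ toFun := fun r => ⟨τ r, h1 τ r r.2⟩
           invFun := fun r => ⟨τ.symm r, h1 τ.symm r r.2⟩
           left_inv := fun r => Subtype.ext (AlgEquiv.symm_apply_apply _ _)
           right_inv := fun r => Subtype.ext (AlgEquiv.apply_symm_apply _ _) }, fun r => rfl⟩

end perm

section lin

variable {V : Type} [AddCommGroup V] [Module ℤ_[2] V] [Module.Free ℤ_[2] V]
  [Module.Finite ℤ_[2] V]

/-- Semisimplicity. -/
def SSm {V : Type} [AddCommGroup V] [Module ℤ_[2] V] (ψ : V →ₗ[ℤ_[2]] V) : Prop :=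
  ∀ (p : ℤ_[2][X]) (v : V), aeval ψ p (aeval ψ p v) = 0 → aeval ψ p v = 0

theorem aeval_base (ψ : V →ₗ[ℤ_[2]] V) (p : ℤ_[2][X]) (v : V) :
    aeval (ψ.baseChange ℚ_[2]) (p.map (algebraMap ℤ_[2] ℚ_[2])) ((1 : ℚ_[2]) ⊗ₜ[ℤ_[2]] v) =
      (1 : ℚ_[2]) ⊗ₜ[ℤ_[2]] (aeval ψ p v) := by
  induction p using Polynomial.induction_on' generalizing v with
  | add p q hp hq =>
    rw [Polynomial.map_add, map_add, LinearMap.add_apply, hp, hq, map_add, LinearMap.add_apply,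
      TensorProduct.tmul_add]
  | monomial n a =>
    have h1 : ∀ (n : ℕ) (w : V), ((ψ.baseChange ℚ_[2]) ^ n) ((1 : ℚ_[2]) ⊗ₜ[ℤ_[2]] w) =
        (1 : ℚ_[2]) ⊗ₜ[ℤ_[2]] ((ψ ^ n) w) := by
      intro n
      induction n with
      | zero => intro w; simp
      | succ n ih =>
        intro w
        rw [pow_succ, pow_succ, Module.End.mul_apply, Module.End.mul_apply,
          LinearMap.baseChange_tmul, ih]
    rw [Polynomial.map_monomial, aeval_monomial, aeval_monomial, Module.End.mul_apply,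
      Module.End.mul_apply, h1, Module.algebraMap_end_apply, Module.algebraMap_end_apply,
      TensorProduct.smul_tmul', TensorProduct.tmul_smul, TensorProduct.smul_tmul']
    congr 1

theorem ss_of_sep (ψ : V →ₗ[ℤ_[2]] V) (h : (ψ.charpoly.map PadicInt.toZMod).Separable) :
    ψ.charpoly.Separable ∧ SSm ψ ∧
      ∀ χ : V →ₗ[ℤ_[2]] V, (∀ m, χ (ψ m) = ψ (χ m)) → ∃ P : ℤ_[2][X], χ = aeval ψ P := by
  obtain ⟨h1, h2, -, h4, -⟩ := Pool.Agent.Q45.GM.JLIN2.main 2 V ψ h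
  refine ⟨h1, fun p v hv => ?_, h2⟩
  have h5 : Module.End.IsSemisimple
      (aeval (ψ.baseChange ℚ_[2]) (p.map (algebraMap ℤ_[2] ℚ_[2]))) := h4.aeval _
  have h6 := h5.isFinitelySemisimple.genEigenspace_eq_eigenspace 0 (k := 2) (by norm_num)
  have h7 : ((1 : ℚ_[2]) ⊗ₜ[ℤ_[2]] v) ∈ Module.End.eigenspace
      (aeval (ψ.baseChange ℚ_[2]) (p.map (algebraMap ℤ_[2] ℚ_[2]))) 0 := by
    rw [← h6]
    have h8 : (2 : ℕ∞) = ((2 : ℕ) : ℕ∞) := rfl
    rw [h8, Module.End.mem_genEigenspace_nat, zero_smul, sub_zero, LinearMap.mem_ker, pow_two,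
      Module.End.mul_apply, aeval_base, aeval_base, hv, TensorProduct.tmul_zero]
  rw [Module.End.mem_eigenspace_iff, zero_smul, aeval_base] at h7
  have h9 : Function.Injective (fun w : V => (1 : ℚ_[2]) ⊗ₜ[ℤ_[2]] w) := by
    have h10 := Module.Flat.rTensor_preserves_injective_linearMap (M := V)
      (Algebra.linearMap ℤ_[2] ℚ_[2]) (IsFractionRing.injective ℤ_[2] ℚ_[2])
    intro x y hxy
    have h11 : (Algebra.linearMap ℤ_[2] ℚ_[2]).rTensor V ((1 : ℤ_[2]) ⊗ₜ[ℤ_[2]] x) =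
        (Algebra.linearMap ℤ_[2] ℚ_[2]).rTensor V ((1 : ℤ_[2]) ⊗ₜ[ℤ_[2]] y) := by
      rw [LinearMap.rTensor_tmul, LinearMap.rTensor_tmul, Algebra.linearMap_apply, map_one]
      exact hxy
    have h12 := congrArg (TensorProduct.lid ℤ_[2] V) (h10 h11)
    rwa [TensorProduct.lid_tmul, TensorProduct.lid_tmul, one_smul, one_smul] at h12
  apply h9
  show (1 : ℚ_[2]) ⊗ₜ[ℤ_[2]] _ = (1 : ℚ_[2]) ⊗ₜ[ℤ_[2]] (0 : V)
  rw [h7, TensorProduct.tmul_zero]

end lin

section one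

variable {R M : Type} [Fintype R] [AddCommGroup M] [Module ℤ_[2] M] [Module.Free ℤ_[2] M]
  [Module.Finite ℤ_[2] M] {κ : M →+ (R → ZMod 2)} {D : M} {φ : M →ₗ[ℤ_[2]] M} {π : Equiv.Perm R}

/-- The consequences for the quotient. -/
theorem cons_one (hsst : S_SST) [Nonempty R] (hr : Red κ D) (hD : φ D = D) (hT : Thr κ φ π)
    {s : Multiset ℕ} (hs : (Equiv.Perm.partition π).parts = s) (ho : ∀ c ∈ s, Odd c)
    (hp : s.Pairwise Nat.Coprime)
    (hφ : ∀ u ∈ Submodule.span ℤ_[2] {D}, φ u ∈ Submodule.span ℤ_[2] {D}) :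
    ∃ (_ : Module.Free ℤ_[2] (M ⧸ Submodule.span ℤ_[2] {D})),
      (Multiset.card s ≤ 2 →
        ((Submodule.mapQ _ (Submodule.span ℤ_[2] {D}) φ hφ).charpoly.map PadicInt.toZMod).Separable ∧
        (Submodule.mapQ _ (Submodule.span ℤ_[2] {D}) φ hφ).charpoly.Separable ∧
        SSm (Submodule.mapQ _ (Submodule.span ℤ_[2] {D}) φ hφ) ∧
        ∀ χ : (M ⧸ Submodule.span ℤ_[2] {D}) →ₗ[ℤ_[2]] (M ⧸ Submodule.span ℤ_[2] {D}),
          (∀ m, χ (Submodule.mapQ _ (Submodule.span ℤ_[2] {D}) φ hφ m) =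
            Submodule.mapQ _ (Submodule.span ℤ_[2] {D}) φ hφ (χ m)) → ∃ P : ℤ_[2][X],
            χ = aeval (Submodule.mapQ _ (Submodule.span ℤ_[2] {D}) φ hφ) P) ∧
      (Multiset.card s ≤ 3 →
        ∀ β : (M ⧸ Submodule.span ℤ_[2] {D}) →ₗ[ℤ_[2]] (M ⧸ Submodule.span ℤ_[2] {D}) →ₗ[ℤ_[2]]
          ℤ_[2], (∀ x y, β x y = β y x) → (∀ x, (∀ y, β x y = 0) → x = 0) →
          (∀ x y, β (Submodule.mapQ _ (Submodule.span ℤ_[2] {D}) φ hφ x)
            (Submodule.mapQ _ (Submodule.span ℤ_[2] {D}) φ hφ y) = β x y) →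
          SSm (Submodule.mapQ _ (Submodule.span ℤ_[2] {D}) φ hφ)) := by
  obtain ⟨hfree, S, h1, h2, h3⟩ := quot_poly hr hD hT hs ho hp hφ
  have hX : (X - 1 : (ZMod 2)[X]).Separable := by
    have h := separable_X_sub_C (x := (1 : ZMod 2))
    rwa [C_1] at h
  refine ⟨hfree, fun hc => ?_, fun hc β h4 h5 h6 => ?_⟩
  · have h7 : ((Submodule.mapQ _ (Submodule.span ℤ_[2] {D}) φ hφ).charpoly.map
        PadicInt.toZMod).Separable := by
      have h8 : ((X - 1) ^ (Multiset.card s - 1) * S : (ZMod 2)[X]).Separable := by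
        have h9 : Multiset.card s - 1 = 0 ∨ Multiset.card s - 1 = 1 := by omega
        rcases h9 with h9 | h9
        · rw [h9, pow_zero, one_mul]
          exact h1
        · rw [h9, pow_one]
          exact hX.mul h1 h2.symm
      exact h8.of_dvd h3
    obtain ⟨h8, h9, h10⟩ := ss_of_sep _ h7
    exact ⟨h7, h8, h9, h10⟩
  · refine hsst _ _ S h1 h2 (h3.trans (mul_dvd_mul_right (pow_dvd_pow _ (by omega)) S)) β h4 h5 h6

end one

end Pool.Agent.Q45.EM
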