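import Pool.Agent.Q45.GM.Dpg
import Pool.Agent.Q45.GS.Tor

/-!
# The class of a rational point
-/

set_option autoImplicit false
set_option linter.all false

open Polynomial IsDedekindDomain WithZero
open scoped Classical

namespace Pool.Agent.Q45.EM

open Pool.Agent.Q45.TW (IsGeom)
open Pool.Agent.Q45.GM
open Pool.Agent.Y160.SQ
open Pool.Agent.TH115.GD (incl rs ak Sep Comp)
open Pool.Agent.Y160.RK (ptCl dvI_cl jm_fix)

section seq

variable {K F : Type} [Field K] [Field F] [Algebra K F] {f : K[X]} (hgd : Good 2 (-1) f)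

include hgd in
/-- The sequence of the halves. -/
theorem exists_seq (D : Jac 2 f K) : ∃ R : ℕ → Jac 2 f (Sep F),
    R 0 = jm 2 f (incl K K (Sep F)) D ∧ ∀ n, 2 • R (n + 1) = R n := by
  haveI : IsSepClosed (Sep F) := IsSepClosure.sep_closed F
  choose d hd using fun x : Jac 2 f (Sep F) => div_two (Ω := Sep F) hgd x
  refine ⟨fun n => Nat.rec (jm 2 f (incl K K (Sep F)) D) (fun _ x => d x) n, rfl, fun n => ?_⟩
  exact hd _

/-- The cocycle. -/
noncomputable def cD (f : K[X]) (R : ℕ → Jac 2 f (Sep F)) (n : ℕ) (σ : Sep F ≃ₐ[F] Sep F) :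
    Jac 2 f (Sep F) := jm 2 f (rs K σ) (R n) - R n

variable (B : Type) [CommRing B] [IsDedekindDomain B] [Algebra B F] [IsFractionRing B F]

include hgd in
theorem cD_tc {R : ℕ → Jac 2 f (Sep F)}
    (h0 : ∀ φ : Sep F →ₐ[K] Sep F, jm 2 f φ (R 0) = R 0) (hS : ∀ n, 2 • R (n + 1) = R n) :
    IsTC 2 2 f (cD f R) ∧ ∀ n, IsSelmer 2 B f (cD f R n) := by
  have h1 : ∀ n, IsCc (actJ 2 (F := F) f) (cD f R n) := fun n =>
    cob_isCc (actJ_isAct 2 hgd) (R n)
  refine ⟨⟨fun n => ⟨(h1 n).lc, (h1 n).mul⟩, fun σ => ?_, fun n σ => ?_⟩, fun n => ?_⟩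
  · unfold cD
    rw [h0, sub_self]
  · unfold cD
    rw [smul_sub, ← map_nsmul, hS]
  · exact (sel_isLocal 2 B f).cob (R n)

end seq

section act

variable {k k' K F : Type} [Field k] [Field k'] [Algebra k k'] [IsSepClosed k']
  [Algebra.IsSeparable k k'] [Field K] [Algebra k[X] K] [Field F] [Algebra k'[X] F] [Algebra K F]
  (B : Type) [CommRing B] [IsDedekindDomain B] [Algebra k'[X] B]
  [Algebra B F] [IsScalarTower k'[X] B F] [IsFractionRing B F] [IsIntegralClosure B k'[X] F]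
  {f : K[X]} (hgd : Good 2 (-1) f)

include hgd in
/-- The class is fixed. -/
theorem rho_cD (hF : IsGeom k k' K F) {R : ℕ → Jac 2 f (Sep F)}
    (h0 : ∀ φ : Sep F →ₐ[K] Sep F, jm 2 f φ (R 0) = R 0) (hS : ∀ n, 2 • R (n + 1) = R n)
    (T : Sep F ≃ₐ[K] Sep F) :
    rho B hF f T (clsOf B f (cD f R)) = clsOf B f (cD f R) := by
  obtain ⟨hc, hcs⟩ := cD_tc hgd B h0 hS
  set R' : ℕ → Jac 2 f (Sep F) := fun n => jm 2 f (ak T) (R n) with hR'
  have h0' : R' 0 = R 0 := h0 _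
  have hS' : ∀ n, 2 • R' (n + 1) = R' n := fun n => by
    show 2 • jm 2 f (ak T) (R (n + 1)) = jm 2 f (ak T) (R n)
    rw [← map_nsmul, hS]
  have h1 := (rho_cls B hF f T hc hcs (d := cD f R') (fun n σ σ' hσ => by
    unfold cD
    have h3 : (rs K σ).comp (ak T) = (ak T).comp (rs K σ') := AlgHom.ext fun x => (hσ x).symm
    show jm 2 f (rs K σ) (jm 2 f (ak T) (R n)) - jm 2 f (ak T) (R n) = _
    rw [map_sub, jm_jm, jm_jm, h3])).2
  rw [← h1]
  set R'' : ℕ → Jac 2 f (Sep F) := fun n => R' n - R n with hR''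
  have h0'' : ∀ φ : Sep F →ₐ[K] Sep F, jm 2 f φ (R'' 0) = R'' 0 := fun φ => by
    show jm 2 f φ (R' 0 - R 0) = R' 0 - R 0
    rw [h0', sub_self, map_zero]
  have hS'' : ∀ n, 2 • R'' (n + 1) = R'' n := fun n => by
    show 2 • (R' (n + 1) - R (n + 1)) = R' n - R n
    rw [smul_sub, hS', hS]
  obtain ⟨hd, hds⟩ := cD_tc hgd B h0'' hS''
  have h4 : cD f R' = cD f R + cD f R'' := by
    funext n σ
    show jm 2 f (rs K σ) (R' n) - R' n = jm 2 f (rs K σ) (R n) - R n +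
      (jm 2 f (rs K σ) (R' n - R n) - (R' n - R n))
    rw [map_sub]
    abel
  rw [h4, clsOf_add B f hc hcs hd hds]
  have h5 : clsOf B f (cD f R'') = 0 := by
    rw [clsOf_zero B f hd hds]
    refine ⟨R'', ⟨?_, hS''⟩, fun n σ => rfl⟩
    show R' 0 - R 0 = 0
    rw [h0', sub_self]
  rw [h5, add_zero]

end act

section kum

/-- The Kummer generator. -/
theorem kum_gen {K Ω : Type} [Field K] [Field Ω] [Algebra K Ω] [IsSepClosed Ω] {f : K[X]}
    (hgd : Good 2 (-1) f) {c0 : K} (hc0 : c0 ≠ 0) (hf0 : f.coeff 0 = c0 ^ 2) {a : Ω} (ha : Rt f a)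
    {R0 R1 : Jac 2 f Ω} (h0 : R0 = jm 2 f (incl K K Ω) (ptCl 2 f (X, C c0)))
    (hS : 2 • R1 = R0) :
    ∃ t : Ω, t ≠ 0 ∧ (∀ τ : Ω ≃ₐ[K] Ω, τ a = a → τ t = chi hgd a (jm 2 f (rs K τ) R1 - R1) * t) ∧
      t ^ 2 * ((f.map (algebraMap K Ω)).roots.prod) = a ^ f.natDegree := by
  have H : Hyps := hyps
  have hKK : f.map (algebraMap K K) = f := by rw [Algebra.algebraMap_self, Polynomial.map_id]
  let T : Multiset (K[X] × K[X]) := {(X, C c0)}
  have hP : Irreducible (X : K[X]) ∧ (X : K[X]).Monic ∧ ¬ X ∣ f ∧ X ∣ f - (C c0) ^ 2 := by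
    refine ⟨irreducible_X, monic_X, ?_, ?_⟩
    · rw [X_dvd_iff, hf0]
      exact pow_ne_zero 2 hc0
    · rw [X_dvd_iff, coeff_sub, hf0, ← C_pow, coeff_C_zero, sub_self]
  have hTp : ∀ P ∈ T, Irreducible P.1 ∧ P.1.Monic ∧ ¬ P.1 ∣ f.map (algebraMap K K) ∧
      P.1 ∣ f.map (algebraMap K K) - P.2 ^ 2 := by
    intro P hP'
    rw [Multiset.mem_singleton] at hP'
    subst hP'
    rw [hKK]
    exact hP
  let I : Ideal (CR 2 (f.map (algebraMap K K))) := dvI 2 _ T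
  have hIc : I ⊔ Ideal.span {yy 2 (f.map (algebraMap K K))} = ⊤ := dvI_cop fun P hP =>
    ⟨(hTp P hP).1, not_dvd_c hgd.ne (hTp P hP).1 (hTp P hP).2.2.1 (hTp P hP).2.2.2⟩
  have hIP : IsCl K I ((T.map (ptCl 2 f)).sum) := dvI_cl H hgd fun P hP => (hTp P hP).1
  have hTs : (T.map (ptCl 2 f)).sum = ptCl 2 f (X, C c0) := by
    rw [Multiset.map_singleton, Multiset.sum_singleton]
  rw [hTs] at hIP
  have hN := dvI_norm (ℓ := 2) H.max (hgd.up K) (S := T) hTp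
  have hLP := dvP_lp hgd.pos hTp
  have hR0 : pe hgd Ω (1 - X) R1 = jm 2 f (incl K K Ω) (ptCl 2 f (X, C c0)) := by
    rw [← h0, ← hS]
    have h := uu_mul hyps hgd R1
    rw [uu_two hgd, pe_one] at h
    exact h
  obtain ⟨t', ht1, ht2⟩ := kcJ H hgd hIP hIc (lp_coprime hLP) hN hR0
  obtain ⟨ht0, -, hteq⟩ := ht1 a ha
  have hdvP : dvP T = X := by
    unfold dvP
    rw [Multiset.map_singleton, Multiset.prod_singleton]
  refine ⟨t' a, ht0, fun τ hσ => ?_, ?_⟩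
  · have h1 := ht2 τ a ha (by
      refine (tor_two hgd).2 ?_
      rw [smul_sub, ← map_nsmul, hS, h0]
      have h5 := jm_fix H hgd (rs K τ) (ptCl 2 f (X, C c0))
      rw [h5, sub_self])
    rw [hσ] at h1
    exact h1
  · rw [hdvP] at hteq
    have h4 : ((f.map (algebraMap K Ω)).roots.map fun β' => aeval β' (X : K[X])) =
        (f.map (algebraMap K Ω)).roots := by
      simp only [aeval_X, Multiset.map_id']
    rw [h4, aeval_X] at hteq
    exact hteq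

variable {K F : Type} [Field K] [Field F] [Algebra K F] {f : K[X]} (hgd : Good 2 (-1) f)

/-- The Kummer generator. -/
theorem kum_D {c0 : K} (hc0 : c0 ≠ 0) (hf0 : f.coeff 0 = c0 ^ 2) {a : Sep F} (ha : Rt f a)
    {R : ℕ → Jac 2 f (Sep F)} (h0 : R 0 = jm 2 f (incl K K (Sep F)) (ptCl 2 f (X, C c0)))
    (hS : ∀ n, 2 • R (n + 1) = R n) :
    ∃ t : Sep F, IsKum hgd a (cD f R 1) t ∧
      t ^ 2 * ((f.map (algebraMap K (Sep F))).roots.prod) = a ^ f.natDegree := by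
  haveI : IsSepClosed (Sep F) := IsSepClosure.sep_closed F
  obtain ⟨t, h1, h2, h3⟩ := kum_gen hgd hc0 hf0 ha h0 (hS 0)
  exact ⟨t, ⟨h1, fun σ hσ => h2 (σ.restrictScalars K) hσ⟩, h3⟩

end kum

end Pool.Agent.Q45.EM
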