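import Pool.Agent.Q45.GM.Inv2

/-!
# Project EM: linear algebra for an embedding of `M / 2 M` in a permutation module

`M` is a free `ℤ_2`-module of finite rank, `κ : M → (R → 𝔽_2)` an additive map with kernel `2 M`, `R` a
finite set, and `D` an element of `M` with `κ D = (1, ..., 1)`. Each statement has a proof in its docstring.
-/

set_option autoImplicit false
set_option linter.all false

open Polynomial
open scoped Classical

namespace Pool.Agent.Q45.EM

/-- The kernel of `κ` is `2 M`, and `κ D` is the constant function one. -/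
structure Red {R M : Type} [AddCommGroup M] [Module ℤ_[2] M] (κ : M →+ (R → ZMod 2)) (D : M) : Prop where
  zero_iff : ∀ m, κ m = 0 ↔ ∃ m', m = (2 : ℤ_[2]) • m'
  one : ∀ r, κ D r = 1

/-- The endomorphism `A` acts on the values of `κ` through the permutation `π`. -/
def Thr {R M : Type} [AddCommGroup M] [Module ℤ_[2] M] (κ : M →+ (R → ZMod 2)) (A : M →ₗ[ℤ_[2]] M)
    (π : Equiv.Perm R) : Prop :=
  ∀ m r, κ (A m) (π r) = κ m r

/-- JOB SUB. Stable saturated submodules, if all the permutations occur.

PROOF. Put `N = card R`. For a saturated stable `U` let `V = κ(U)`, a subgroup of `R → 𝔽_2` which is stable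
under all permutations, with `2 ^ rank U` elements (`Inv.card_map` of GM/Inv2, with `W = ⊤`, `Γ = ∅`). If
`V` contains a nonconstant `v`, `v i ≠ v j`, then `v + (i j) v = e_i + e_j ∈ V`, so all `e_a + e_b ∈ V` and
`V` contains the functions with sum zero: `2 ^ (N - 1)` elements. So `V` is `0`, `{0, 1}`, or has at least
`2 ^ (N - 1)` elements, and `rank U` is `0`, `1` or at least `N - 1`. Rank `0` means `U = ⊥` (free modules).
If `rank U = 1` and `D ∉ U`: let `U'` be the saturation of `U + ℤ_2 D` (all `m` with `2 ^ n m` in it for some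
`n`); it is stable and saturated of rank 2 (not of rank 1: `U` saturated of the same rank in `U'` would be
`U'`), a contradiction to `N - 1 ≥ 4`. If `D ∈ U` and `rank U = 1` then `U = ℤ_2 D`, because
`ℤ_2 D` is saturated (`D` is not in `2 M` since `R` is not empty) of the same rank. Last statement: if `N` is
odd and `D ∈ U` has rank at least `N - 1`, then `V` contains the functions with sum zero and the constant
function one, whose sum is `N = 1`, so `V` is everything, `κ(U) = κ(M)`, `M = U + 2 M`, and `U = M` by
Nakayama (or `U` saturated of the same rank). -/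
def S_SUB : Prop :=
  ∀ (R M : Type) [Fintype R] [AddCommGroup M] [Module ℤ_[2] M] [Module.Free ℤ_[2] M]
    [Module.Finite ℤ_[2] M] (κ : M →+ (R → ZMod 2)) (D : M) (Φ : Set (M →ₗ[ℤ_[2]] M)),
    Red κ D → (∀ A ∈ Φ, A D = D) → (∀ π : Equiv.Perm R, ∃ A ∈ Φ, Thr κ A π) → 5 ≤ Fintype.card R →
    ∀ U : Submodule ℤ_[2] M, (∀ A ∈ Φ, ∀ u ∈ U, A u ∈ U) → (∀ m : M, (2 : ℤ_[2]) • m ∈ U → m ∈ U) →
      (U = ⊥ ∨ U = Submodule.span ℤ_[2] {D} ∨ Fintype.card R ≤ Module.finrank ℤ_[2] U + 1) ∧
      (Odd (Fintype.card R) → D ∈ U → U = Submodule.span ℤ_[2] {D} ∨ U = ⊤)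

/-- JOB END. The endomorphisms which commute with everything are scalars modulo `D`.

PROOF. Let `N = card R`. As in SUB, `κ(M)` is `{0, 1}`, the functions with sum zero (if `N` is even) or
everything (it contains the constant function one). First, `B D ∈ ℤ_2 D`: the elements fixed by all `A ∈ Φ`
form a saturated stable submodule which contains `B D` and `D`; by the argument of SUB it is `ℤ_2 D` or its
image under `κ` contains `e_1 + e_2`, which is not fixed by the permutations. If `κ(M) = {0, 1}` then the
rank is one and `M = ℤ_2 D`. Otherwise `B` induces an endomorphism `b` of `κ(M)` modulo the constants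
(if `κ m` is constant then `m ∈ ℤ_2 D + 2 M`), which commutes with all permutations. Let `κ(M)` be everything:
`b(e_1)` is fixed modulo constants by the permutations fixing 1, so for a representative `v` and
`i, j ≠ 1` the element `v + (i j) v` is `0` or `e_i + e_j`, and it is constant, so it is `0` as `N ≥ 3`; so `v`
is constant outside of `1`, `b(e_1) = c e_1` modulo constants, `c ∈ 𝔽_2`, and by symmetry `b = c` on all
`e_i`. If `κ(M)` is the functions with sum zero use `e_1 + e_2`: a representative of its image is constant on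
`{3, ..., N}` and on `{1, 2}` (`N ≥ 5`). So `b = c`, and `B m - c m ∈ ℤ_2 D + 2 M` for all `m`. Now
apply this to `V = M / ℤ_2 D` (free, as `D` is not in `2 M`): the induced `B'` satisfies `B' = c + 2 B''`, where
`B''` again commutes; iterating and passing to the limit, `B'` is a scalar `x ∈ ℤ_2`. (For the last step
one can also use Lin4 of GM, `Pool.Agent.Q45.GM.JLIN4.main`, applied to `V` and the induced endomorphisms:
its hypothesis is exactly the statement modulo 2, for `ψ` on `V` which commute modulo 2.) -/
def S_END : Prop :=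
  ∀ (R M : Type) [Fintype R] [AddCommGroup M] [Module ℤ_[2] M] [Module.Free ℤ_[2] M]
    [Module.Finite ℤ_[2] M] (κ : M →+ (R → ZMod 2)) (D : M) (Φ : Set (M →ₗ[ℤ_[2]] M)),
    Red κ D → (∀ A ∈ Φ, A D = D) → (∀ π : Equiv.Perm R, ∃ A ∈ Φ, Thr κ A π) → 5 ≤ Fintype.card R →
    ∀ B : M →ₗ[ℤ_[2]] M, (∀ A ∈ Φ, ∀ m, B (A m) = A (B m)) →
      ∃ x : ℤ_[2], ∀ m, B m - x • m ∈ Submodule.span ℤ_[2] {D}

/-- JOB CHP. The characteristic polynomial of a permutation.

PROOF. The matrix of the permutation is a direct sum of cyclic matrices over the cycles; the polynomial of a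
cycle of length `c` is `X ^ c - 1`. (For instance: induction on the cycles with `LinearMap.charpoly` of
invariant complements, or a direct computation of `det (X - P)` by the Leibniz formula.) -/
def S_CHP : Prop :=
  ∀ (R : Type) [Fintype R] (π : Equiv.Perm R),
    (LinearMap.funLeft (ZMod 2) (ZMod 2) (π : R → R)).charpoly =
      ((Equiv.Perm.partition π).parts.map fun c : ℕ => (X ^ c - 1 : (ZMod 2)[X])).prod

/-- JOB QCH. The characteristic polynomial modulo `2` on `M` and on `M / ℤ_2 D`.

PROOF. `ℤ_2 D` is saturated, so `V = M / ℤ_2 D` is free and the characteristic polynomial of `φ` is `X - 1`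
times that of the induced endomorphism (choose a basis of `M` containing `D`, or the multiplicativity of
`LinearMap.charpoly` in exact sequences / `LinearMap.charpoly` of block triangular matrices). The
characteristic polynomial of `φ` modulo `2` divides that of the permutation operator
(`Pool.Agent.Q45.GM.Lin8`, proved: search for JLIN8), `κ (φ m) = κ m ∘ π.symm`, and `π`, `π⁻¹` have the same
cycle lengths. -/
def S_QCH : Prop :=
  ∀ (R M : Type) [Fintype R] [AddCommGroup M] [Module ℤ_[2] M] [Module.Free ℤ_[2] M]
    [Module.Finite ℤ_[2] M] (κ : M →+ (R → ZMod 2)) (D : M) (φ : M →ₗ[ℤ_[2]] M) (π : Equiv.Perm R)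
    [Nonempty R] (hφ : ∀ u ∈ Submodule.span ℤ_[2] {D}, φ u ∈ Submodule.span ℤ_[2] {D}), Red κ D →
    φ D = D → Thr κ φ π →
      ∃ _ : Module.Free ℤ_[2] (M ⧸ Submodule.span ℤ_[2] {D}),
      (X - 1) * ((Submodule.mapQ _ (Submodule.span ℤ_[2] {D}) φ hφ).charpoly.map PadicInt.toZMod) ∣
        ((Equiv.Perm.partition π).parts.map fun c : ℕ => (X ^ c - 1 : (ZMod 2)[X])).prod

end Pool.Agent.Q45.EM
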