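import Pool.Agent.Q45.EM.Val
import Pool.Agent.Q45.EM.Dcl
import Pool.Agent.Q45.EM.Stm

/-!
# The embedding
-/

set_option autoImplicit false
set_option linter.all false

open Polynomial IsDedekindDomain WithZero
open scoped Classical

namespace Pool.Agent.Q45.EM

open Pool.Agent.Q45.TW (IsGeom)
open Pool.Agent.Q45.TG (ds IsBr)
open Pool.Agent.Q45.GM
open Pool.Agent.Q45.NE (eG model model_monic model_natDegree model_eval_zero cof_coprime)
open Pool.Agent.Y160.SQ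
open Pool.Agent.Y160.SE (IsPw)
open Pool.Agent.TH115.GD (incl rs ak Sep Comp)
open Pool.Agent.Y160.RK (ptCl jm_fix)

section aut

variable {k k' : Type} [Field k] [Field k'] [Algebra k k'] {P : k[X][X]} {Q : k'[X][X]}

/-- The action of an automorphism of the constants on the polynomials. -/
noncomputable def tp (τ : k' ≃ₐ[k] k') : k'[X] →+* k'[X] := mapRingHom (τ : k' →+* k')

theorem tp_map (τ : k' ≃ₐ[k] k') (p : k[X]) :
    tp τ (p.map (algebraMap k k')) = p.map (algebraMap k k') := by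
  unfold tp
  rw [coe_mapRingHom, Polynomial.map_map]
  congr 1
  exact RingHom.ext fun x => τ.commutes x

theorem tp_pm (τ : k' ≃ₐ[k] k') (p : k[X][X]) : (pm k' p).map (tp τ) = pm k' p := by
  unfold pm
  rw [Polynomial.map_map]
  congr 1
  exact RingHom.ext fun x => tp_map τ x

theorem tp_symm (τ : k' ≃ₐ[k] k') : (tp τ.symm).comp (tp τ) = RingHom.id _ := by
  unfold tp
  rw [mapRingHom_comp]
  have h1 : ((τ.symm : k' ≃ₐ[k] k') : k' →+* k').comp (τ : k' →+* k') = RingHom.id k' :=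
    RingHom.ext fun x => τ.symm_apply_apply x
  rw [h1, mapRingHom_id]

/-- The action on the coordinate ring. -/
noncomputable def ph (hQ : pm k' P = Q) (τ : k' ≃ₐ[k] k') : AdjoinRoot Q →+* AdjoinRoot Q :=
  AdjoinRoot.lift ((AdjoinRoot.of Q).comp (tp τ)) (AdjoinRoot.root Q) (by
    rw [← eval₂_map, ← hQ, tp_pm]
    exact AdjoinRoot.eval₂_root _)

theorem ph_mk (hQ : pm k' P = Q) (τ : k' ≃ₐ[k] k') (p : k'[X][X]) :
    ph hQ τ (AdjoinRoot.mk Q p) = AdjoinRoot.mk Q (p.map (tp τ)) := by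
  unfold ph
  rw [AdjoinRoot.lift_mk, ← eval₂_map]
  have h1 := AdjoinRoot.aeval_eq (f := Q) (p.map (tp τ))
  rw [aeval_def] at h1
  exact h1

theorem ph_ph (hQ : pm k' P = Q) (τ : k' ≃ₐ[k] k') (x : AdjoinRoot Q) :
    ph hQ τ.symm (ph hQ τ x) = x := by
  obtain ⟨p, rfl⟩ := AdjoinRoot.mk_surjective x
  rw [ph_mk, ph_mk, Polynomial.map_map, tp_symm, Polynomial.map_id]

/-- The automorphism of the coordinate ring and of its field of fractions. -/
theorem exists_aut (hQ : pm k' P = Q) [IsDedekindDomain (AdjoinRoot Q)] (L : Type) [Field L]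
    [Algebra (AdjoinRoot Q) L] [IsFractionRing (AdjoinRoot Q) L] (τ : k' ≃ₐ[k] k') :
    ∃ (ρ : AdjoinRoot Q ≃+* AdjoinRoot Q) (e : L ≃+* L),
      (∀ p, ρ (AdjoinRoot.mk Q p) = AdjoinRoot.mk Q (p.map (tp τ))) ∧
      (∀ x, e (algebraMap (AdjoinRoot Q) L x) = algebraMap (AdjoinRoot Q) L (ρ x)) ∧
      FixP k (Q := Q) e := by
  let ρ : AdjoinRoot Q ≃+* AdjoinRoot Q := RingEquiv.ofRingHom (ph hQ τ) (ph hQ τ.symm)
    (RingHom.ext fun x => by
      have h1 := ph_ph hQ τ.symm x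
      rwa [AlgEquiv.symm_symm] at h1) (RingHom.ext fun x => ph_ph hQ τ x)
  have hρ : ∀ p, ρ (AdjoinRoot.mk Q p) = AdjoinRoot.mk Q (p.map (tp τ)) := fun p => ph_mk hQ τ p
  refine ⟨ρ, IsFractionRing.ringEquivOfRingEquiv ρ, hρ, fun x =>
    IsFractionRing.ringEquivOfRingEquiv_algebraMap ρ x, fun p => ?_⟩
  rw [IsFractionRing.ringEquivOfRingEquiv_algebraMap, hρ, tp_pm]

end aut

section ev

variable {k' : Type} [Field k'] {Q : k'[X][X]} {G' : k'[X]} [IsDedekindDomain (AdjoinRoot Q)]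
  {L : Type} [Field L] [Algebra (AdjoinRoot Q) L] [IsFractionRing (AdjoinRoot Q) L]
  {c : AdjoinRoot Q}

/-- The points over `r` which are not on the section. -/
def Pr (Q : k'[X][X]) (G' : k'[X]) [IsDedekindDomain (AdjoinRoot Q)] (r : k')
    (𝔓 : HeightOneSpectrum (AdjoinRoot Q)) : Prop :=
  AdjoinRoot.of Q (X - C r) ∈ 𝔓.asIdeal ∧ (AdjoinRoot.root Q - AdjoinRoot.of Q G') ∉ 𝔓.asIdeal

/-- There is a point over `r` where the valuation of `θ` is one. -/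
theorem exists_one [IsSepClosed k'] (hQ : Q.Monic) (hn : 1 < Q.natDegree) {r : k'}
    (hsep : (eG Q G').Separable) (hr : (eG Q G').eval r = 0)
    (hunr : IsCoprime (AdjoinRoot.of Q (eG Q G')) (AdjoinRoot.mk Q (derivative Q)))
    (hc : c * (AdjoinRoot.of Q G' - AdjoinRoot.root Q) = AdjoinRoot.of Q (eG Q G')) :
    ∃ 𝔓 : HeightOneSpectrum (AdjoinRoot Q), Pr Q G' r 𝔓 ∧
      𝔓.valuation L (algebraMap (AdjoinRoot Q) L (-c)) = exp (-1 : ℤ) := by
  have hinj : Function.Injective (AdjoinRoot.of Q) :=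
    AdjoinRoot.of.injective_of_degree_ne_zero
      (natDegree_pos_iff_degree_pos.1 (by omega)).ne'
  obtain ⟨w, h0, h1, hw⟩ := second_pt (r := r) hQ hn hr hunr
  obtain ⟨𝔓, hm, hT⟩ := exists_pt hinj h0 h1
  have hTm : AdjoinRoot.of Q (X - C r) ∈ 𝔓.asIdeal := by
    rw [← AdjoinRoot.mk_C, hm, evp_C, eval_sub, eval_X, eval_C, sub_self]
  have hW : (AdjoinRoot.root Q - AdjoinRoot.of Q G') ∉ 𝔓.asIdeal := by
    rw [← AdjoinRoot.mk_C, ← AdjoinRoot.mk_X, ← map_sub, hm, map_sub, evp_X, evp_C, sub_eq_zero]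
    exact hw
  refine ⟨𝔓, ⟨hTm, hW⟩, ?_⟩
  have hT0 : AdjoinRoot.of Q (X - C r) ≠ 0 := by
    intro h2
    exact X_sub_C_ne_zero r (hinj (by rw [h2, map_zero]))
  have hvT : 𝔓.valuation L (algebraMap (AdjoinRoot Q) L (AdjoinRoot.of Q (X - C r))) =
      exp (-1 : ℤ) := by
    rw [𝔓.valuation_of_algebraMap]
    have h2 : 𝔓.intValuation (AdjoinRoot.of Q (X - C r)) ≤ exp (-((1 : ℕ) : ℤ)) := by
      rw [𝔓.intValuation_le_pow_iff_mem, pow_one]
      exact hTm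
    have h3 : ¬ 𝔓.intValuation (AdjoinRoot.of Q (X - C r)) ≤ exp (-((2 : ℕ) : ℤ)) := by
      rw [𝔓.intValuation_le_pow_iff_mem]
      exact hT
    rw [𝔓.intValuation_eq_exp_neg_multiplicity hT0] at h2 h3 ⊢
    rw [exp_le_exp] at h2 h3
    congr 1
    omega
  obtain ⟨q, hq⟩ : (X - C r) ∣ eG Q G' := dvd_iff_isRoot.2 hr
  have hq0 : q.eval r ≠ 0 := by
    intro h2
    have h3 : ¬ IsUnit (X - C r) := not_isUnit_X_sub_C _
    apply h3
    refine hsep.squarefree _ ?_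
    obtain ⟨v, hv⟩ := dvd_iff_isRoot.2 h2
    exact ⟨v, by rw [mul_assoc, ← hv, ← hq]⟩
  have hvq : 𝔓.valuation L (algebraMap (AdjoinRoot Q) L (AdjoinRoot.of Q q)) = 1 := by
    rw [𝔓.valuation_of_algebraMap, 𝔓.intValuation_eq_one_iff, ← AdjoinRoot.mk_C, hm, evp_C]
    exact hq0
  have hvW : 𝔓.valuation L (algebraMap (AdjoinRoot Q) L
      (AdjoinRoot.root Q - AdjoinRoot.of Q G')) = 1 := by
    rw [𝔓.valuation_of_algebraMap, 𝔓.intValuation_eq_one_iff]
    exact hW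
  have h4 : (-c) * (AdjoinRoot.root Q - AdjoinRoot.of Q G') =
      AdjoinRoot.of Q (X - C r) * AdjoinRoot.of Q q := by
    rw [← map_mul, ← hq, ← hc]
    ring
  have h5 := congrArg (fun x => 𝔓.valuation L (algebraMap (AdjoinRoot Q) L x)) h4
  simp only [map_mul] at h5
  rw [hvW, hvT, hvq, mul_one, mul_one] at h5
  exact h5

/-- A point where `c` vanishes lies over a root. -/
theorem root_of_mem [IsSepClosed k'] (hsep : (eG Q G').Separable)
    (hc : c * (AdjoinRoot.of Q G' - AdjoinRoot.root Q) = AdjoinRoot.of Q (eG Q G'))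
    (hcop : IsCoprime (-c) (AdjoinRoot.root Q - AdjoinRoot.of Q G'))
    {𝔓 : HeightOneSpectrum (AdjoinRoot Q)} (h : (-c) ∈ 𝔓.asIdeal) :
    ∃ r, (eG Q G').eval r = 0 ∧ Pr Q G' r 𝔓 := by
  haveI := 𝔓.isPrime
  have hW : (AdjoinRoot.root Q - AdjoinRoot.of Q G') ∉ 𝔓.asIdeal := by
    intro h2
    obtain ⟨x, y, hxy⟩ := hcop
    apply 𝔓.isPrime.ne_top
    rw [Ideal.eq_top_iff_one, ← hxy]
    exact 𝔓.asIdeal.add_mem (𝔓.asIdeal.mul_mem_left _ h) (𝔓.asIdeal.mul_mem_left _ h2)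
  have h1 : AdjoinRoot.of Q (eG Q G') ∈ 𝔓.asIdeal := by
    have h2 : AdjoinRoot.of Q (eG Q G') = (-c) * (AdjoinRoot.root Q - AdjoinRoot.of Q G') := by
      rw [← hc]
      ring
    rw [h2]
    exact 𝔓.asIdeal.mul_mem_right _ h
  have hspl : (eG Q G').Splits := IsSepClosed.splits_of_separable _ hsep
  rw [hspl.eq_prod_roots, map_mul] at h1
  rcases 𝔓.isPrime.mem_or_mem h1 with h2 | h2
  · exfalso
    have h3 : IsUnit (AdjoinRoot.of Q (C (eG Q G').leadingCoeff)) :=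
      (isUnit_C.2 (isUnit_iff_ne_zero.2 (leadingCoeff_ne_zero.2 hsep.ne_zero))).map _
    exact 𝔓.isPrime.ne_top (Ideal.eq_top_of_isUnit_mem _ h2 h3)
  · rw [map_multiset_prod, Multiset.map_map] at h2
    rw [Ideal.IsPrime.multiset_prod_mem_iff_exists_mem 𝔓.isPrime] at h2
    obtain ⟨x, hx, hx'⟩ := h2
    obtain ⟨r, hr, rfl⟩ := Multiset.mem_map.1 hx
    exact ⟨r, ((mem_roots hsep.ne_zero).1 hr), hx', hW⟩

end ev

end Pool.Agent.Q45.EM
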