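import Mathlib

/-!
# Products of the polynomials `X ^ c - 1` for pairwise coprime odd `c`
-/

set_option autoImplicit false
set_option linter.all false

open Polynomial
open scoped Classical

namespace Pool.Agent.Q45.EM

/-- The polynomial `1 + X + ⋯ + X ^ (c - 1)`. -/
noncomputable def gm (c : ℕ) : (ZMod 2)[X] := ∑ i ∈ Finset.range c, X ^ i

theorem gm_mul (c : ℕ) : (X - 1) * gm c = X ^ c - 1 := mul_geom_sum X c

theorem two_zero : (2 : (ZMod 2)[X]) = 0 := by
  have h : ((2 : ℕ) : (ZMod 2)[X]) = 0 := CharP.cast_eq_zero _ 2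
  exact_mod_cast h

theorem xc_sep {c : ℕ} (hc : Odd c) : (X ^ c - 1 : (ZMod 2)[X]).Separable := by
  rw [X_pow_sub_one_separable_iff]
  intro h0
  have h1 : (2 : ℕ) ∣ c := (ZMod.natCast_eq_zero_iff c 2).1 h0
  obtain ⟨j, hj⟩ := hc
  omega

theorem gm_sep {c : ℕ} (hc : Odd c) : (gm c).Separable :=
  Separable.of_mul_right (f := X - 1) (by rw [gm_mul]; exact xc_sep hc)

theorem gm_cop {c : ℕ} (hc : Odd c) : IsCoprime (gm c) (X - 1) := by
  have h1 : (((X - 1) * gm c : (ZMod 2)[X])).Separable := by rw [gm_mul]; exact xc_sep hc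
  exact h1.isCoprime.symm

theorem gm_one (c : ℕ) : ∃ A : (ZMod 2)[X], gm c = (X - 1) * A + (c : (ZMod 2)[X]) := by
  have h1 : (X - 1 : (ZMod 2)[X]) ∣ gm c - (c : (ZMod 2)[X]) := by
    have h2 : gm c - (c : (ZMod 2)[X]) = ∑ i ∈ Finset.range c, (X ^ i - 1) := by
      rw [Finset.sum_sub_distrib]
      simp [gm]
    rw [h2]
    refine Finset.dvd_sum fun i _ => ?_
    exact sub_one_dvd_pow_sub_one X i
  obtain ⟨A, hA⟩ := h1
  exact ⟨A, by rw [← hA]; ring⟩

theorem gm_gm {c d : ℕ} (hc : Odd c) (hd : Odd d) (h : Nat.Coprime c d) :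
    IsCoprime (gm c) (gm d) := by
  rw [← Ideal.isCoprime_span_singleton_iff, Ideal.isCoprime_iff_sup_eq, Ideal.eq_top_iff_one]
  set I := Ideal.span {gm c} ⊔ Ideal.span {gm d} with hI
  have hcI : gm c ∈ I := Ideal.mem_sup_left (Ideal.subset_span rfl)
  have hdI : gm d ∈ I := Ideal.mem_sup_right (Ideal.subset_span rfl)
  let x : (ZMod 2)[X] ⧸ I := Ideal.Quotient.mk I X
  have h1 : ∀ n : ℕ, gm n ∈ I → x ^ n = 1 := by
    intro n hn
    have h2 : Ideal.Quotient.mk I (X ^ n - 1) = 0 := by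
      rw [Ideal.Quotient.eq_zero_iff_mem, ← gm_mul]
      exact I.mul_mem_left _ hn
    rw [map_sub, map_pow, map_one, sub_eq_zero] at h2
    exact h2
  have h2 : x = 1 := by
    have hu : IsUnit x := by
      obtain ⟨j, hj⟩ := hc
      refine IsUnit.of_mul_eq_one (x ^ (2 * j)) ?_
      rw [← pow_succ', ← hj]
      exact h1 c hcI
    obtain ⟨u, hu⟩ := hu
    have h3 : u ^ c = 1 := Units.ext (by rw [Units.val_pow_eq_pow_val, hu, h1 c hcI]; rfl)
    have h4 : u ^ d = 1 := Units.ext (by rw [Units.val_pow_eq_pow_val, hu, h1 d hdI]; rfl)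
    have h5 : orderOf u ∣ Nat.gcd c d := Nat.dvd_gcd (orderOf_dvd_of_pow_eq_one h3)
      (orderOf_dvd_of_pow_eq_one h4)
    rw [h.gcd_eq_one, Nat.dvd_one, orderOf_eq_one_iff] at h5
    rw [← hu, h5, Units.val_one]
  have h3 : (X - 1 : (ZMod 2)[X]) ∈ I := by
    rw [← Ideal.Quotient.eq_zero_iff_mem, map_sub, map_one, sub_eq_zero]
    exact h2
  obtain ⟨A, hA⟩ := gm_one c
  have h4 : (c : (ZMod 2)[X]) ∈ I := by
    have h5 : (c : (ZMod 2)[X]) = gm c - (X - 1) * A := by rw [hA]; ring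
    rw [h5]
    exact I.sub_mem hcI (I.mul_mem_right _ h3)
  have h5 : (c : (ZMod 2)[X]) = 1 := by
    obtain ⟨j, hj⟩ := hc
    rw [hj]
    push_cast
    rw [two_zero]
    ring
  rwa [h5] at h4

/-- The product over a list. -/
theorem list_prod (l : List ℕ) (ho : ∀ c ∈ l, Odd c) (hp : l.Pairwise Nat.Coprime) :
    ∃ S : (ZMod 2)[X], S.Separable ∧ IsCoprime S (X - 1) ∧
      (l.map fun c => (X ^ c - 1 : (ZMod 2)[X])).prod = (X - 1) ^ l.length * S ∧
      ∀ d, Odd d → (∀ c ∈ l, Nat.Coprime c d) → IsCoprime S (gm d) := by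
  induction l with
  | nil => exact ⟨1, separable_one, isCoprime_one_left, by simp, fun d _ _ => isCoprime_one_left⟩
  | cons a l ih =>
    rw [List.pairwise_cons] at hp
    obtain ⟨S, h1, h2, h3, h4⟩ := ih (fun c hc => ho c (List.mem_cons_of_mem _ hc)) hp.2
    have ha : Odd a := ho a List.mem_cons_self
    have h5 : IsCoprime S (gm a) := h4 a ha fun c hc => (hp.1 c hc).symm
    refine ⟨gm a * S, (gm_sep ha).mul h1 h5.symm, (gm_cop ha).mul_left h2, ?_, fun d hd hc => ?_⟩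
    · rw [List.map_cons, List.prod_cons, h3, List.length_cons, ← gm_mul]
      ring
    · exact (gm_gm ha hd (hc a List.mem_cons_self)).mul_left
        (h4 d hd fun c hc' => hc c (List.mem_cons_of_mem _ hc'))

/-- The product over a multiset. -/
theorem multi_prod (s : Multiset ℕ) (ho : ∀ c ∈ s, Odd c) (hp : s.Pairwise Nat.Coprime) :
    ∃ S : (ZMod 2)[X], S.Separable ∧ IsCoprime S (X - 1) ∧
      (s.map fun c => (X ^ c - 1 : (ZMod 2)[X])).prod = (X - 1) ^ Multiset.card s * S := by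
  obtain ⟨l, rfl, hl⟩ := hp
  obtain ⟨S, h1, h2, h3, -⟩ := list_prod l ho hl
  refine ⟨S, h1, h2, ?_⟩
  rw [Multiset.map_coe, Multiset.prod_coe, Multiset.coe_card]
  exact h3

end Pool.Agent.Q45.EM
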