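import Pool.Agent.Q45.EM.Core

/-!
# The embedding of `M / 2 M` in a permutation module
-/

set_option autoImplicit false
set_option linter.all false

open Polynomial IsDedekindDomain WithZero
open scoped Classical

namespace Pool.Agent.Q45.EM

open Pool.Agent.Q45.TW (IsGeom)
open Pool.Agent.Q45.TG (ds IsBr)
open Pool.Agent.Q45.GM
open Pool.Agent.Q45.NE (eG model model_monic model_natDegree model_eval_zero cof_coprime exists_cof)
open Pool.Agent.Y160.SQ
open Pool.Agent.Y160.SE (IsPw)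
open Pool.Agent.TH115.GD (incl rs ak Sep Comp)
open Pool.Agent.Y160.RK (ptCl jm_fix ptCl_spec)

section cop

variable {k' : Type} [Field k'] {Q : k'[X][X]} {G' : k'[X]} {c : AdjoinRoot Q}

/-- The coprimality with the derivative. -/
theorem cop_der (hunr : IsCoprime (AdjoinRoot.of Q (eG Q G')) (AdjoinRoot.mk Q (derivative Q))) :
    IsCoprime (eG Q G') ((derivative Q).eval G') := by
  let φ : AdjoinRoot Q →+* k'[X] ⧸ Ideal.span {eG Q G'} :=
    AdjoinRoot.lift (Ideal.Quotient.mk (Ideal.span {eG Q G'})) (Ideal.Quotient.mk _ G') (by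
      rw [eval₂_at_apply, Ideal.Quotient.eq_zero_iff_mem]
      exact Ideal.subset_span rfl)
  have h1 : ∀ p : k'[X][X], φ (AdjoinRoot.mk Q p) = Ideal.Quotient.mk _ (p.eval G') := by
    intro p
    rw [AdjoinRoot.lift_mk, eval₂_at_apply]
  obtain ⟨x, y, hxy⟩ := hunr
  obtain ⟨x', rfl⟩ := AdjoinRoot.mk_surjective x
  obtain ⟨y', rfl⟩ := AdjoinRoot.mk_surjective y
  have h2 := congrArg φ hxy
  rw [map_add, map_mul, map_mul, ← AdjoinRoot.mk_C, h1, h1, h1, h1, map_one, ← map_mul, ← map_mul,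
    ← map_add, ← map_one (Ideal.Quotient.mk (Ideal.span {eG Q G'})), Ideal.Quotient.eq,
    Ideal.mem_span_singleton, eval_C] at h2
  obtain ⟨z, hz⟩ := h2
  exact ⟨x'.eval G' - z, y'.eval G', by linear_combination hz⟩

end cop

section main

variable {k k' : Type} [Field k] [Field k'] [Algebra k k'] [IsSepClosed k']
  [Algebra.IsSeparable k k'] {P : k[X][X]} {G : k[X]}
  {K F : Type} [Field K] [Algebra k[X] K] [IsFractionRing k[X] K] [Field F]
  [Algebra k'[X] F] [IsFractionRing k'[X] F] [Algebra K F] {Q : k'[X][X]}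
  [IsDedekindDomain (AdjoinRoot Q)] {L : Type} [Field L] [Algebra (AdjoinRoot Q) L]
  [IsFractionRing (AdjoinRoot Q) L] {c : AdjoinRoot Q}
  [Algebra F L] [Algebra K L] [IsScalarTower K F L] [Algebra L (Sep F)]
  [IsScalarTower F L (Sep F)] [Algebra k'[X] L] [IsScalarTower k'[X] F L]
  [IsScalarTower k'[X] (AdjoinRoot Q) L] [Algebra.IsIntegral k'[X] (AdjoinRoot Q)]
  [Module.IsTorsionFree k'[X] (AdjoinRoot Q)]

/-- The class of the point `x = 0`, `y = e ^ ((n - 1) / 2)`. -/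
def PtClass (P : k[X][X]) (G : k[X]) (D : SelT (F := F) 2 k'[X] (fM P G K) 2) : Prop :=
  ∃ (P₀ : Jac 2 (fM P G K) K) (R : ℕ → Jac 2 (fM P G K) (Sep F)),
    Pool.Agent.Q45.TW.IsIdealClass (R := CR 2 ((fM P G K).map (algebraMap K K))) P₀
      (prI 2 ((fM P G K).map (algebraMap K K)) X
        (C (algebraMap k[X] K (eG P G ^ ((P.natDegree - 1) / 2))))) ∧
    R 0 = jm 2 (fM P G K) (incl K K (Sep F)) P₀ ∧
    (∀ n, 2 • R (n + 1) = R n) ∧ IsTC 2 2 (fM P G K) (cD (fM P G K) R) ∧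
    (∀ n, IsSelmer 2 k'[X] (fM P G K) (cD (fM P G K) R n)) ∧
    D = clsOf k'[X] (fM P G K) (cD (fM P G K) R)

theorem em_in (h : Dm k' P G) (hQ : pm k' P = Q)
    (hc0 : c * (AdjoinRoot.of Q (G.map (algebraMap k k')) - AdjoinRoot.root Q) =
      AdjoinRoot.of Q (eG Q (G.map (algebraMap k k')))) (hgd : Good 2 (-1) (fM P G K)) {a : Sep F}
    (hfld : Fld (f := fM P G K) a (algebraMap (AdjoinRoot Q) L (-c)))
    (hff : (model Q (G.map (algebraMap k k'))).map (algebraMap k'[X] F) =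
        (fM P G K).map (algebraMap K F))
    (hfix : ∀ e : L ≃+* L, FixP k (Q := Q) e → Fixes K (algebraMap (AdjoinRoot Q) L (-c)) e)
    (hF : IsGeom k k' K F) :
    ∃ (_ : Module.Finite ℤ_[2] (SelT (F := F) 2 k'[X] (fM P G K) 2))
      (_ : Module.Free ℤ_[2] (SelT (F := F) 2 k'[X] (fM P G K) 2))
      (κ : SelT (F := F) 2 k'[X] (fM P G K) 2 →+ ((eG P G).rootSet k' → ZMod 2))
      (D : SelT (F := F) 2 k'[X] (fM P G K) 2), Red κ D ∧ PtClass P G D ∧
      (∀ T, rho k'[X] hF (fM P G K) T D = D) ∧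
      ∀ (T : Sep F ≃ₐ[K] Sep F) (τ : k' ≃ₐ[k] k'), (∀ x, T (cs k' F x) = cs k' F (τ x)) →
        ∀ π : Equiv.Perm ((eG P G).rootSet k'), (∀ r, ((π r : (eG P G).rootSet k') : k') = τ r) →
          Thr κ (rho k'[X] hF (fM P G K) T) π := by
  have hbr : IsBr 2 Q := hQ ▸ h.br
  have h2' : (2 : k') ≠ 0 := by
    intro h0
    apply h.two
    apply (algebraMap k k').injective
    rw [map_ofNat, map_zero]
    exact h0
  obtain ⟨G', hG'⟩ : ∃ G', G.map (algebraMap k k') = G' := ⟨_, rfl⟩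
  rw [hG'] at hc0 hff
  have hQm : Q.Monic := by rw [← hQ]; exact h.pm_monic
  have hQd : Q.natDegree = P.natDegree := by rw [← hQ]; exact h.pm_deg
  have hn : 1 < Q.natDegree := by rw [hQd]; exact h.three
  have hsep : (eG Q G').Separable := by rw [← hQ, ← hG']; exact h.pm_sep
  have hunr : IsCoprime (AdjoinRoot.of Q (eG Q G')) (AdjoinRoot.mk Q (derivative Q)) := by
    have h1 := h.pm_unr
    rw [hG'] at h1
    rw [← hQ]
    exact h1
  have hinjA : Function.Injective (AdjoinRoot.of Q) :=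
    AdjoinRoot.of.injective_of_degree_ne_zero
      (natDegree_pos_iff_degree_pos.1 (by omega)).ne'
  have hne : AdjoinRoot.of Q G' - AdjoinRoot.root Q ≠ 0 := by
    intro h0
    rw [h0, mul_zero] at hc0
    exact hsep.ne_zero (hinjA (by rw [← hc0, map_zero]))
  have hcop : IsCoprime (-c) (AdjoinRoot.root Q - AdjoinRoot.of Q G') :=
    cof_coprime hne hc0 (cop_der hunr)
  have heR : ∀ r : (eG P G).rootSet k', (eG Q G').eval (r : k') = 0 := by
    rintro ⟨r, hr⟩
    have h1 := (mem_rootSet.1 hr).2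
    rw [aeval_def, ← eval_map] at h1
    rw [← hQ, ← hG', eG_pm]
    exact h1
  have hRe : ∀ r : k', (eG Q G').eval r = 0 → r ∈ (eG P G).rootSet k' := by
    intro r hr
    rw [mem_rootSet]
    refine ⟨h.e_ne, ?_⟩
    rw [aeval_def, ← eval_map]
    rw [← hQ, ← hG', eG_pm] at hr
    exact hr
  -- the element `θ`
  set θ : L := algebraMap (AdjoinRoot Q) L (-c) with hθ
  have hθ0 : θ ≠ 0 := by
    intro h0
    have h1 : -c = 0 := IsFractionRing.injective (AdjoinRoot Q) L (by rw [← hθ, h0, map_zero])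
    rw [neg_eq_zero.1 h1, zero_mul] at hc0
    exact hsep.ne_zero (hinjA (by rw [← hc0, map_zero]))
  let θu : Lˣ := Units.mk0 θ hθ0
  let E : (eG P G).rootSet k' → Subgroup Lˣ := fun r => evP (L := L) (Pr Q G' (r : k'))
  have hone : ∀ r : (eG P G).rootSet k', ∃ 𝔓 : HeightOneSpectrum (AdjoinRoot Q), Pr Q G' r 𝔓 ∧
      𝔓.valuation L θ = exp (-1 : ℤ) := fun r => exists_one hQm hn hsep (heR r) hunr hc0
  have hE : ∀ r, sqS L ≤ E r := fun r => sq_evP
  have hθE : ∀ r, θu ∉ E r := by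
    intro r hr
    obtain ⟨𝔓, h1, h3⟩ := hone r
    have h4 := hr 𝔓 h1
    have h5 : ((θu : Lˣ) : L) = θ := rfl
    rw [h5, h3] at h4
    exact not_pw h4
  have hval : ∀ m : SelT (F := F) 2 k'[X] (fM P G K) 2, ∃ z : Lˣ, kM hgd hfld m = clX z ∧
      (∀ 𝔓 : HeightOneSpectrum (AdjoinRoot Q), (-c) ∉ 𝔓.asIdeal →
        IsPw 2 (𝔓.valuation L (z : L))) ∧
      ∀ r : k', (eG Q G').eval r = 0 → ∃ i : ℕ,
        ∀ 𝔓 : HeightOneSpectrum (AdjoinRoot Q), Pr Q G' r 𝔓 →
          IsPw 2 (𝔓.valuation L ((z : L) * θ ^ i)) := by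
    intro m
    obtain ⟨z, h1, h3, h4⟩ := val_m h hQ (by rw [hG']; exact hc0) hgd hfld (by rw [hG']; exact hff) m
    refine ⟨z, h1, h3, fun r hr => ?_⟩
    obtain ⟨i, hi⟩ := h4 r (by rw [hG']; exact hr)
    rw [hG'] at hi
    exact ⟨i, fun 𝔓 h => hi 𝔓 h.1 h.2⟩
  obtain ⟨κ, hκ⟩ := kap_exists (kM hgd hfld) E hE hθE (fun m r => by
    obtain ⟨z, h1, -, h4⟩ := hval m
    obtain ⟨i, hi⟩ := h4 r (heR r)
    refine ⟨z, h1, ?_⟩
    rcases Nat.even_or_odd i with ⟨j, hj⟩ | ⟨j, hj⟩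
    · left
      intro 𝔓 h𝔓
      obtain ⟨δ, hδ⟩ := hi 𝔓 h𝔓
      have h5 : 𝔓.valuation L θ ≠ 0 := (Valuation.ne_zero_iff _).2 hθ0
      refine ⟨δ * (𝔓.valuation L θ ^ j)⁻¹, ?_⟩
      rw [mul_pow, ← hδ, map_mul, map_pow, hj, ← two_mul, inv_pow, ← pow_mul, mul_comm j 2,
        mul_inv_cancel_right₀ (pow_ne_zero _ h5)]
    · right
      intro 𝔓 h𝔓
      obtain ⟨δ, hδ⟩ := hi 𝔓 h𝔓
      have h5 : 𝔓.valuation L θ ≠ 0 := (Valuation.ne_zero_iff _).2 hθ0
      have h6 : (((z * θu : Lˣ)) : L) = z * θ := rfl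
      refine ⟨δ * (𝔓.valuation L θ ^ j)⁻¹, ?_⟩
      rw [h6, mul_pow, ← hδ, map_mul, map_mul, map_pow, hj, pow_succ, inv_pow, ← pow_mul,
        mul_comm j 2]
      have h7 := pow_ne_zero (2 * j) h5
      rw [mul_comm (𝔓.valuation L θ ^ (2 * j)), ← mul_assoc, mul_inv_cancel_right₀ h7])
  have hzero : ∀ m, κ m = 0 ↔ ∃ m', m = (2 : ℤ_[2]) • m' := by
    intro m
    rw [← kM_zero_iff hgd hfld]
    constructor
    · intro h0
      obtain ⟨z, h1, h3, -⟩ := hval m
      rw [h1, clX_zero]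
      refine sq_of_even h2' hbr fun v => ?_
      by_cases hv : (-c) ∈ v.asIdeal
      · obtain ⟨r, hr, hr'⟩ := root_of_mem hsep hc0 hcop hv
        have h5 : z ∈ E ⟨r, hRe r hr⟩ := (hκ m z h1 _).1 (by rw [h0]; rfl)
        exact h5 v hr'
      · exact h3 v hv
    · intro h0
      funext r
      have h1 : kM hgd hfld m = clX (1 : Lˣ) := by
        rw [h0]
        exact (clX_zero.2 (one_mem _)).symm
      exact (hκ m 1 h1 r).2 (one_mem _)
  -- finiteness
  have hfin : Finite (kM (B := k'[X]) hgd hfld).range := by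
    have h1 : ∀ x : (kM (B := k'[X]) hgd hfld).range, ∃ m, kM (B := k'[X]) hgd hfld m = x.1 :=
      fun x => x.2
    choose s hs using h1
    refine Finite.of_injective (β := (eG P G).rootSet k' → ZMod 2) (fun x => κ (s x)) ?_
    intro x y hxy
    have h3 : κ (s x - s y) = 0 := by rw [map_sub]; exact sub_eq_zero.2 hxy
    have h4 := (kM_zero_iff (B := k'[X]) hgd hfld _).2 ((hzero _).1 h3)
    rw [map_sub, hs, hs, sub_eq_zero] at h4
    exact Subtype.ext h4
  obtain ⟨hf1, hf2⟩ := fin_free hgd hfld hfin (fun m => ⟨m, rfl⟩)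
  -- the class of the point
  set c0 : K := algebraMap k[X] K (eG P G ^ ((P.natDegree - 1) / 2)) with hc0'
  have hinjK : Function.Injective (algebraMap k[X] K) := IsFractionRing.injective k[X] K
  have hc00 : c0 ≠ 0 := (map_ne_zero_iff _ hinjK).2 (pow_ne_zero _ h.e_ne)
  have hcoef : (fM P G K).coeff 0 = c0 ^ 2 := by
    have h1 : (model P G).coeff 0 = eG P G ^ (P.natDegree - 1) := by
      rw [coeff_zero_eq_eval_zero, model_eval_zero h.monic h.three]
    unfold fM
    rw [coeff_map, h1, hc0', ← map_pow, ← pow_mul]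
    obtain ⟨j, hj⟩ := h.odd
    have h3 : (P.natDegree - 1) / 2 * 2 = P.natDegree - 1 := by omega
    rw [h3]
  obtain ⟨R, hR0, hRS⟩ := exists_seq (F := F) hgd (ptCl 2 (fM P G K) (X, C c0))
  have hR0' : ∀ φ : Sep F →ₐ[K] Sep F, jm 2 (fM P G K) φ (R 0) = R 0 := fun φ => by
    rw [hR0]
    exact jm_fix hyps hgd φ _
  obtain ⟨hc1, hc2⟩ := cD_tc hgd k'[X] hR0' hRS
  refine ⟨hf1, hf2, κ, clsOf k'[X] (fM P G K) (cD (fM P G K) R), ⟨hzero, fun r => ?_⟩,
    ⟨ptCl 2 (fM P G K) (X, C c0), R,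
      Pool.Agent.Q45.TW.cl_class (ptCl_spec hyps hgd (P := (X, C c0)) irreducible_X), hR0, hRS, hc1,
      hc2, rfl⟩, fun T => rho_cD k'[X] hgd hF hR0' hRS T, ?_⟩
  · -- the value of the class of the point
    obtain ⟨t, ht, hteq⟩ := kum_D hgd hc00 hcoef hfld.rt hR0 hRS
    have hKN : algebraMap L (Sep F) (algebraMap K L c0) = algebraMap K (Sep F) c0 := by
      rw [IsScalarTower.algebraMap_apply K F L, ← IsScalarTower.algebraMap_apply F L (Sep F),
        ← IsScalarTower.algebraMap_apply K F (Sep F)]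
    have hc0L : algebraMap K L c0 ≠ 0 := (_root_.map_ne_zero _).2 hc00
    have hroots : ((fM P G K).map (algebraMap K (Sep F))).roots.prod =
        -(algebraMap K (Sep F) c0) ^ 2 := by
      haveI : IsSepClosed (Sep F) := IsSepClosure.sep_closed F
      have h1 := (splits_up hgd (Ω := Sep F)).coeff_zero_eq_prod_roots_of_monic (hgd.monic.map _)
      have h3 : Odd ((fM P G K).map (algebraMap K (Sep F))).natDegree := by
        rw [hgd.monic.natDegree_map]
        unfold fM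
        rw [(model_monic P G h.pos).natDegree_map, model_natDegree P G h.pos]
        exact h.odd
      rw [coeff_map, hcoef, h3.neg_one_pow, map_pow] at h1
      rw [h1]
      ring
    set w : L := -(θ ^ (fM P G K).natDegree / (algebraMap K L c0) ^ 2) with hw
    have hw0 : w ≠ 0 := by
      rw [hw]
      exact neg_ne_zero.2 (div_ne_zero (pow_ne_zero _ hθ0) (pow_ne_zero _ hc0L))
    have htw : t ^ 2 = algebraMap L (Sep F) w := by
      rw [hroots] at hteq
      rw [hw, map_neg, map_div₀, map_pow, map_pow, hKN, hfld.val, ← hteq]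
      have h4 : algebraMap K (Sep F) c0 ≠ 0 := (_root_.map_ne_zero _).2 hc00
      field_simp
    have hk : kM hgd hfld (clsOf k'[X] (fM P G K) (cD (fM P G K) R)) = clX (Units.mk0 w hw0) := by
      rw [clsOf_eq k'[X] (fM P G K) hc1 hc2, kM_cls]
      exact kz_eq hgd hfld _ ⟨t, ht, htw⟩
    have h5 : κ (clsOf k'[X] (fM P G K) (cD (fM P G K) R)) r ≠ 0 := by
      intro h0
      have h6 := (hκ _ _ hk r).1 h0
      obtain ⟨𝔓, h7, h8⟩ := hone r
      obtain ⟨δ, hδ⟩ := h6 𝔓 h7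
      rw [Units.val_mk0, hw, Valuation.map_neg, map_div₀, map_pow, map_pow, h8] at hδ
      obtain ⟨j, hj⟩ : Odd (fM P G K).natDegree := by
        unfold fM
        rw [(model_monic P G h.pos).natDegree_map, model_natDegree P G h.pos]
        exact h.odd
      have h9 : 𝔓.valuation L (algebraMap K L c0) ≠ 0 := (Valuation.ne_zero_iff _).2 hc0L
      refine not_pw ⟨δ * 𝔓.valuation L (algebraMap K L c0) * (exp (-1 : ℤ) ^ j)⁻¹, ?_⟩
      have h10 : (exp (-1 : ℤ) : WithZero (Multiplicative ℤ)) ^ j ≠ 0 := pow_ne_zero _ exp_ne_zero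
      rw [mul_pow, mul_pow, ← hδ, div_mul_cancel₀ _ (pow_ne_zero 2 h9), hj, pow_succ, inv_pow,
        ← pow_mul, mul_comm j 2, mul_comm (exp (-1 : ℤ) ^ (2 * j)),
        mul_inv_cancel_right₀ (pow_ne_zero _ exp_ne_zero)]
    have h6 : ∀ x : ZMod 2, x ≠ 0 → x = 1 := by decide
    exact h6 _ h5
  · -- the action
    intro T τ hT π hπ
    obtain ⟨ρ, e, hρ, he, hfp⟩ := exists_aut hQ L τ
    have hfe := hfix e hfp
    have hTe : ∀ x : k', T (cs k' F x) = algebraMap L (Sep F) (e (algebraMap F L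
        (algebraMap k'[X] F (C x)))) := by
      intro x
      have h1 : algebraMap F L (algebraMap k'[X] F (C x)) =
          algebraMap (AdjoinRoot Q) L (AdjoinRoot.mk Q (C (C x))) := by
        rw [← IsScalarTower.algebraMap_apply k'[X] F L,
          IsScalarTower.algebraMap_apply k'[X] (AdjoinRoot Q) L]
        rfl
      have h3 : algebraMap F L (algebraMap k'[X] F (C (τ x))) =
          algebraMap (AdjoinRoot Q) L (AdjoinRoot.mk Q (C (C (τ x)))) := by
        rw [← IsScalarTower.algebraMap_apply k'[X] F L,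
          IsScalarTower.algebraMap_apply k'[X] (AdjoinRoot Q) L]
        rfl
      rw [hT, h1, he, hρ, map_C]
      have h4 : tp τ (C x) = C (τ x) := by
        unfold tp
        rw [coe_mapRingHom, map_C]
        rfl
      rw [h4, ← h3, cs_apply, ← IsScalarTower.algebraMap_apply F L (Sep F)]
    intro m r
    obtain ⟨z, hz, -⟩ := hval m
    have h1 : kM hgd hfld (rho k'[X] hF (fM P G K) T m) = clX (Units.map (e : L →* L) z) := by
      rw [kM_rho k'[X] hgd hF hfld e hfe T hTe, hz, opX_cl]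
    have hbr' : ∀ s : k', AdjoinRoot.of Q (X - C (τ s)) = ρ (AdjoinRoot.of Q (X - C s)) := by
      intro s
      rw [← AdjoinRoot.mk_C, ← AdjoinRoot.mk_C, hρ, map_C]
      congr 2
      unfold tp
      rw [coe_mapRingHom, Polynomial.map_sub, map_X, map_C]
      rfl
    have hW' : ρ (AdjoinRoot.root Q - AdjoinRoot.of Q G') =
        AdjoinRoot.root Q - AdjoinRoot.of Q G' := by
      rw [← AdjoinRoot.mk_C, ← AdjoinRoot.mk_X, ← map_sub, hρ, Polynomial.map_sub, map_X, map_C,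
        ← hG', tp_map]
    have h3 : Units.map (e : L →* L) z ∈ E (π r) ↔ z ∈ E r := by
      constructor
      · intro h4 𝔓 h𝔓
        obtain ⟨𝔔, hq1, hq2⟩ := val_eqv ρ e he 𝔓
        rw [← hq2]
        refine h4 𝔔 ⟨?_, ?_⟩
        · rw [hπ, hbr', hq1]
          exact h𝔓.1
        · rw [← hW', hq1]
          exact h𝔓.2
      · intro h4 𝔓 h𝔓
        obtain ⟨𝔔, hq1, hq2⟩ := val_eqv ρ.symm e.symm (fun x => by
          rw [RingEquiv.symm_apply_eq, he, RingEquiv.apply_symm_apply]) 𝔓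
        have h5 := hq2 (e (z : L))
        rw [RingEquiv.symm_apply_apply] at h5
        have h6 : ((Units.map (e : L →* L) z : Lˣ) : L) = e (z : L) := rfl
        rw [h6, ← h5]
        refine h4 𝔔 ⟨?_, ?_⟩
        · have h7 := hq1 (AdjoinRoot.of Q (X - C (τ r)))
          rw [hbr', RingEquiv.symm_apply_apply, ← hbr', ← hπ] at h7
          exact h7.2 h𝔓.1
        · have h7 := hq1 (AdjoinRoot.root Q - AdjoinRoot.of Q G')
          rw [← hW', RingEquiv.symm_apply_apply, hW'] at h7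
          exact fun h8 => h𝔓.2 (h7.1 h8)
    have h4 : κ (rho k'[X] hF (fM P G K) T m) (π r) = 0 ↔ κ m r = 0 := by
      rw [hκ _ _ h1, hκ _ _ hz, h3]
    have h5 : ∀ x y : ZMod 2, (x = 0 ↔ y = 0) → x = y := by decide
    exact h5 _ _ h4

/-- **The embedding of `M / 2 M`.** -/
theorem em_core (h : Dm k' P G) (hcomp : ∀ p : k[X], algebraMap K F (algebraMap k[X] K p) =
      algebraMap k'[X] F (p.map (algebraMap k k'))) (hF : IsGeom k k' K F) :
    ∃ (_ : Module.Finite ℤ_[2] (SelT (F := F) 2 k'[X] (fM P G K) 2))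
      (_ : Module.Free ℤ_[2] (SelT (F := F) 2 k'[X] (fM P G K) 2))
      (κ : SelT (F := F) 2 k'[X] (fM P G K) 2 →+ ((eG P G).rootSet k' → ZMod 2))
      (D : SelT (F := F) 2 k'[X] (fM P G K) 2), Red κ D ∧ PtClass P G D ∧
      (∀ T, rho k'[X] hF (fM P G K) T D = D) ∧
      ∀ (T : Sep F ≃ₐ[K] Sep F) (τ : k' ≃ₐ[k] k'), (∀ x, T (cs k' F x) = cs k' F (τ x)) →
        ∀ π : Equiv.Perm ((eG P G).rootSet k'), (∀ r, ((π r : (eG P G).rootSet k') : k') = τ r) →
          Thr κ (rho k'[X] hF (fM P G K) T) π := by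
  obtain ⟨Q, hQ⟩ : ∃ Q, pm k' P = Q := ⟨_, rfl⟩
  have hbr : IsBr 2 Q := hQ ▸ h.br
  haveI := hbr.ded
  obtain ⟨c, hc0⟩ := exists_cof Q (G.map (algebraMap k k'))
  refine with_em (K := K) (F := F) h hQ hcomp (FractionRing (AdjoinRoot Q)) hc0 ?_
  intro _ _ _ _ _ _ _ _ _ _ hgd a hfld hff hfix
  exact em_in h hQ hc0 hgd hfld hff hfix hF

end main

end Pool.Agent.Q45.EM
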