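import Pool.Agent.Q45.EM.Cons
import Pool.Agent.Q45.GM.J.LIN7

/-!
# Multiplicities and roots of unity
-/

set_option autoImplicit false
set_option linter.all false

open Polynomial
open scoped Classical

namespace Pool.Agent.Q45.EM

section mult

/-- The multiplicity of the root `1` of `X ^ c - 1` modulo `2`. -/
theorem root_mult {c : ℕ} (hc : 0 < c) :
    rootMultiplicity (1 : ZMod 2) (X ^ c - 1 : (ZMod 2)[X]) = 2 ^ padicValNat 2 c := by
  obtain ⟨a, b, hb, rfl⟩ := Nat.exists_eq_pow_mul_and_not_dvd hc.ne' 2 (by norm_num)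
  have hb0 : b ≠ 0 := fun h => hb (h ▸ dvd_zero 2)
  have hpad : padicValNat 2 (2 ^ a * b) = a := by
    rw [padicValNat.mul (pow_ne_zero a two_ne_zero) hb0, padicValNat.prime_pow,
      padicValNat.eq_zero_of_not_dvd hb, add_zero]
  have h1 : (X ^ (2 ^ a * b) - 1 : (ZMod 2)[X]) = (X ^ b - 1) ^ (2 ^ a) := by
    rw [sub_pow_char_pow, one_pow, ← pow_mul, mul_comm b]
  have hbz : (b : ZMod 2) ≠ 0 := fun h => hb ((ZMod.natCast_eq_zero_iff b 2).1 h)
  have hsep : (X ^ b - 1 : (ZMod 2)[X]).Separable := X_pow_sub_one_separable_iff.2 hbz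
  have h2 : rootMultiplicity (1 : ZMod 2) (X ^ b - 1 : (ZMod 2)[X]) = 1 := by
    refine le_antisymm (rootMultiplicity_le_one_of_separable hsep 1) ?_
    refine (rootMultiplicity_pos hsep.ne_zero).2 ?_
    show eval 1 (X ^ b - 1 : (ZMod 2)[X]) = 0
    rw [eval_sub, eval_pow, eval_X, one_pow, eval_one, sub_self]
  rw [hpad, h1, ← count_roots, roots_pow, Multiset.count_nsmul, count_roots, h2, mul_one]

theorem mult_prod (s : Multiset ℕ) (hs : ∀ c ∈ s, 0 < c) :
    (s.map fun c : ℕ => (X ^ c - 1 : (ZMod 2)[X])).prod ≠ 0 ∧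
      rootMultiplicity (1 : ZMod 2) (s.map fun c : ℕ => (X ^ c - 1 : (ZMod 2)[X])).prod =
        (s.map fun c => 2 ^ padicValNat 2 c).sum := by
  induction s using Multiset.induction_on with
  | empty =>
    rw [Multiset.map_zero, Multiset.prod_zero, Multiset.map_zero, Multiset.sum_zero]
    exact ⟨one_ne_zero, rootMultiplicity_eq_zero (by
      show ¬ eval 1 (1 : (ZMod 2)[X]) = 0
      rw [eval_one]
      exact one_ne_zero)⟩
  | cons c s ih =>
    have hc := hs c (Multiset.mem_cons_self c s)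
    obtain ⟨h1, h2⟩ := ih fun d hd => hs d (Multiset.mem_cons_of_mem hd)
    rw [Multiset.map_cons, Multiset.prod_cons, Multiset.map_cons, Multiset.sum_cons]
    have h0 : (X ^ c - 1 : (ZMod 2)[X]) ≠ 0 := by
      have h3 := X_pow_sub_C_ne_zero hc (1 : ZMod 2)
      rwa [C_1] at h3
    exact ⟨mul_ne_zero h0 h1, by rw [rootMultiplicity_mul (mul_ne_zero h0 h1), root_mult hc, h2]⟩

/-- The bound for the multiplicity. -/
theorem mult_le {χ : ℤ_[2][X]} {s : Multiset ℕ} (hs : ∀ c ∈ s, 0 < c)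
    (h : (X - 1) * χ.map (PadicInt.toZMod (p := 2)) ∣
      (s.map fun c : ℕ => (X ^ c - 1 : (ZMod 2)[X])).prod) {m : ℕ} (hm : (X - 1) ^ m ∣ χ) :
    m + 1 ≤ (s.map fun c => 2 ^ padicValNat 2 c).sum := by
  obtain ⟨h1, h2⟩ := mult_prod s hs
  rw [← h2, le_rootMultiplicity_iff h1, C_1]
  refine dvd_trans ?_ h
  rw [pow_succ']
  refine mul_dvd_mul_left _ ?_
  have h3 := Polynomial.map_dvd (PadicInt.toZMod (p := 2)) hm
  rwa [Polynomial.map_pow, Polynomial.map_sub, map_X, Polynomial.map_one] at h3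

end mult

section pow

variable {R M : Type} [Fintype R] [AddCommGroup M] [Module ℤ_[2] M] {κ : M →+ (R → ZMod 2)} {D : M}
  {φ : M →ₗ[ℤ_[2]] M} {π : Equiv.Perm R}

theorem thr_pow (hT : Thr κ φ π) (n : ℕ) : Thr κ (φ ^ n) (π ^ n) := by
  induction n with
  | zero => exact fun m r => rfl
  | succ n ih =>
    intro m r
    rw [pow_succ', pow_succ', Module.End.mul_apply, Equiv.Perm.mul_apply, hT]
    exact ih m r

theorem order_dvd {s : Multiset ℕ} (hs : (Equiv.Perm.partition π).parts = s) : orderOf π ∣ s.lcm := by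
  rw [← Equiv.Perm.lcm_cycleType, Multiset.lcm_dvd]
  intro c hc
  refine Multiset.dvd_lcm ?_
  rw [← hs, Equiv.Perm.parts_partition]
  exact Multiset.mem_add.2 (Or.inl hc)

/-- The power is `1` modulo `2`. -/
theorem pow_cg (hr : Red κ D) (hT : Thr κ φ π) {s : Multiset ℕ}
    (hs : (Equiv.Perm.partition π).parts = s) (m : M) :
    ∃ m', (φ ^ s.lcm) m - m = (2 : ℤ_[2]) • m' := by
  rw [← hr.zero_iff, map_sub, sub_eq_zero]
  funext r
  have h1 := thr_pow hT s.lcm m r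
  rw [orderOf_dvd_iff_pow_eq_one.1 (order_dvd hs)] at h1
  exact h1

theorem mapQ_pow (hφ : ∀ u ∈ Submodule.span ℤ_[2] {D}, φ u ∈ Submodule.span ℤ_[2] {D}) (n : ℕ)
    (m : M) : (Submodule.mapQ _ (Submodule.span ℤ_[2] {D}) φ hφ ^ n) (Submodule.Quotient.mk m) =
      Submodule.Quotient.mk ((φ ^ n) m) := by
  induction n with
  | zero => rfl
  | succ n ih =>
    rw [pow_succ', pow_succ', Module.End.mul_apply, ih, Module.End.mul_apply]
    rfl

/-- The classes fixed by a power. -/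
theorem fixed_two [Module.Free ℤ_[2] (M ⧸ Submodule.span ℤ_[2] {D})] [Module.Finite ℤ_[2] M]
    (hr : Red κ D) (hT : Thr κ φ π) {s : Multiset ℕ} (hs : (Equiv.Perm.partition π).parts = s)
    (hφ : ∀ u ∈ Submodule.span ℤ_[2] {D}, φ u ∈ Submodule.span ℤ_[2] {D})
    (v : M ⧸ Submodule.span ℤ_[2] {D}) {j : ℕ} (hj : 0 < j)
    (h : (Submodule.mapQ _ (Submodule.span ℤ_[2] {D}) φ hφ ^ j) v = v) :
    (Submodule.mapQ _ (Submodule.span ℤ_[2] {D}) φ hφ ^ (2 * s.lcm)) v = v := by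
  set ψ := Submodule.mapQ _ (Submodule.span ℤ_[2] {D}) φ hφ with hψ
  have h1 : ∀ x, ∃ x', (ψ ^ s.lcm) x - x = (2 : ℤ_[2]) • x' := by
    intro x
    obtain ⟨m, rfl⟩ := Submodule.Quotient.mk_surjective _ x
    obtain ⟨m', hm'⟩ := pow_cg hr hT hs m
    refine ⟨Submodule.Quotient.mk m', ?_⟩
    rw [hψ, mapQ_pow, ← Submodule.Quotient.mk_sub, hm', Submodule.Quotient.mk_smul]
  have h2 : ∀ n : ℕ, ((ψ ^ j) ^ n) v = v := by
    intro n
    induction n with
    | zero => rfl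
    | succ n ih => rw [pow_succ, Module.End.mul_apply, h, ih]
  have h3 := Pool.Agent.Q45.GM.JLIN7.main _ (ψ ^ s.lcm) h1 v j hj (by
    rw [← pow_mul, mul_comm, pow_mul]
    exact h2 _)
  rw [mul_comm, pow_mul]
  exact h3

end pow

section int

variable {V : Type} [AddCommGroup V] [Module ℤ_[2] V] [Module.Free ℤ_[2] V]
  [Module.Finite ℤ_[2] V]

/-- Clearing denominators. -/
theorem clear (a : ℚ[X]) : ∃ (c : ℤ) (b : ℤ[X]), c ≠ 0 ∧ b.map (Int.castRingHom ℚ) = C (c : ℚ) * a := by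
  obtain ⟨⟨c, hc⟩, hb⟩ := IsLocalization.integerNormalization_map_to_map (nonZeroDivisors ℤ) a
  refine ⟨c, IsLocalization.integerNormalization (nonZeroDivisors ℤ) a, nonZeroDivisors.ne_zero hc, ?_⟩
  have h1 : algebraMap ℤ ℚ = Int.castRingHom ℚ := rfl
  rw [h1] at hb
  rw [hb]
  show c • a = C (c : ℚ) * a
  rw [← smul_eq_C_mul]
  exact (Int.cast_smul_eq_zsmul ℚ c a).symm

/-- The coefficients of the characteristic polynomial are rational. -/
def RatCh (ψ : V →ₗ[ℤ_[2]] V) (f : ℚ[X]) : Prop :=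
  f.map (algebraMap ℚ ℚ_[2]) = ψ.charpoly.map (algebraMap ℤ_[2] ℚ_[2])

/-- A vector fixed by a power gives a common factor. -/
theorem fixed_common {f : ℚ[X]} {ψ : V →ₗ[ℤ_[2]] V} (hf : RatCh ψ f)
    {n : ℕ} {v : V} (hv : v ≠ 0) (h : (ψ ^ n) v = v) : ¬ IsCoprime f (X ^ n - 1 : ℚ[X]) := by
  rintro ⟨a, b, hab⟩
  obtain ⟨c, a', hc, ha⟩ := clear a
  obtain ⟨d, b', hd, hb⟩ := clear b
  obtain ⟨g, f', hg, hf'⟩ := clear f
  have h1 : C d * a' * f' + C (c * g) * b' * (X ^ n - 1) = C (c * d * g) := by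
    apply Polynomial.map_injective (Int.castRingHom ℚ) Int.cast_injective
    rw [Polynomial.map_add, Polynomial.map_mul, Polynomial.map_mul, Polynomial.map_mul,
      Polynomial.map_mul, ha, hb, hf', map_C, map_C, map_C, Polynomial.map_sub, Polynomial.map_pow,
      map_X, Polynomial.map_one]
    simp only [eq_intCast, Int.cast_mul, C_mul]
    linear_combination (C (c : ℚ) * C (d : ℚ) * C (g : ℚ)) * hab
  have hff : f'.map (Int.castRingHom ℤ_[2]) = C (g : ℤ_[2]) * ψ.charpoly := by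
    apply Polynomial.map_injective (algebraMap ℤ_[2] ℚ_[2]) (IsFractionRing.injective ℤ_[2] ℚ_[2])
    have h2 := congrArg (Polynomial.map (algebraMap ℚ ℚ_[2])) hf'
    rw [Polynomial.map_map, Polynomial.map_mul, map_C, hf] at h2
    rw [Polynomial.map_map, Polynomial.map_mul, map_C]
    have h3 : (algebraMap ℚ ℚ_[2]).comp (Int.castRingHom ℚ) =
        (algebraMap ℤ_[2] ℚ_[2]).comp (Int.castRingHom ℤ_[2]) := RingHom.ext_int _ _
    rw [← h3, h2, map_intCast (algebraMap ℚ ℚ_[2]), map_intCast (algebraMap ℤ_[2] ℚ_[2])]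
  obtain ⟨e, he⟩ : ∃ e, e = c * d * g := ⟨_, rfl⟩
  rw [← he] at h1
  obtain ⟨A, hA⟩ : ∃ A, A = C d * a' := ⟨_, rfl⟩
  obtain ⟨B, hB⟩ : ∃ B, B = C (c * g) * b' := ⟨_, rfl⟩
  rw [← hA, ← hB] at h1
  have h2 := congrArg (Polynomial.map (Int.castRingHom ℤ_[2])) h1
  rw [Polynomial.map_add, Polynomial.map_mul, Polynomial.map_mul, hff, Polynomial.map_sub,
    Polynomial.map_pow, map_X, Polynomial.map_one, map_C (Int.castRingHom ℤ_[2]) (a := e)] at h2
  have h3 := congrArg (fun p : ℤ_[2][X] => aeval ψ p v) h2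
  have h4 : aeval ψ ψ.charpoly = 0 := LinearMap.aeval_self_charpoly ψ
  have h5 : aeval ψ (X ^ n - 1 : ℤ_[2][X]) v = 0 := by
    rw [map_sub, map_pow, aeval_X, map_one, LinearMap.sub_apply, h]
    exact sub_self v
  simp only [map_add, map_mul, LinearMap.add_apply, Module.End.mul_apply, h4, LinearMap.zero_apply,
    map_zero, h5, add_zero] at h3
  rw [aeval_C, Module.algebraMap_end_apply] at h3
  have h6 : (Int.castRingHom ℤ_[2]) e ≠ 0 := by
    rw [eq_intCast, he]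
    exact Int.cast_ne_zero.2 (mul_ne_zero (mul_ne_zero hc hd) hg)
  exact (smul_ne_zero h6 hv) h3.symm

end int

end Pool.Agent.Q45.EM
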