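import Pool.Agent.Q45.EM.Mul
import Pool.Agent.Q45.GM.Cyc

/-!
# Cyclotomic factors
-/

set_option autoImplicit false
set_option linter.all false

open Polynomial
open scoped Classical

namespace Pool.Agent.Q45.EM

section cyc

/-- A common factor with `X ^ n - 1` gives a cyclotomic factor. -/
theorem cyc_dvd {f : ℚ[X]} {n : ℕ} (hn : 0 < n) (h : ¬ IsCoprime f (X ^ n - 1 : ℚ[X])) :
    ∃ e, e ∣ n ∧ cyclotomic e ℚ ∣ f := by
  by_contra hcon
  push Not at hcon
  apply h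
  rw [← prod_cyclotomic_eq_X_pow_sub_one hn]
  refine IsCoprime.prod_right fun e he => ?_
  have hen := Nat.dvd_of_mem_divisors he
  have he0 : 0 < e := Nat.pos_of_dvd_of_pos hen hn
  exact ((cyclotomic.irreducible_rat he0).coprime_iff_not_dvd.2 fun h1 => hcon e hen h1).symm

theorem not_two_dvd {χ : ℤ_[2][X]} {N : ℕ} (hN : Odd N)
    (h : (X - 1) * χ.map (PadicInt.toZMod (p := 2)) ∣ (X ^ N - 1 : (ZMod 2)[X])) :
    ¬ (X - 1 : (ZMod 2)[X]) ∣ χ.map (PadicInt.toZMod (p := 2)) := by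
  intro h1
  have h0 : (X ^ N - 1 : (ZMod 2)[X]) ≠ 0 := by
    have h3 := X_pow_sub_C_ne_zero hN.pos (1 : ZMod 2)
    rwa [C_1] at h3
  have h2 : (X - 1 : (ZMod 2)[X]) ^ 2 ∣ X ^ N - 1 := by
    rw [pow_two]
    exact (mul_dvd_mul_left _ h1).trans h
  have h3 := (le_rootMultiplicity_iff (a := (1 : ZMod 2)) (n := 2) h0).2 (by rw [C_1]; exact h2)
  rw [root_mult hN.pos, padicValNat.eq_zero_of_not_dvd (by
    intro h4
    exact (Nat.not_even_iff_odd.2 hN) (even_iff_two_dvd.2 h4)), pow_zero] at h3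
  omega

/-- For one cycle of odd length the cyclotomic factor is not trivial. -/
theorem cyc_big {χ : ℤ_[2][X]} {N : ℕ} (hN : Odd N)
    (h : (X - 1) * χ.map (PadicInt.toZMod (p := 2)) ∣
      (X ^ N - 1 : (ZMod 2)[X])) {e : ℕ} (he : e ∣ 2 * N) (hef : cyclotomic e ℤ_[2] ∣ χ) : 2 < e := by
  have he0 : 0 < e := Nat.pos_of_dvd_of_pos he (Nat.mul_pos two_pos hN.pos)
  by_contra hcon
  have h12 : e = 1 ∨ e = 2 := by omega
  have hnd := not_two_dvd hN h
  apply hnd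
  have h1 := Polynomial.map_dvd (PadicInt.toZMod (p := 2)) hef
  rw [map_cyclotomic] at h1
  rcases h12 with rfl | rfl
  · rwa [cyclotomic_one] at h1
  · rw [cyclotomic_two] at h1
    have h2 : (X - 1 : (ZMod 2)[X]) = X + 1 := by
      have h3 : (2 : (ZMod 2)[X]) = 0 := by
        rw [← C_ofNat, show (2 : ZMod 2) = 0 from rfl, C_0]
      linear_combination -h3
    rw [h2]
    exact h1

theorem cyc_two_mul {N : ℕ} (hN : N.Prime) (hodd : Odd N) :
    (cyclotomic (2 * N) ℤ).comp (-X) = cyclotomic N ℤ := by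
  haveI : Fact N.Prime := ⟨hN⟩
  have hnd : ¬ N ∣ 2 := by
    intro h
    have h1 := (Nat.prime_dvd_prime_iff_eq hN Nat.prime_two).1 h
    rw [h1] at hodd
    exact absurd hodd (by decide)
  have h1 := cyclotomic_expand_eq_cyclotomic_mul hN hnd ℤ
  rw [cyclotomic_two, map_add, expand_X, map_one] at h1
  have h2 := congrArg (fun p : ℤ[X] => p.comp (-X)) h1
  simp only [add_comp, mul_comp, pow_comp, X_comp, one_comp] at h2
  rw [hodd.neg_pow] at h2
  have h3 : (X ^ N - 1 : ℤ[X]) = cyclotomic N ℤ * (X - 1) :=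
    (cyclotomic_prime_mul_X_sub_one ℤ N).symm
  have h4 : (X - 1 : ℤ[X]) ≠ 0 := by
    have h7 := X_sub_C_ne_zero (1 : ℤ)
    rwa [C_1] at h7
  apply mul_right_cancel₀ h4
  rw [← h3]
  linear_combination h2

theorem div_two_mul {N e : ℕ} (hN : N.Prime) (h3 : 3 ≤ N) (he : e ∣ 2 * N) (h2 : 2 < e) :
    e = N ∨ e = 2 * N := by
  rcases Nat.even_or_odd e with h | h
  · obtain ⟨c, hc⟩ := even_iff_two_dvd.1 h
    subst hc
    have h4 : c ∣ N := Nat.dvd_of_mul_dvd_mul_left two_pos he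
    rcases (Nat.dvd_prime hN).1 h4 with h5 | h5
    · omega
    · exact Or.inr (by rw [h5])
  · have h4 : e ∣ N := by
      have h5 : Nat.Coprime e 2 := Nat.coprime_two_right.2 h
      exact h5.dvd_of_dvd_mul_left he
    rcases (Nat.dvd_prime hN).1 h4 with h5 | h5
    · omega
    · exact Or.inl h5

end cyc

section one

variable {V : Type} [AddCommGroup V] [Module ℤ_[2] V] [Module.Free ℤ_[2] V]
  [Module.Finite ℤ_[2] V] {ψ : V →ₗ[ℤ_[2]] V}

/-- The cyclotomic polynomial which divides the characteristic polynomial. -/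
theorem one_cyc {N : ℕ} (hN : Odd N)
    (hmod : (X - 1) * ψ.charpoly.map (PadicInt.toZMod (p := 2)) ∣ (X ^ N - 1 : (ZMod 2)[X]))
    {f : ℚ[X]} (hf : RatCh ψ f) {v : V} (hv : v ≠ 0) (h : (ψ ^ (2 * N)) v = v) :
    ∃ e, e ∣ 2 * N ∧ 2 < e ∧ cyclotomic e ℤ_[2] ∣ ψ.charpoly := by
  obtain ⟨e, he, hef⟩ := cyc_dvd (Nat.mul_pos two_pos hN.pos) (fixed_common hf hv h)
  have h1 := Polynomial.map_dvd (algebraMap ℚ ℚ_[2]) hef
  rw [hf, map_cyclotomic, ← map_cyclotomic e (algebraMap ℤ_[2] ℚ_[2])] at h1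
  have h2 := (Polynomial.map_dvd_map _ (IsFractionRing.injective ℤ_[2] ℚ_[2])
    (cyclotomic.monic e ℤ_[2])).1 h1
  exact ⟨e, he, cyc_big hN hmod he h2, h2⟩

theorem deg_le {N : ℕ} (hN : 0 < N)
    (hmod : (X - 1) * ψ.charpoly.map (PadicInt.toZMod (p := 2)) ∣ (X ^ N - 1 : (ZMod 2)[X])) :
    ψ.charpoly.natDegree + 1 ≤ N := by
  have h0 : (X ^ N - 1 : (ZMod 2)[X]) ≠ 0 := by
    have h3 := X_pow_sub_C_ne_zero hN (1 : ZMod 2)
    rwa [C_1] at h3
  have h1 := natDegree_le_of_dvd hmod h0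
  have h2 : (X ^ N - 1 : (ZMod 2)[X]).natDegree = N := by
    have h3 := natDegree_X_pow_sub_C (n := N) (r := (1 : ZMod 2))
    rwa [C_1] at h3
  have h3 : (X - 1 : (ZMod 2)[X]).Monic := by
    have h4 := monic_X_sub_C (1 : ZMod 2)
    rwa [C_1] at h4
  have h4 : (X - 1 : (ZMod 2)[X]).natDegree = 1 := by
    have h9 := natDegree_X_sub_C (1 : ZMod 2)
    rwa [C_1] at h9
  rw [h2, h3.natDegree_mul ((LinearMap.charpoly_monic ψ).map _), h4,
    (LinearMap.charpoly_monic ψ).natDegree_map] at h1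
  omega

/-- The dichotomy for one cycle of prime length. -/
theorem prime_cyc {N : ℕ} (hN : N.Prime) (h3 : 3 ≤ N)
    (hmod : (X - 1) * ψ.charpoly.map (PadicInt.toZMod (p := 2)) ∣ (X ^ N - 1 : (ZMod 2)[X]))
    {f : ℚ[X]} (hf : RatCh ψ f) {v : V} (hv : v ≠ 0) (h : (ψ ^ (2 * N)) v = v) :
    (ψ.charpoly = cyclotomic N ℤ_[2] ∨ ψ.charpoly.comp (-X) = cyclotomic N ℤ_[2]) ∧
      (LinearMap.trace ℤ_[2] V ψ = -1 ∨ LinearMap.trace ℤ_[2] V ψ = 1) := by
  have hodd : Odd N := hN.odd_of_ne_two (by omega)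
  have hm : ψ.charpoly.Monic := LinearMap.charpoly_monic ψ
  obtain ⟨e, he, h2, hef⟩ := one_cyc hodd hmod hf hv h
  have hd := deg_le hN.pos hmod
  have hcN2 : (cyclotomic N ℤ_[2]).natDegree = N - 1 := by
    rw [natDegree_cyclotomic, Nat.totient_prime hN]
  have hcoef : (cyclotomic N ℤ_[2]).coeff (N - 1 - 1) = 1 := by
    haveI : Fact N.Prime := ⟨hN⟩
    rw [cyclotomic_prime, finset_sum_coeff]
    rw [Finset.sum_eq_single (N - 1 - 1) (fun b _ hb => by
      rw [coeff_X_pow, if_neg (Ne.symm hb)]) (fun h5 => absurd (Finset.mem_range.2 (by omega)) h5),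
      coeff_X_pow, if_pos rfl]
  rcases div_two_mul hN h3 he h2 with rfl | rfl
  · have h6 : ψ.charpoly = cyclotomic e ℤ_[2] :=
      eq_of_monic_of_dvd_of_natDegree_le (cyclotomic.monic e _) hm hef (by rw [hcN2]; omega)
    refine ⟨Or.inl h6, Or.inl ?_⟩
    rw [Pool.Agent.Q45.GM.trace_eq_coeff, h6, nextCoeff_of_natDegree_pos (by rw [hcN2]; omega), hcN2,
      hcoef]
  · have hc2 := cyc_two_mul hN hodd
    have hc3 : (cyclotomic (2 * N) ℤ_[2]).natDegree = N - 1 := by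
      rw [natDegree_cyclotomic, Nat.totient_mul (Nat.coprime_two_left.2 hodd), Nat.totient_two,
        one_mul, Nat.totient_prime hN]
    have h5 : ψ.charpoly = cyclotomic (2 * N) ℤ_[2] :=
      eq_of_monic_of_dvd_of_natDegree_le (cyclotomic.monic _ _) hm hef (by rw [hc3]; omega)
    have h6 : ψ.charpoly.comp (-X) = cyclotomic N ℤ_[2] := by
      rw [h5, ← map_cyclotomic_int N, ← hc2, map_comp, Polynomial.map_neg, map_X, map_cyclotomic_int]
    have h7 : ψ.charpoly = (cyclotomic N ℤ_[2]).comp (-X) := by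
      rw [← h6, comp_neg_X_comp_neg_X]
    refine ⟨Or.inr h6, Or.inr ?_⟩
    have h8 : (-X : ℤ_[2][X]) = C (-1) * X := by rw [C_neg, C_1, neg_one_mul]
    have h9 : ((cyclotomic N ℤ_[2]).comp (-X)).natDegree = N - 1 := by
      rw [natDegree_comp, natDegree_neg, natDegree_X, mul_one, hcN2]
    have h10 : Odd (N - 1 - 1) := by
      obtain ⟨j, hj⟩ := hodd
      exact ⟨j - 1, by omega⟩
    rw [Pool.Agent.Q45.GM.trace_eq_coeff, h7, nextCoeff_of_natDegree_pos (by rw [h9]; omega), h9, h8,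
      comp_C_mul_X_coeff, hcoef, one_mul, h10.neg_one_pow, neg_neg]

end one

end Pool.Agent.Q45.EM
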