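import Pool.Agent.Q45.EM.Mul2

/-!
# Extensions of degree prime to the length of the cycle
-/

set_option autoImplicit false
set_option linter.all false

open Polynomial
open scoped Classical

namespace Pool.Agent.Q45.EM

section one

variable {V : Type} [AddCommGroup V] [Module ℤ_[2] V] [Module.Free ℤ_[2] V]
  [Module.Finite ℤ_[2] V] {ψ : V →ₗ[ℤ_[2]] V}

theorem aeval_eig {c : ℤ_[2]} {u : V} (h : ψ u = c • u) (p : ℤ_[2][X]) :
    aeval ψ p u = p.eval c • u := by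
  induction p using Polynomial.induction_on' with
  | add p q hp hq => rw [map_add, LinearMap.add_apply, hp, hq, eval_add, add_smul]
  | monomial n a =>
    have h1 : ∀ n : ℕ, (ψ ^ n) u = c ^ n • u := by
      intro n
      induction n with
      | zero => rw [pow_zero, pow_zero, one_smul]; rfl
      | succ n ih =>
        rw [pow_succ', Module.End.mul_apply, ih, map_smul, h, smul_smul, ← pow_succ]
    rw [aeval_monomial, Module.End.mul_apply, h1, Module.algebraMap_end_apply, eval_monomial,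
      smul_smul]

/-- The eigenvalues are not `1` or `-1`. -/
theorem no_eig {N : ℕ} (hN : Odd N)
    (hmod : (X - 1) * ψ.charpoly.map (PadicInt.toZMod (p := 2)) ∣ (X ^ N - 1 : (ZMod 2)[X]))
    {c : ℤ_[2]} (hc : PadicInt.toZMod c = 1) {u : V} (h : ψ u = c • u) : u = 0 := by
  by_contra hu
  have h1 := aeval_eig h ψ.charpoly
  rw [LinearMap.aeval_self_charpoly, LinearMap.zero_apply] at h1
  have h2 : ψ.charpoly.eval c = 0 := by
    by_contra h3
    exact (smul_ne_zero h3 hu) h1.symm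
  apply not_two_dvd hN hmod
  have h3 : (ψ.charpoly.map (PadicInt.toZMod (p := 2))).eval 1 = 0 := by
    rw [← hc, eval_map, eval₂_hom, h2, map_zero]
  have h4 := dvd_iff_isRoot.2 h3
  rwa [C_1] at h4

/-- No vector is fixed by a power prime to the length of the cycle. -/
theorem no_fix {N : ℕ} (hN : Odd N)
    (hmod : (X - 1) * ψ.charpoly.map (PadicInt.toZMod (p := 2)) ∣ (X ^ N - 1 : (ZMod 2)[X]))
    {v : V} {j : ℕ} (hj : j.Coprime N) (h : (ψ ^ j) v = v) (h2N : (ψ ^ (2 * N)) v = v) : v = 0 := by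
  -- the exponent `2`
  have hmul : ∀ {a b : ℕ}, (ψ ^ a) v = v → (ψ ^ (a * b)) v = v := by
    intro a b ha
    induction b with
    | zero => rfl
    | succ b ih => rw [Nat.mul_succ, pow_add, Module.End.mul_apply, ha, ih]
  have hgcd : ∀ a b : ℕ, (ψ ^ a) v = v → (ψ ^ b) v = v → (ψ ^ (Nat.gcd a b)) v = v := by
    intro a b
    induction a, b using Nat.gcd.induction with
    | H0 b =>
      intro _ hb
      rw [Nat.gcd_zero_left]
      exact hb
    | H1 a b ha ih =>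
      intro h1 h2
      rw [Nat.gcd_rec]
      refine ih ?_ h1
      have h3 : (ψ ^ (b % a + a * (b / a))) v = v := by rw [Nat.mod_add_div]; exact h2
      rw [pow_add, Module.End.mul_apply, hmul h1] at h3
      exact h3
  have h1 := hgcd j (2 * N) h h2N
  have h2 : (ψ ^ 2) v = v := by
    have h3 : Nat.gcd j (2 * N) ∣ 2 := by
      have h4 : (Nat.gcd j (2 * N)).Coprime N := hj.coprime_dvd_left (Nat.gcd_dvd_left _ _)
      exact h4.dvd_of_dvd_mul_right (Nat.gcd_dvd_right _ _)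
    obtain ⟨b, hb⟩ := h3
    have h5 := hmul (b := b) h1
    rwa [← hb] at h5
  have h3 : ψ (ψ v) = v := h2
  have h4 : ψ v + v = 0 := by
    refine no_eig hN hmod (c := 1) (map_one _) ?_
    rw [map_add, h3, one_smul, add_comm]
  refine no_eig hN hmod (c := -1) ?_ ?_
  · rw [map_neg, map_one]
    rfl
  · rw [neg_one_smul]
    exact eq_neg_of_add_eq_zero_left h4

end one

section abs

variable {R M : Type} [Fintype R] [AddCommGroup M] [Module ℤ_[2] M] [Module.Free ℤ_[2] M]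
  [Module.Finite ℤ_[2] M] {κ : M →+ (R → ZMod 2)} {D : M} {φ : M →ₗ[ℤ_[2]] M} {π : Equiv.Perm R}

theorem parts_pos {s : Multiset ℕ} (hs : (Equiv.Perm.partition π).parts = s) : ∀ c ∈ s, 0 < c := by
  intro c hc
  rw [← hs] at hc
  exact (Equiv.Perm.partition π).parts_pos hc

/-- All the conclusions for one automorphism. -/
theorem all_one [Nonempty R] (hr : Red κ D) (hD : φ D = D) (hT : Thr κ φ π) {s : Multiset ℕ}
    (hs : (Equiv.Perm.partition π).parts = s)
    (hφ : ∀ u ∈ Submodule.span ℤ_[2] {D}, φ u ∈ Submodule.span ℤ_[2] {D})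
    [Module.Free ℤ_[2] (M ⧸ Submodule.span ℤ_[2] {D})]
    {ψ : (M ⧸ Submodule.span ℤ_[2] {D}) →ₗ[ℤ_[2]] (M ⧸ Submodule.span ℤ_[2] {D})}
    (hψ : ψ = Submodule.mapQ _ (Submodule.span ℤ_[2] {D}) φ hφ) :
    (X - 1) * ψ.charpoly.map (PadicInt.toZMod (p := 2)) ∣
      (s.map fun c : ℕ => (X ^ c - 1 : (ZMod 2)[X])).prod ∧
    (∀ m : ℕ, (X - 1) ^ m ∣ ψ.charpoly → m + 1 ≤ (s.map fun c => 2 ^ padicValNat 2 c).sum) ∧
    (∀ (v : M ⧸ Submodule.span ℤ_[2] {D}) (j : ℕ), 0 < j → (ψ ^ j) v = v →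
      (ψ ^ (2 * s.lcm)) v = v) ∧
    ∀ f : ℚ[X], RatCh ψ f → ∀ v : M ⧸ Submodule.span ℤ_[2] {D}, v ≠ 0 → ∀ j : ℕ, 0 < j →
      (ψ ^ j) v = v → ∃ e, e ∣ 2 * s.lcm ∧ cyclotomic e ℤ_[2] ∣ ψ.charpoly := by
  obtain ⟨_, h1⟩ := Pool.Agent.Q237.EM.QCH.main R M κ D φ π hφ hr hD hT
  rw [hs, ← hψ] at h1
  have h3 : ∀ (v : M ⧸ Submodule.span ℤ_[2] {D}) (j : ℕ), 0 < j → (ψ ^ j) v = v →
      (ψ ^ (2 * s.lcm)) v = v := by
    intro v j hj h2
    rw [hψ] at h2 ⊢
    exact fixed_two hr hT hs hφ v hj h2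
  refine ⟨h1, fun m hm => mult_le (parts_pos hs) h1 hm, h3, fun f hf v hv j hj h4 => ?_⟩
  have hL : 0 < 2 * s.lcm := by
    refine Nat.mul_pos two_pos (Nat.pos_of_ne_zero fun h0 => ?_)
    obtain ⟨c, hc, hc0⟩ : ∃ c ∈ s, c = 0 := ⟨0, (Multiset.lcm_eq_zero_iff s).1 h0, rfl⟩
    exact absurd (parts_pos hs c hc) (by omega)
  obtain ⟨e, he, hef⟩ := cyc_dvd hL (fixed_common hf hv (h3 v j hj h4))
  have h5 := Polynomial.map_dvd (algebraMap ℚ ℚ_[2]) hef
  rw [hf, map_cyclotomic, ← map_cyclotomic e (algebraMap ℤ_[2] ℚ_[2])] at h5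
  exact ⟨e, he, (Polynomial.map_dvd_map _ (IsFractionRing.injective ℤ_[2] ℚ_[2])
    (cyclotomic.monic e ℤ_[2])).1 h5⟩

end abs

end Pool.Agent.Q45.EM
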