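import Pool.Agent.Q45.EM.Stm
import Pool.Agent.Q45.OI.Stm

/-!
# Project EM: the symmetric group on the functions with sum zero is large

Each statement has a proof in its docstring.
-/

set_option autoImplicit false
set_option linter.all false

open Polynomial
open scoped Classical

namespace Pool.Agent.Q45.EM

/-- The functions with sum zero. -/
def sumZero (R : Type) [Fintype R] : Submodule (ZMod 2) (R → ZMod 2) where
  carrier := {f | ∑ r, f r = 0}
  add_mem' := by
    intro f g hf hg
    have h1 : ∑ r, f r = 0 := hf
    have h2 : ∑ r, g r = 0 := hg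
    show ∑ r, (f r + g r) = 0
    rw [Finset.sum_add_distrib, h1, h2, add_zero]
  zero_mem' := by
    show ∑ r : R, (0 : ZMod 2) = 0
    exact Finset.sum_const_zero
  smul_mem' := by
    intro c f hf
    have h1 : ∑ r, f r = 0 := hf
    show ∑ r, c * f r = 0
    rw [← Finset.mul_sum, h1, mul_zero]

/-- JOB LSN. The symmetric group on an odd number `N ≥ 5` of letters is large on the functions with sum
zero (`IsLarge` is in OI/Stm).

PROOF. Write `V = sumZero R`, `v_ij = e_i + e_j` (`i ≠ j`); these span `V`. For every permutation `π` there is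
`g_π ∈ Γ` which moves `v` to `v ∘ π⁻¹`, and `g_π` is unique (it is determined by its values).
(irr) Let `u ∈ U` be not zero. It is not the constant function one, which has sum `N = 1`. So `u i ≠ u j` for
some `i, j` and `u + (i j) u = v_ij ∈ U`; by permutations all `v_ab ∈ U`, so `U = ⊤`.
(scal) `Γ'` has index one or two in `Γ`, so it contains the squares of the elements of `Γ`
(`Subgroup.relIndex`, index two subgroups: `Subgroup.sq_mem_of_index_two` or similar), in particular all
3-cycles (a 3-cycle is the square of its inverse). Let `A` commute with all 3-cycles. Let `i ≠ j`. The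
3-cycles of the `N - 2 ≥ 3` other letters fix `v_ij`, so `A v_ij` is constant `= c` on the other letters.
The permutation `(i j)(a b)`, `a, b` two other letters, is a product of two 3-cycles and fixes `v_ij`,
so `A v_ij` has the same value `a` at `i` and `j`. The sum is zero: `2 a + (N - 2) c = c = 0`. So
`A v_ij = a_ij v_ij`. From `v_ij + v_jk = v_ik` we get `a_ij = a_ik` (value at `i`), so all `a_ij` are
equal and `A = 0` or `A = 1`.
(skew) Let `β` be an invariant form. `β(v_ij, v_jk) = c` and `β(v_ij, v_kl) = d` for different letters, with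
`c, d` independent of the letters (permutations). `v_jk + v_kl = v_jl` gives `d = 0` (`N ≥ 4`), and `c = 1`
because `β` is not degenerate. So `β` is the dot product: `β(v_ij, w) = w i + w j`. Let `g` be the
transposition `(i j)`: `g x = x + β(x, v_ij) v_ij`. For `A` skew (`β(A x, x) = 0`, so `β(A x, y) = β(x, A y)`,
characteristic two), `g A g⁻¹ + A` is `x ↦ β(x, A v) v + β(x, v) A v`, `v = v_ij`; call `[v, w]` the
endomorphism `x ↦ β(x, w) v + β(x, v) w`, it is bilinear and alternating in `v, w`, and
`g [v, w] g⁻¹ = [g v, g w]`. If `A v ∈ {0, v}` for all `v = v_ij` then `A` is `0` or `1` as in (scal).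
Otherwise let `A ∈ U`, `v = v_ij` and `w = A v ≠ 0, v`. `β(w, v) = 0` says `w i = w j`; replace `w` by
`w + v` if necessary to get `w i = w j = 0`, `w ≠ 0`, `[v, w] ∈ U`. The support of `w` is
contained in the `N - 2` other letters; it is not empty and it is even, so it is not everything (`N - 2` is
odd). With `a` in it and `b` another letter not in it: `[v, w] + (a b) [v, w] = [v_ij, v_ab] ∈ U`. So
`[v_ij, v_ab] ∈ U` for all different letters `i, j, a, b`. The `[v, w]`, `v, w ∈ V`, span the space of all skew
endomorphisms (`β` is not degenerate: in a basis `b_i` with dual basis, skew endomorphisms correspond to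
alternating matrices), so they are spanned by the `[v_ij, v_ab]` with different letters and the
`t_ijk = [v_ij, v_jk]`; modulo `U` one has `t_ijk + [v_ij, v_kl] = t_ijl`, so `t_ijk = t_ijl`, `t_ijk` is
symmetric in its indices and all the `t` are equal modulo `U`: the codimension of `U` is at most one.
(For instance fix `t = t_123` and show that every skew endomorphism is in `U + span {t}`.) -/
def S_LSN : Prop :=
  ∀ (R : Type) [Fintype R] (Γ : Subgroup (sumZero R ≃ₗ[ZMod 2] sumZero R)),
    Odd (Fintype.card R) → 5 ≤ Fintype.card R →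
    (∀ π : Equiv.Perm R, ∃ g ∈ Γ, ∀ (v : sumZero R) (r : R),
      (g v : R → ZMod 2) (π r) = (v : R → ZMod 2) r) → Pool.Agent.Q45.OI.IsLarge Γ

/-- JOB KPR. The reduction of `M / ℤ_2 D` for an odd number of letters.

PROOF. `κ' (m) = κ m + (sum of the values of κ m) • 1`. The sum of its values is `s + N s = 0`, `κ' D = 0`
(`1 + N = 0`), so it is well defined on `M ⧸ span {D}` (`QuotientAddGroup.lift`, or `Submodule.liftQ` after
`AddMonoidHom.toZModLinearMap`-like arguments: the kernel of `κ` contains `2 M`, so `κ (x • D) = κ (x̄ • D)`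
where `x̄ ∈ {0, 1}` is `x` modulo two). If `κ' m = 0` then `κ m = s • 1 = κ (s • D)`, `m - s • D ∈ 2 M`. -/
def S_KPR : Prop :=
  ∀ (R M : Type) [Fintype R] [AddCommGroup M] [Module ℤ_[2] M] (κ : M →+ (R → ZMod 2)) (D : M),
    Red κ D → Odd (Fintype.card R) →
      ∃ κ' : (M ⧸ Submodule.span ℤ_[2] {D}) →+ sumZero R,
        (∀ m r, (κ' (Submodule.Quotient.mk m) : R → ZMod 2) r = κ m r + ∑ s, κ m s) ∧
        (∀ x, κ' x = 0 ↔ ∃ y, x = (2 : ℤ_[2]) • y) ∧
        ∀ (A : M →ₗ[ℤ_[2]] M) (π : Equiv.Perm R)
          (hA : ∀ u ∈ Submodule.span ℤ_[2] {D}, A u ∈ Submodule.span ℤ_[2] {D}), Thr κ A π →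
          ∀ x r, (κ' (Submodule.mapQ _ (Submodule.span ℤ_[2] {D}) A hA x) : R → ZMod 2) (π r) =
            (κ' x : R → ZMod 2) r

end Pool.Agent.Q45.EM
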