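import Pool.Agent.Q45.EM.Cons
import Pool.Agent.Q45.EM.StmB
import Pool.Agent.Q68.EM.Kpr
import Pool.Agent.Q45.GM.Dich3

/-!
# An automorphism with one cycle of prime length
-/

set_option autoImplicit false
set_option linter.all false

open Polynomial
open scoped Classical

namespace Pool.Agent.Q45.EM

section op

variable {R : Type} [Fintype R] (π : Equiv.Perm R)

/-- The sum of the values. -/
def smL (R : Type) [Fintype R] : (R → ZMod 2) →ₗ[ZMod 2] ZMod 2 where
  toFun f := ∑ r, f r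
  map_add' f g := Finset.sum_add_distrib
  map_smul' c f := by
    show ∑ r, c * f r = c * ∑ r, f r
    rw [Finset.mul_sum]

theorem sumZero_ker : sumZero R = LinearMap.ker (smL R) := by
  ext f
  rfl

/-- The permutation operator. -/
noncomputable def opP : (R → ZMod 2) →ₗ[ZMod 2] (R → ZMod 2) :=
  LinearMap.funLeft (ZMod 2) (ZMod 2) ((π⁻¹ : Equiv.Perm R) : R → R)

theorem opP_apply (f : R → ZMod 2) (r : R) : opP π f (π r) = f r := by
  have h8 : (π⁻¹ : Equiv.Perm R) (π r) = r := π.symm_apply_apply r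
  exact congrArg f h8

theorem opP_sum (f : R → ZMod 2) : smL R (opP π f) = smL R f :=
  Equiv.sum_comp (π⁻¹ : Equiv.Perm R) f

theorem opP_mem : ∀ f ∈ sumZero R, opP π f ∈ sumZero R := by
  intro f hf
  rw [sumZero_ker, LinearMap.mem_ker] at hf ⊢
  rw [opP_sum, hf]

/-- The operator on the functions with sum zero. -/
noncomputable def opE : sumZero R →ₗ[ZMod 2] sumZero R := (opP π).restrict (opP_mem π)

theorem opE_apply (v : sumZero R) (r : R) :
    (opE π v : R → ZMod 2) (π r) = (v : R → ZMod 2) r := opP_apply π _ r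

theorem opE_charpoly [Nonempty R] : (opE π).charpoly * (X - 1) =
    ((Equiv.Perm.partition π).parts.map fun c : ℕ => (X ^ c - 1 : (ZMod 2)[X])).prod := by
  have h7 : (Equiv.Perm.partition (π⁻¹ : Equiv.Perm R)).parts = (Equiv.Perm.partition π).parts := by
    rw [Equiv.Perm.parts_partition, Equiv.Perm.parts_partition, Equiv.Perm.cycleType_inv,
      Equiv.Perm.support_inv]
  rw [← h7, ← Pool.Agent.Q237.EM.CHP.charpoly_funLeft]
  have h1 := Pool.Agent.Q237.EM.QCH.charpoly_mul (sumZero R) (opP π) (opP_mem π)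
  have h2 : (Submodule.mapQ (sumZero R) (sumZero R) (opP π) (opP_mem π)) = 1 := by
    refine LinearMap.ext fun x => ?_
    obtain ⟨f, rfl⟩ := Submodule.Quotient.mk_surjective _ x
    show Submodule.Quotient.mk (opP π f) = Submodule.Quotient.mk f
    rw [Submodule.Quotient.eq, sumZero_ker, LinearMap.mem_ker, map_sub, opP_sum, sub_self]
  have h3 : Module.finrank (ZMod 2) ((R → ZMod 2) ⧸ sumZero R) = 1 := by
    have hs : Function.Surjective (smL R) := by
      intro c
      refine ⟨Pi.single (Classical.arbitrary R) c, ?_⟩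
      show ∑ r, Pi.single (Classical.arbitrary R) c r = c
      rw [Finset.sum_pi_single']
      simp
    have e := (smL R).quotKerEquivOfSurjective hs
    rw [← sumZero_ker] at e
    rw [e.finrank_eq, Module.finrank_self]
  rw [h2, LinearMap.charpoly_one, h3, pow_one] at h1
  exact h1.symm

end op

section cyc

/-- Division of `X ^ N - 1`. -/
theorem cyc_exact {N : ℕ} (hN : N.Prime) (h3 : 3 ≤ N) {χ : ℤ_[2][X]} (hm : χ.Monic)
    (hd : χ.natDegree = N - 1) (hirr : Irreducible (χ.map (PadicInt.toZMod (p := 2))))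
    (h : χ ∣ X ^ N - 1) : χ = cyclotomic N ℤ_[2] := by
  have h1 : Irreducible χ := hm.irreducible_of_irreducible_map _ _ hirr
  have h2 : Prime χ := h1.prime
  haveI : Fact N.Prime := ⟨hN⟩
  have h4 : (X ^ N - 1 : ℤ_[2][X]) = cyclotomic N ℤ_[2] * (X - 1) :=
    (cyclotomic_prime_mul_X_sub_one ℤ_[2] N).symm
  rw [h4] at h
  have hcm : (cyclotomic N ℤ_[2]).Monic := cyclotomic.monic N _
  have hcd : (cyclotomic N ℤ_[2]).natDegree = N - 1 := by
    rw [natDegree_cyclotomic, Nat.totient_prime hN]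
  rcases h2.dvd_or_dvd h with h5 | h5
  · exact (eq_of_monic_of_dvd_of_natDegree_le hm hcm h5 (by omega)).symm
  · exfalso
    have h6 : (X - 1 : ℤ_[2][X]) ≠ 0 := by
      have h7 := X_sub_C_ne_zero (1 : ℤ_[2])
      rwa [C_1] at h7
    have h7 := natDegree_le_of_dvd h5 h6
    have h8 : (X - 1 : ℤ_[2][X]).natDegree = 1 := by
      have h9 := natDegree_X_sub_C (1 : ℤ_[2])
      rwa [C_1] at h9
    omega

/-- Division of `X ^ N + 1`. -/
theorem cyc_exact' {N : ℕ} (hN : N.Prime) (h3 : 3 ≤ N) {χ : ℤ_[2][X]} (hm : χ.Monic)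
    (hd : χ.natDegree = N - 1) (hirr : Irreducible (χ.map (PadicInt.toZMod (p := 2))))
    (h : χ ∣ X ^ N + 1) : χ.comp (-X) = cyclotomic N ℤ_[2] := by
  have hodd : Odd N := hN.odd_of_ne_two (by omega)
  have hev : Even (N - 1) := by
    obtain ⟨j, hj⟩ := hodd
    exact ⟨j, by omega⟩
  have hX : (-X : ℤ_[2][X]) = C (-1) * X := by rw [C_neg, C_1]; ring
  have hXd : (-X : ℤ_[2][X]).natDegree = 1 := by rw [natDegree_neg, natDegree_X]
  have hdeg : (χ.comp (-X)).natDegree = N - 1 := by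
    rw [natDegree_comp, hXd, mul_one, hd]
  refine cyc_exact hN h3 ?_ hdeg ?_ ?_
  · show (χ.comp (-X)).leadingCoeff = 1
    rw [leadingCoeff_comp (by rw [hXd]; exact one_ne_zero), hm.leadingCoeff, one_mul, leadingCoeff_neg,
      leadingCoeff_X, hd, hev.neg_one_pow]
  · have h4 : (χ.comp (-X)).map (PadicInt.toZMod (p := 2)) = χ.map (PadicInt.toZMod (p := 2)) := by
      rw [map_comp, Polynomial.map_neg, map_X]
      have h5 : (-X : (ZMod 2)[X]) = X := by
        have h6 := two_zero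
        linear_combination -X * h6
      rw [h5, comp_X]
    rw [h4]
    exact hirr
  · obtain ⟨q, hq⟩ := h
    refine ⟨-(q.comp (-X)), ?_⟩
    have h4 := congrArg (fun p : ℤ_[2][X] => p.comp (-X)) hq
    simp only [add_comp, pow_comp, X_comp, one_comp, mul_comp, hodd.neg_pow] at h4
    linear_combination -h4

end cyc

section one

variable {R M : Type} [Fintype R] [AddCommGroup M] [Module ℤ_[2] M] [Module.Free ℤ_[2] M]
  [Module.Finite ℤ_[2] M] {κ : M →+ (R → ZMod 2)} {D : M} {φ : M →ₗ[ℤ_[2]] M} {π : Equiv.Perm R}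

/-- The conclusions for one cycle of prime length. -/
theorem pri_one [Nonempty R] (hr : Red κ D) (hT : Thr κ φ π) {N : ℕ}
    (hs : (Equiv.Perm.partition π).parts = {N}) (hN : N.Prime) (h3 : 3 ≤ N)
    (hirr : Irreducible (cyclotomic N (ZMod 2)))
    (hφ : ∀ u ∈ Submodule.span ℤ_[2] {D}, φ u ∈ Submodule.span ℤ_[2] {D})
    [Module.Free ℤ_[2] (M ⧸ Submodule.span ℤ_[2] {D})]
    {ψ : (M ⧸ Submodule.span ℤ_[2] {D}) →ₗ[ℤ_[2]] (M ⧸ Submodule.span ℤ_[2] {D})}
    (hψ : ψ = Submodule.mapQ _ (Submodule.span ℤ_[2] {D}) φ hφ) :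
    (Module.finrank ℤ_[2] (M ⧸ Submodule.span ℤ_[2] {D}) = 0 ∨
      Module.finrank ℤ_[2] (M ⧸ Submodule.span ℤ_[2] {D}) = N - 1) ∧
    (∀ U : Submodule ℤ_[2] (M ⧸ Submodule.span ℤ_[2] {D}), (∀ m ∈ U, ψ m ∈ U) →
      U = ⊥ ∨ ∃ r : ℕ, ∀ m : M ⧸ Submodule.span ℤ_[2] {D}, (2 : ℤ_[2]) ^ r • m ∈ U) ∧
    ((∀ m, m ≠ 0 → ∀ j : ℕ, 0 < j → (ψ ^ j) m ≠ m) ∨ ψ.charpoly = cyclotomic N ℤ_[2] ∨
      ψ.charpoly.comp (-X) = cyclotomic N ℤ_[2]) := by
  have hcard : Fintype.card R = N := by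
    have h4 := (Equiv.Perm.partition π).parts_sum
    rw [hs, Multiset.sum_singleton] at h4
    exact h4.symm
  have hodd : Odd N := hN.odd_of_ne_two (by omega)
  obtain ⟨κ', -, hk, hact⟩ := Pool.Agent.Q68.EM.Kpr.main R M κ D hr (by rw [hcard]; exact hodd)
  set E := opE π with hE
  have hkE : ∀ m, κ' (ψ m) = E (κ' m) := by
    intro m
    refine Subtype.ext (funext fun r => ?_)
    obtain ⟨r', rfl⟩ := π.surjective r
    rw [hE, opE_apply, hψ]
    exact hact φ π hφ hT m r'
  haveI : Fact N.Prime := ⟨hN⟩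
  have hX0 : (X - 1 : (ZMod 2)[X]) ≠ 0 := by
    have h7 := X_sub_C_ne_zero (1 : ZMod 2)
    rwa [C_1] at h7
  have hEc : E.charpoly = cyclotomic N (ZMod 2) := by
    have h4 := opE_charpoly π
    rw [hs, Multiset.map_singleton, Multiset.prod_singleton, ← hE,
      ← cyclotomic_prime_mul_X_sub_one (ZMod 2) N] at h4
    exact mul_right_cancel₀ hX0 h4
  have hEi : Irreducible E.charpoly := by rw [hEc]; exact hirr
  have hEd : Module.finrank (ZMod 2) (sumZero R) = N - 1 := by
    rw [← LinearMap.charpoly_natDegree E, hEc, natDegree_cyclotomic, Nat.totient_prime hN]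
  have hEX : E.charpoly ∣ X ^ N - 1 := by
    rw [hEc, ← cyclotomic_prime_mul_X_sub_one (ZMod 2) N]
    exact dvd_mul_right _ _
  have hrank := Pool.Agent.Q45.GM.dich_rank ψ E κ' hk hkE hEi
  rw [hEd] at hrank
  refine ⟨hrank, fun U hU => Pool.Agent.Q45.GM.dich_irr ψ E κ' hk hkE hEi U hU, ?_⟩
  rcases hrank with h0 | h0
  · left
    haveI : Subsingleton (M ⧸ Submodule.span ℤ_[2] {D}) := Module.finrank_zero_iff.1 h0
    intro m hm
    exact absurd (Subsingleton.elim m 0) hm
  have hcm : ψ.charpoly.Monic := LinearMap.charpoly_monic ψ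
  have hcd : ψ.charpoly.natDegree = N - 1 := by rw [LinearMap.charpoly_natDegree, h0]
  have h2 : ((2 : ℕ) : ℤ_[2]) = 2 := Nat.cast_ofNat
  have hdv := Pool.Agent.Q151.GM.lin8 2 _ ψ (sumZero R) E κ' (fun m => by rw [hk, h2]) hkE
  have hci : Irreducible (ψ.charpoly.map (PadicInt.toZMod (p := 2))) := by
    have h5 : (ψ.charpoly.map (PadicInt.toZMod (p := 2))) = E.charpoly := by
      refine (eq_of_monic_of_dvd_of_natDegree_le (hcm.map _) (LinearMap.charpoly_monic E) hdv ?_).symm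
      rw [LinearMap.charpoly_natDegree, hEd, hcm.natDegree_map, hcd]
    rw [h5]
    exact hEi
  rcases Pool.Agent.Q45.GM.dich_poly ψ E κ' hk hkE hEi N hEX with h4 | h4 | h4
  · exact Or.inl h4
  · exact Or.inr (Or.inl (cyc_exact hN h3 hcm hcd hci h4))
  · exact Or.inr (Or.inr (cyc_exact' hN h3 hcm hcd hci h4))

end one

end Pool.Agent.Q45.EM
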