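import Pool.Agent.Q68.EM.Kpr
import Pool.Agent.Q68.EM.Lsn
import Pool.Agent.Q164.EM.End
import Pool.Agent.Q237.EM.QCH
import Pool.Agent.Q45.EM.Pri
import Pool.Agent.Q45.OI.P.PG
import Pool.Agent.Q45.OI.K.LC
import Pool.Agent.Q45.OI.J.LEMX
import Pool.Agent.Q45.OI.J.ORTH

/-!
# Open image for modules with an embedding in a permutation module
-/

set_option autoImplicit false
set_option linter.all false

open Module
open scoped Classical

namespace Pool.Agent.Q45.EM

open Pool.Agent.Q68.EM.Lsn (pm pm_val pm_val' ev fresh)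

section op

variable {R : Type} [Fintype R]

/-- The permutation operators on the functions with sum zero. -/
noncomputable def permOp : Equiv.Perm R →* (sumZero R ≃ₗ[ZMod 2] sumZero R) where
  toFun π :=
    { toFun := pm π
      map_add' := fun v w => rfl
      map_smul' := fun c v => rfl
      invFun := pm π⁻¹
      left_inv := fun v => Subtype.ext (funext fun r =>
        congrArg (v : R → ZMod 2) (π.symm_apply_apply r))
      right_inv := fun v => Subtype.ext (funext fun r =>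
        congrArg (v : R → ZMod 2) (π.apply_symm_apply r)) }
  map_one' := rfl
  map_mul' π τ := rfl

theorem permOp_val (π : Equiv.Perm R) (v : sumZero R) (r : R) :
    (permOp π v : R → ZMod 2) (π r) = (v : R → ZMod 2) r := pm_val' π v r

/-- The operators determine the permutation. -/
theorem permOp_one (h3 : 3 ≤ Fintype.card R) {π : Equiv.Perm R} (h : permOp π = 1) : π = 1 := by
  by_contra hne
  obtain ⟨r, hr⟩ : ∃ r, π r ≠ r := by
    by_contra hcon
    push Not at hcon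
    exact hne (Equiv.ext hcon)
  obtain ⟨s, hs⟩ := fresh ({r, π r} : Finset R) (by
    exact lt_of_le_of_lt Finset.card_le_two (by omega))
  simp only [Finset.mem_insert, Finset.mem_singleton, not_or] at hs
  have h1 := permOp_val π (ev r s) r
  rw [h] at h1
  have h2 : (((1 : sumZero R ≃ₗ[ZMod 2] sumZero R) (ev r s) : sumZero R) : R → ZMod 2) (π r) =
      (ev r s : R → ZMod 2) (π r) := rfl
  rw [h2, Pool.Agent.Q68.EM.Lsn.ev_other hr (fun h5 => hs.2 h5.symm),
    Pool.Agent.Q68.EM.Lsn.ev_left (fun h5 => hs.1 h5.symm)] at h1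
  exact zero_ne_one h1

theorem card_sumZero (h5 : 5 ≤ Fintype.card R) : 8 ≤ Nat.card (sumZero R) := by
  have h1 : Nat.card (R → ZMod 2) ≤ Nat.card (sumZero R) * Nat.card (ZMod 2) := by
    obtain ⟨r0⟩ : Nonempty R := Fintype.card_pos_iff.1 (by omega)
    rw [← Nat.card_prod]
    refine Nat.card_le_card_of_injective (fun f : R → ZMod 2 =>
      ((⟨fun r => f r + (if r = r0 then ∑ s, f s else 0), ?_⟩ : sumZero R), ∑ s, f s)) ?_
    · show ∑ r, (f r + (if r = r0 then ∑ s, f s else 0)) = 0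
      rw [Finset.sum_add_distrib, Finset.sum_ite_eq' Finset.univ r0, if_pos (Finset.mem_univ _)]
      exact Pool.Agent.Q68.EM.Lsn.dbl _
    · intro f g hfg
      rw [Prod.mk.injEq, Subtype.mk.injEq] at hfg
      funext r
      have h1 : f r + (if r = r0 then ∑ s, f s else 0) = g r + (if r = r0 then ∑ s, g s else 0) :=
        congrFun hfg.1 r
      rw [hfg.2] at h1
      exact add_right_cancel h1
  rw [Nat.card_pi, Finset.prod_const, Finset.card_univ, Nat.card_zmod] at h1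
  have h2 : 2 ^ 5 ≤ 2 ^ Fintype.card R := Nat.pow_le_pow_right (by norm_num) h5
  omega

end op

theorem lems : Pool.Agent.Q45.OI.Lems :=
  ⟨Pool.Agent.Q45.OI.KLA.lie1, Pool.Agent.Q45.OI.KLA.lie2, Pool.Agent.Q45.OI.KLA.lie3,
    Pool.Agent.Q45.OI.KLA.lie4, Pool.Agent.Q45.OI.KLA.lie5, Pool.Agent.Q45.OI.JORTH.main,
    Pool.Agent.Q45.OI.JLEMX.main, Pool.Agent.Q45.OI.KLC.red⟩

section quot

variable {G M : Type} [Group G] [AddCommGroup M] [Module ℤ_[2] M] {D : M}

theorem span_fix {A : M →ₗ[ℤ_[2]] M} (h : A D = D) :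
    ∀ u ∈ Submodule.span ℤ_[2] {D}, A u ∈ Submodule.span ℤ_[2] {D} := by
  intro u hu
  obtain ⟨c, rfl⟩ := Submodule.mem_span_singleton.1 hu
  rw [map_smul, h]
  exact Submodule.smul_mem _ _ (Submodule.mem_span_singleton_self D)

/-- The action on the quotient. -/
noncomputable def quoRep (ρ : G →* End ℤ_[2] M) (hD : ∀ g, ρ g D = D) :
    G →* End ℤ_[2] (M ⧸ Submodule.span ℤ_[2] {D}) where
  toFun g := Submodule.mapQ _ _ (ρ g) (span_fix (hD g))
  map_one' := by
    refine LinearMap.ext fun x => ?_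
    obtain ⟨m, rfl⟩ := Submodule.Quotient.mk_surjective _ x
    show Submodule.Quotient.mk (ρ 1 m) = Submodule.Quotient.mk m
    rw [map_one]
    rfl
  map_mul' g h := by
    refine LinearMap.ext fun x => ?_
    obtain ⟨m, rfl⟩ := Submodule.Quotient.mk_surjective _ x
    show Submodule.Quotient.mk (ρ (g * h) m) = Submodule.Quotient.mk (ρ g (ρ h m))
    rw [map_mul]
    rfl

theorem quoRep_mk (ρ : G →* End ℤ_[2] M) (hD : ∀ g, ρ g D = D) (g : G) (m : M) :
    quoRep ρ hD g (Submodule.Quotient.mk m) = Submodule.Quotient.mk (ρ g m) := rfl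

end quot

section irr

variable {G R M : Type} [Group G] [Fintype R] [AddCommGroup M] [Module ℤ_[2] M]
  [Module.Free ℤ_[2] M] [Module.Finite ℤ_[2] M]

theorem finrank_sumZero [Nonempty R] : finrank (ZMod 2) (sumZero R) = Fintype.card R - 1 := by
  have h3 : finrank (ZMod 2) ((R → ZMod 2) ⧸ sumZero R) = 1 := by
    have hs : Function.Surjective (smL R) := by
      intro c
      refine ⟨Pi.single (Classical.arbitrary R) c, ?_⟩
      show ∑ r, Pi.single (Classical.arbitrary R) c r = c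
      rw [Finset.sum_pi_single']
      simp
    have e := (smL R).quotKerEquivOfSurjective hs
    rw [← sumZero_ker] at e
    rw [e.finrank_eq, Module.finrank_self]
  have h4 := (sumZero R).finrank_quotient_add_finrank
  rw [h3, Module.finrank_pi] at h4
  omega

/-- Irreducibility and rank of the quotient. -/
theorem opn_irr (κ : M →+ (R → ZMod 2)) (D : M) (ρ : G →* End ℤ_[2] M) (π : G →* Equiv.Perm R)
    (hred : Red κ D) (hD : ∀ g, ρ g D = D) (hthr : ∀ g, Thr κ (ρ g) (π g))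
    (hodd : Odd (Fintype.card R)) (hfull : Function.Surjective π) :
    (finrank ℤ_[2] (M ⧸ Submodule.span ℤ_[2] {D}) = 0 ∨
      finrank ℤ_[2] (M ⧸ Submodule.span ℤ_[2] {D}) = Fintype.card R - 1) ∧
    ∀ U : Submodule ℤ_[2] (M ⧸ Submodule.span ℤ_[2] {D}), (∀ g, ∀ v ∈ U, quoRep ρ hD g v ∈ U) →
      U = ⊥ ∨ ∃ r : ℕ, ∀ v : M ⧸ Submodule.span ℤ_[2] {D}, (2 : ℤ_[2]) ^ r • v ∈ U := by
  haveI : Nonempty R := Fintype.card_pos_iff.1 hodd.pos
  haveI : Module.Free ℤ_[2] (M ⧸ Submodule.span ℤ_[2] {D}) := Pool.Agent.Q237.EM.QCH.free_quot hred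
  obtain ⟨κ', hκ1, hκ2, hκ3⟩ := Pool.Agent.Q68.EM.Kpr.main R M κ D hred hodd
  have h2 : ((2 : ℕ) : ℤ_[2]) = 2 := Nat.cast_ofNat
  have hact : ∀ g x, κ' (quoRep ρ hD g x) = pm (π g) (κ' x) := by
    intro g x
    refine Subtype.ext (funext fun r => ?_)
    obtain ⟨s, rfl⟩ := (π g).surjective r
    exact (hκ3 (ρ g) (π g) (span_fix (hD g)) (hthr g) x s).trans (pm_val' (π g) (κ' x) s).symm
  have key : ∀ U : Submodule ℤ_[2] (M ⧸ Submodule.span ℤ_[2] {D}),
      (∀ g, ∀ v ∈ U, quoRep ρ hD g v ∈ U) →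
      (∀ v ∈ U, κ' v = 0) ∨ ∀ w : sumZero R, ∃ v ∈ U, κ' v = w := by
    intro U hU
    let V' : Submodule (ZMod 2) (sumZero R) :=
      AddSubgroup.toZModSubmodule 2 ((U.toAddSubgroup).map κ')
    have hV' : ∀ v, v ∈ V' ↔ ∃ u ∈ U, κ' u = v := fun v => Iff.rfl
    rcases Pool.Agent.Q68.EM.Lsn.irr hodd V' (fun τ v hv => by
        obtain ⟨u, hu, rfl⟩ := (hV' v).1 hv
        obtain ⟨g, rfl⟩ := hfull τ
        rw [← hact]
        exact (hV' _).2 ⟨_, hU g u hu, rfl⟩) with h1 | h1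
    · left
      intro v hv
      have h3 : κ' v ∈ V' := (hV' _).2 ⟨v, hv, rfl⟩
      rw [h1] at h3
      exact (Submodule.mem_bot _).1 h3
    · right
      intro w
      have h3 : w ∈ V' := by rw [h1]; exact Submodule.mem_top
      exact (hV' w).1 h3
  constructor
  · rcases key ⊤ (fun g v _ => Submodule.mem_top) with h1 | h1
    · left
      refine Pool.Agent.Q45.GM.JLIN6.main 2 _ _ κ' 0 (fun m => by rw [h2]; exact hκ2 m) ?_
      rw [pow_zero]
      haveI : Subsingleton κ'.range := ⟨by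
        rintro ⟨_, a, rfl⟩ ⟨_, b, rfl⟩
        apply Subtype.ext
        show κ' a = κ' b
        rw [h1 a Submodule.mem_top, h1 b Submodule.mem_top]⟩
      exact Nat.card_unique
    · right
      refine Pool.Agent.Q45.GM.JLIN6.main 2 _ _ κ' _ (fun m => by rw [h2]; exact hκ2 m) ?_
      have h3 : κ'.range = ⊤ := by
        rw [eq_top_iff]
        intro w _
        obtain ⟨v, -, hv⟩ := h1 w
        exact ⟨v, hv⟩
      rw [h3, Nat.card_congr AddSubgroup.topEquiv.toEquiv,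
        Module.natCard_eq_pow_finrank (K := ZMod 2) (V := sumZero R), Nat.card_zmod, finrank_sumZero]
  · intro U hU
    have h4 := Pool.Agent.Q45.GM.JLIN5.main 2 (M ⧸ Submodule.span ℤ_[2] {D})
      (Set.range (quoRep ρ hD)) ?_ U (by
        rintro _ ⟨g, rfl⟩ m hm
        exact hU g m hm)
    · rwa [h2] at h4
    · intro U h2U hst
      rcases key U (fun g v hv => hst _ ⟨g, rfl⟩ v hv) with h1 | h1
      · left
        intro m hm
        rw [h2]
        exact (hκ2 m).1 (h1 m hm)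
      · right
        rw [eq_top_iff]
        intro m _
        obtain ⟨u, hu, he⟩ := h1 (κ' m)
        have h7 : κ' (m - u) = 0 := by rw [map_sub, he, sub_self]
        obtain ⟨m', hm'⟩ := (hκ2 _).1 h7
        have h8 : m = u + (2 : ℤ_[2]) • m' := by rw [← hm']; abel
        rw [h8]
        have h9 := h2U m'
        rw [h2] at h9
        exact U.add_mem hu h9

end irr

section fam

variable {ι G : Type} [Fintype ι] [Group G] {R M : ι → Type} [∀ i, Fintype (R i)]
  [∀ i, AddCommGroup (M i)] [∀ i, Module ℤ_[2] (M i)] [∀ i, Module.Free ℤ_[2] (M i)]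
  [∀ i, Module.Finite ℤ_[2] (M i)] {N : Type} [AddCommGroup N] [Module ℤ_[2] N]
  [Module.Free ℤ_[2] N] [Module.Finite ℤ_[2] N]

/-- **Joint open image on the quotients.** -/
theorem opn_joint (κ : ∀ i, M i →+ (R i → ZMod 2)) (D : ∀ i, M i)
    (ρ : ∀ i, G →* End ℤ_[2] (M i)) (π : ∀ i, G →* Equiv.Perm (R i)) (ν : G →* End ℤ_[2] N)
    (hred : ∀ i, Red (κ i) (D i)) (hD : ∀ i g, ρ i g (D i) = D i)
    (hthr : ∀ i g, Thr (κ i) (ρ i g) (π i g)) (hodd : ∀ i, Odd (Fintype.card (R i)))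
    (h5 : ∀ i, 5 ≤ Fintype.card (R i)) (hfull : ∀ i, Function.Surjective (π i))
    (hind : ∀ i, ∃ g, π i g ^ 3 = 1 ∧ π i g ≠ 1 ∧ (∀ j, j ≠ i → π j g = 1) ∧
      ∀ y, ∃ z, ν g y - y = (2 : ℤ_[2]) • z)
    (β : ∀ i, (M i ⧸ Submodule.span ℤ_[2] {D i}) →ₗ[ℤ_[2]]
      (M i ⧸ Submodule.span ℤ_[2] {D i}) →ₗ[ℤ_[2]] ℤ_[2])
    (hβ : ∀ i, β i ≠ 0) (hsym : ∀ i x y, β i x y = β i y x)
    (hinv : ∀ i g x y, β i (quoRep (ρ i) (hD i) g x) (quoRep (ρ i) (hD i) g y) = β i x y)
    (hinf : ∀ i, ∃ g, (∀ m, ∃ m', quoRep (ρ i) (hD i) g m - m = (4 : ℤ_[2]) • m') ∧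
      quoRep (ρ i) (hD i) g ≠ 1)
    {P : Subgroup G} (hP : Pool.Agent.Q45.OI.Chain P) :
    ∃ j : ℕ, ∀ α : ∀ i, (M i ⧸ Submodule.span ℤ_[2] {D i}) ≃ₗ[ℤ_[2]]
        (M i ⧸ Submodule.span ℤ_[2] {D i}), (∀ i x y, β i (α i x) (α i y) = β i x y) →
      (∀ i m, ∃ m', α i m - m = (2 : ℤ_[2]) ^ j • m') →
      ∀ n, ∃ T ∈ P, (∀ i m, ∃ m', quoRep (ρ i) (hD i) T m - α i m = (2 : ℤ_[2]) ^ n • m') ∧
        ∀ y, ∃ z, ν T y - y = (2 : ℤ_[2]) ^ n • z := by
  haveI : ∀ i, Nonempty (R i) := fun i => Fintype.card_pos_iff.1 (by have := h5 i; omega)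
  haveI : ∀ i, Module.Free ℤ_[2] (M i ⧸ Submodule.span ℤ_[2] {D i}) := fun i =>
    Pool.Agent.Q237.EM.QCH.free_quot (hred i)
  choose κ' hκ1 hκ2 hκ3 using fun i =>
    Pool.Agent.Q68.EM.Kpr.main (R i) (M i) (κ i) (D i) (hred i) (hodd i)
  have hfam : Pool.Agent.Q45.OI.FamN (fun i => (quoRep (ρ i) (hD i)).toHomUnits) ν.toHomUnits κ'
      (fun i => permOp.comp (π i)) β := by
    refine ⟨hκ2, fun i g x => ?_, fun i => ?_, fun i => card_sumZero (h5 i), fun i => ?_, hβ, hsym,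
      hinv, fun i => ?_⟩
    · refine Subtype.ext (funext fun r => ?_)
      obtain ⟨s, rfl⟩ := (π i g).surjective r
      have h1 := hκ3 i (ρ i g) (π i g) (span_fix (hD i g)) (hthr i g) x s
      have h2 := permOp_val (π i g) (κ' i x) s
      exact h1.trans h2.symm
    · refine Pool.Agent.Q68.EM.Lsn.main (R i) _ (hodd i) (h5 i) fun τ => ?_
      obtain ⟨g, rfl⟩ := hfull i τ
      exact ⟨permOp (π i g), ⟨g, rfl⟩, fun v r => permOp_val (π i g) v r⟩
    · obtain ⟨g, h1, h2, h3, h4⟩ := hind i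
      refine ⟨g, ?_, fun h6 => h2 (permOp_one (by have := h5 i; omega) h6), fun j hj => ?_, h4⟩
      · show permOp (π i g) ^ 3 = 1
        rw [← map_pow, h1, map_one]
      · show permOp (π j g) = 1
        rw [h3 j hj, map_one]
    · obtain ⟨g, h1, h2⟩ := hinf i
      refine ⟨g, (Pool.Agent.Q45.OI.cg_iff _ _ _).2 fun m => ?_, fun h6 => h2 ?_⟩
      · obtain ⟨m', hm'⟩ := h1 m
        exact ⟨m', hm'.trans (congrArg (fun c : ℤ_[2] => c • m')
          (by norm_num : (4 : ℤ_[2]) = 2 ^ 2))⟩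
      · exact congrArg (fun u : (End ℤ_[2] (M i ⧸ Submodule.span ℤ_[2] {D i}))ˣ =>
          (u : End ℤ_[2] (M i ⧸ Submodule.span ℤ_[2] {D i}))) h6
  exact hfam.joint lems hP

end fam

end Pool.Agent.Q45.EM
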