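import Pool.Agent.Q45.EM.Alm
import Mathlib.GroupTheory.SpecificGroups.Alternating

/-!
# The permutations of the roots
-/

set_option autoImplicit false
set_option linter.all false

open Polynomial
open scoped Classical

namespace Pool.Agent.Q45.EM

section perm

variable {k k' : Type} [Field k] [Field k'] [Algebra k k']

theorem root_map {p : k[X]} {σ : k' ≃ₐ[k] k'} {x : k'} (h : x ∈ p.rootSet k') : σ x ∈ p.rootSet k' := by
  rw [mem_rootSet] at h ⊢
  refine ⟨h.1, ?_⟩
  have h1 : aeval (σ x) p = σ (aeval x p) := by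
    rw [← AlgEquiv.coe_algHom, aeval_algHom_apply]
  rw [h1, h.2, map_zero]

/-- The permutations of the roots. -/
noncomputable def permRoots (p : k[X]) : (k' ≃ₐ[k] k') →* Equiv.Perm (p.rootSet k') where
  toFun σ :=
    { toFun := fun r => ⟨σ r, root_map r.2⟩
      invFun := fun r => ⟨σ.symm r, root_map (σ := σ.symm) r.2⟩
      left_inv := fun r => Subtype.ext (σ.symm_apply_apply r)
      right_inv := fun r => Subtype.ext (σ.apply_symm_apply r) }
  map_one' := rfl
  map_mul' _ _ := rfl

theorem permRoots_val (p : k[X]) (σ : k' ≃ₐ[k] k') (r : p.rootSet k') :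
    ((permRoots p σ r : p.rootSet k') : k') = σ r := rfl

/-- Three roots give a permutation of order three. -/
theorem exists_three {R : Type} [Fintype R] (h : 3 ≤ Fintype.card R) :
    ∃ π : Equiv.Perm R, (∀ r, π (π (π r)) = r) ∧ ∃ r, π r ≠ r := by
  obtain ⟨a, b, c, hab, hac, hbc⟩ := Fintype.two_lt_card_iff.1 (show 2 < Fintype.card R by omega)
  have h1 := Equiv.Perm.isThreeCycle_swap_mul_swap_same hab hac hbc
  refine ⟨Equiv.swap a b * Equiv.swap a c, fun r => ?_, c, ?_⟩
  · have h2 := pow_orderOf_eq_one (Equiv.swap a b * Equiv.swap a c)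
    rw [h1.orderOf] at h2
    exact congrArg (fun g : Equiv.Perm R => g r) h2
  · rw [Equiv.Perm.mul_apply, Equiv.swap_apply_right, Equiv.swap_apply_left]
    exact hbc

end perm

end Pool.Agent.Q45.EM
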