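import Pool.Agent.Q45.NE.RegW
import Pool.Agent.Q45.NE.Fld

/-!
# Points of the curve `Q(t, w) = 0`
-/

set_option autoImplicit false
set_option linter.all false

open Polynomial IsDedekindDomain WithZero
open scoped Classical

namespace Pool.Agent.Q45.EM

open Pool.Agent.Q45.TG (ds coeff_ds)
open Pool.Agent.Q45.NE (ds_add ds_mul ds_C ds_X eG)

section pt

variable {k' : Type} [Field k'] {Q : k'[X][X]} {r w : k'}

/-- The value of a polynomial at the point `(r, w)`. -/
noncomputable def evp (r w : k') : k'[X][X] →+* k' := eval₂RingHom (evalRingHom r) w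

theorem evp_C (p : k'[X]) : evp r w (C p) = p.eval r := by
  unfold evp
  rw [coe_eval₂RingHom, eval₂_C]
  rfl

theorem evp_X : evp r w X = w := by
  unfold evp
  rw [coe_eval₂RingHom, eval₂_X]

theorem evp_G (G : k'[X]) (P : k'[X][X]) : evp r (G.eval r) P = (P.eval G).eval r :=
  eval₂_at_apply (evalRingHom r) G

theorem evp_map (P : k'[X][X]) : evp r w P = (P.map (evalRingHom r)).eval w := by
  unfold evp
  rw [coe_eval₂RingHom, eval_map]

/-- The derivative of `p` along the curve. -/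
noncomputable def dlt (Q : k'[X][X]) (r w : k') (p : k'[X][X]) : k' :=
  evp r w (ds p) * evp r w (derivative Q) - evp r w (derivative p) * evp r w (ds Q)

theorem dlt_add (p q : k'[X][X]) : dlt Q r w (p + q) = dlt Q r w p + dlt Q r w q := by
  unfold dlt
  rw [ds_add, derivative_add, map_add, map_add]
  ring

theorem dlt_mul (p q : k'[X][X]) : dlt Q r w (p * q) =
    evp r w p * dlt Q r w q + evp r w q * dlt Q r w p := by
  unfold dlt
  rw [ds_mul, derivative_mul, map_add, map_add, map_mul, map_mul, map_mul, map_mul]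
  ring

theorem dlt_self : dlt Q r w Q = 0 := by
  unfold dlt
  ring

/-- The point `(r, w)` of the curve. -/
theorem exists_pt [IsDedekindDomain (AdjoinRoot Q)]
    (hinj : Function.Injective (AdjoinRoot.of Q)) (h0 : evp r w Q = 0)
    (h1 : evp r w (derivative Q) ≠ 0) :
    ∃ 𝔓 : HeightOneSpectrum (AdjoinRoot Q),
      (∀ p, AdjoinRoot.mk Q p ∈ 𝔓.asIdeal ↔ evp r w p = 0) ∧
      AdjoinRoot.of Q (X - C r) ∉ 𝔓.asIdeal ^ 2 := by
  let φ : AdjoinRoot Q →+* k' := AdjoinRoot.lift (evalRingHom r) w h0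
  have hφ : ∀ p, φ (AdjoinRoot.mk Q p) = evp r w p := fun p => AdjoinRoot.lift_mk _ _
  have hT : φ (AdjoinRoot.of Q (X - C r)) = 0 := by
    rw [← AdjoinRoot.mk_C, hφ, evp_C, eval_sub, eval_X, eval_C, sub_self]
  have hne : RingHom.ker φ ≠ ⊥ := by
    intro h
    have h2 : AdjoinRoot.of Q (X - C r) ∈ RingHom.ker φ := hT
    rw [h, Ideal.mem_bot] at h2
    exact X_sub_C_ne_zero r (hinj (by rw [h2, map_zero]))
  let 𝔓 : HeightOneSpectrum (AdjoinRoot Q) := ⟨RingHom.ker φ, RingHom.ker_isPrime φ, hne⟩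
  have hmem : ∀ p, AdjoinRoot.mk Q p ∈ 𝔓.asIdeal ↔ evp r w p = 0 := fun p => by
    rw [← hφ]
    exact Iff.rfl
  refine ⟨𝔓, hmem, fun h2 => ?_⟩
  have key : ∀ s ∈ 𝔓.asIdeal * 𝔓.asIdeal, ∀ p, AdjoinRoot.mk Q p = s → dlt Q r w p = 0 := by
    intro s hs
    refine Submodule.mul_induction_on hs ?_ ?_
    · intro a ha b hb p hp
      obtain ⟨a, rfl⟩ := AdjoinRoot.mk_surjective a
      obtain ⟨b, rfl⟩ := AdjoinRoot.mk_surjective b
      rw [← map_mul, AdjoinRoot.mk_eq_mk] at hp
      obtain ⟨g, hg⟩ := hp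
      have h3 : p = a * b + Q * g := by rw [← hg]; ring
      rw [h3, dlt_add, dlt_mul, dlt_mul, (hmem a).1 ha, (hmem b).1 hb, h0, dlt_self]
      ring
    · intro x y hx hy p hp
      obtain ⟨x', rfl⟩ := AdjoinRoot.mk_surjective x
      have h3 : AdjoinRoot.mk Q (p - x') = y := by rw [map_sub, hp, add_sub_cancel_left]
      have h4 := dlt_add (Q := Q) (r := r) (w := w) x' (p - x')
      rw [add_sub_cancel, hx x' rfl, hy _ h3, add_zero] at h4
      exact h4
  rw [pow_two] at h2
  have h3 := key _ h2 (C (X - C r)) (AdjoinRoot.mk_C _)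
  unfold dlt at h3
  rw [ds_C, derivative_C, map_zero, zero_mul, sub_zero, evp_C, derivative_sub, derivative_X,
    derivative_C, sub_zero, eval_one, one_mul] at h3
  exact h1 h3

variable [IsSepClosed k']

/-- The second point over `r`. -/
theorem second_pt (hQ : Q.Monic) (hn : 1 < Q.natDegree) {G : k'[X]}
    (hr : (eG Q G).eval r = 0)
    (hunr : IsCoprime (AdjoinRoot.of Q (eG Q G)) (AdjoinRoot.mk Q (derivative Q))) :
    ∃ w : k', evp r w Q = 0 ∧ evp r w (derivative Q) ≠ 0 ∧ w ≠ G.eval r := by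
  set q := Q.map (evalRingHom r) with hq
  have hqm : q.Monic := hQ.map _
  have hG : q.eval (G.eval r) = 0 := by
    rw [hq, ← evp_map, evp_G]
    exact hr
  have hsep : q.Separable := by
    obtain ⟨x, y, hxy⟩ := hunr
    obtain ⟨x, rfl⟩ := AdjoinRoot.mk_surjective x
    obtain ⟨y, rfl⟩ := AdjoinRoot.mk_surjective y
    rw [← AdjoinRoot.mk_C, ← map_mul, ← map_mul, ← map_add, ← map_one (AdjoinRoot.mk Q),
      AdjoinRoot.mk_eq_mk] at hxy
    obtain ⟨g, hg⟩ := hxy
    have h1 := congrArg (Polynomial.map (evalRingHom r)) hg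
    rw [Polynomial.map_sub, Polynomial.map_add, Polynomial.map_mul, Polynomial.map_mul,
      Polynomial.map_mul, map_C, Polynomial.map_one, ← derivative_map, ← hq] at h1
    have h2 : evalRingHom r (eG Q G) = 0 := hr
    rw [h2, C_0, mul_zero, zero_add] at h1
    exact ⟨-(g.map (evalRingHom r)), y.map (evalRingHom r), by linear_combination h1⟩
  obtain ⟨u, hu⟩ : (X - C (G.eval r)) ∣ q := dvd_iff_isRoot.2 hG
  have hu0 : u.degree ≠ 0 := by
    intro h0
    have h1 : q.natDegree = Q.natDegree := hQ.natDegree_map _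
    have hune : u ≠ 0 := by
      rintro rfl
      rw [mul_zero] at hu
      exact hqm.ne_zero hu
    have h2 : u.natDegree = 0 := natDegree_eq_zero_iff_degree_le_zero.2 h0.le
    rw [hu, natDegree_mul (X_sub_C_ne_zero _) hune, natDegree_X_sub_C, h2] at h1
    omega
  obtain ⟨w, hw⟩ := IsSepClosed.exists_root u hu0 (hsep.of_dvd ⟨_, by rw [hu, mul_comm]⟩)
  have hw' : u.eval w = 0 := hw
  refine ⟨w, ?_, ?_, ?_⟩
  · rw [evp_map, ← hq, hu, eval_mul, hw', mul_zero]
  · rw [evp_map, ← derivative_map, ← hq]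
    intro h1
    obtain ⟨x, y, hxy⟩ := hsep
    have h2 := congrArg (Polynomial.eval w) hxy
    rw [eval_add, eval_mul, eval_mul, h1, hu, eval_mul, hw', mul_zero, mul_zero, mul_zero,
      add_zero, eval_one] at h2
    exact zero_ne_one h2
  · rintro rfl
    have h1 : ¬ IsUnit (X - C (G.eval r)) := not_isUnit_X_sub_C _
    apply h1
    refine hsep.squarefree _ ?_
    obtain ⟨v, hv⟩ := dvd_iff_isRoot.2 hw
    exact ⟨v, by rw [mul_assoc, ← hv, ← hu]⟩

end pt

section eqv

/-- Transport of the valuations along an automorphism. -/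
theorem val_eqv {R L : Type} [CommRing R] [IsDedekindDomain R] [Field L] [Algebra R L]
    [IsFractionRing R L] (ρ : R ≃+* R) (e : L ≃+* L)
    (hρ : ∀ x, e (algebraMap R L x) = algebraMap R L (ρ x)) (v : HeightOneSpectrum R) :
    ∃ w : HeightOneSpectrum R, (∀ x, ρ x ∈ w.asIdeal ↔ x ∈ v.asIdeal) ∧
      ∀ z : L, w.valuation L (e z) = v.valuation L z := by
  haveI := v.isPrime
  have hmap : ∀ I : Ideal R, I.map (ρ : R →+* R) = I.comap (ρ.symm : R →+* R) := fun I =>
    Ideal.map_comap_of_equiv ρ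
  have hne : v.asIdeal.comap (ρ.symm : R →+* R) ≠ ⊥ := by
    intro h0
    refine v.ne_bot ?_
    rw [eq_bot_iff]
    intro x hx
    have h1 : ρ x ∈ v.asIdeal.comap (ρ.symm : R →+* R) := by
      show ρ.symm (ρ x) ∈ v.asIdeal
      rwa [ρ.symm_apply_apply]
    rw [h0, Ideal.mem_bot] at h1
    rw [Ideal.mem_bot]
    exact (map_eq_zero_iff ρ ρ.injective).1 h1
  let w : HeightOneSpectrum R := ⟨v.asIdeal.comap (ρ.symm : R →+* R), Ideal.comap_isPrime _ _, hne⟩
  have hpow : ∀ (n : ℕ) (r : R), ρ r ∈ w.asIdeal ^ n ↔ r ∈ v.asIdeal ^ n := by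
    intro n r
    have h1 : w.asIdeal ^ n = (v.asIdeal ^ n).comap (ρ.symm : R →+* R) := by
      rw [← hmap, Ideal.map_pow, hmap]
    rw [h1]
    show ρ.symm (ρ r) ∈ v.asIdeal ^ n ↔ _
    rw [ρ.symm_apply_apply]
  have hint : ∀ r : R, w.intValuation (ρ r) = v.intValuation r := by
    intro r
    rcases eq_or_ne r 0 with rfl | hr
    · rw [map_zero, map_zero, map_zero]
    have hr' : ρ r ≠ 0 := fun h => hr ((map_eq_zero_iff ρ ρ.injective).1 h)
    apply le_antisymm
    · rw [v.intValuation_eq_exp_neg_multiplicity hr, w.intValuation_le_pow_iff_mem, hpow,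
        ← v.intValuation_le_pow_iff_mem, ← v.intValuation_eq_exp_neg_multiplicity hr]
    · rw [w.intValuation_eq_exp_neg_multiplicity hr', v.intValuation_le_pow_iff_mem, ← hpow,
        ← w.intValuation_le_pow_iff_mem, ← w.intValuation_eq_exp_neg_multiplicity hr']
  refine ⟨w, fun x => ?_, fun z => ?_⟩
  · have := hpow 1 x
    rwa [pow_one, pow_one] at this
  · obtain ⟨a, b, hb, rfl⟩ := IsFractionRing.div_surjective (A := R) z
    rw [map_div₀, map_div₀, map_div₀, hρ, hρ, v.valuation_of_algebraMap, v.valuation_of_algebraMap,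
      w.valuation_of_algebraMap, w.valuation_of_algebraMap, hint, hint]

end eqv

end Pool.Agent.Q45.EM
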