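import Pool.Agent.Q45.EM.Mul3
import Pool.Agent.Q45.EM.Cons

/-!
# Ranks of kernels of polynomials
-/

set_option autoImplicit false
set_option linter.all false

open Polynomial
open scoped Classical TensorProduct

namespace Pool.Agent.Q45.EM

section dim

variable {V : Type} [AddCommGroup V] [Module ℤ_[2] V] [Module.Free ℤ_[2] V]
  [Module.Finite ℤ_[2] V]

theorem coe_aeval (ψ : V →ₗ[ℤ_[2]] V) (U : Submodule ℤ_[2] V) (hU : ∀ x ∈ U, ψ x ∈ U)
    (p : ℤ_[2][X]) (x : U) : ((aeval (ψ.restrict hU) p x : U) : V) = aeval ψ p (x : V) := by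
  induction p using Polynomial.induction_on' with
  | add p q hp hq =>
    rw [map_add, map_add, LinearMap.add_apply, LinearMap.add_apply, Submodule.coe_add, hp, hq]
  | monomial n a =>
    have h1 : ∀ n : ℕ, (((ψ.restrict hU) ^ n) x : V) = (ψ ^ n) (x : V) := by
      intro n
      induction n with
      | zero => rfl
      | succ n ih =>
        rw [pow_succ', pow_succ', Module.End.mul_apply, Module.End.mul_apply, ← ih]
        rfl
    rw [aeval_monomial, aeval_monomial, Module.End.mul_apply, Module.End.mul_apply,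
      Module.algebraMap_end_apply, Module.algebraMap_end_apply, Submodule.coe_smul, h1]

theorem tmul_inj {V : Type} [AddCommGroup V] [Module ℤ_[2] V] [Module.Free ℤ_[2] V] :
    Function.Injective (fun w : V => (1 : ℚ_[2]) ⊗ₜ[ℤ_[2]] w) := by
  have h10 := Module.Flat.rTensor_preserves_injective_linearMap (M := V)
    (Algebra.linearMap ℤ_[2] ℚ_[2]) (IsFractionRing.injective ℤ_[2] ℚ_[2])
  intro x y hxy
  have h11 : (Algebra.linearMap ℤ_[2] ℚ_[2]).rTensor V ((1 : ℤ_[2]) ⊗ₜ[ℤ_[2]] x) =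
      (Algebra.linearMap ℤ_[2] ℚ_[2]).rTensor V ((1 : ℤ_[2]) ⊗ₜ[ℤ_[2]] y) := by
    rw [LinearMap.rTensor_tmul, LinearMap.rTensor_tmul, Algebra.linearMap_apply, map_one]
    exact hxy
  have h12 := congrArg (TensorProduct.lid ℤ_[2] V) (h10 h11)
  rwa [TensorProduct.lid_tmul, TensorProduct.lid_tmul, one_smul, one_smul] at h12

theorem rank_le (ψ : V →ₗ[ℤ_[2]] V) (h : ψ.charpoly.Separable) {p : ℤ_[2][X]} (hp : p.Monic)
    (h0 : ∀ v, aeval ψ p v = 0) : Module.finrank ℤ_[2] V ≤ p.natDegree := by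
  have h1 : (ψ.baseChange ℚ_[2]).charpoly.Separable := by
    rw [LinearMap.charpoly_baseChange]
    exact h.map
  have h2 := Pool.Agent.Q45.GM.JLIN2.degMin _ h1
  rw [Module.finrank_baseChange] at h2
  have h3 : aeval (ψ.baseChange ℚ_[2]) (p.map (algebraMap ℤ_[2] ℚ_[2])) = 0 := by
    rw [Polynomial.aeval_map_algebraMap]
    have h4 : ψ.baseChange ℚ_[2] = Module.End.baseChangeHom ℤ_[2] ℚ_[2] V ψ := rfl
    rw [h4, Polynomial.aeval_algHom_apply, show aeval ψ p = 0 from LinearMap.ext h0, map_zero]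
  have h5 := natDegree_le_of_dvd (minpoly.dvd _ _ h3) (hp.map _).ne_zero
  rw [hp.natDegree_map] at h5
  exact h2.trans h5

/-- The rank of the kernel of a factor of the characteristic polynomial. -/
theorem rank_ker (ψ : V →ₗ[ℤ_[2]] V) (hs : ψ.charpoly.Separable) {h g : ℤ_[2][X]} (hm : h.Monic)
    (gm : g.Monic) (hhg : ψ.charpoly = h * g) :
    Module.finrank ℤ_[2] (LinearMap.ker (aeval ψ h)) = h.natDegree := by
  have hcop : IsCoprime h g := by
    rw [hhg] at hs
    exact hs.isCoprime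
  have hst : ∀ q : ℤ_[2][X], ∀ x ∈ LinearMap.ker (aeval ψ q), ψ x ∈ LinearMap.ker (aeval ψ q) := by
    intro q x hx
    rw [LinearMap.mem_ker] at hx ⊢
    have h1 : aeval ψ q (ψ x) = ψ (aeval ψ q x) := by
      have h2 : aeval ψ q * ψ = ψ * aeval ψ q := by
        have h3 := Commute.all X q
        have h4 := h3.map (aeval ψ)
        rw [aeval_X] at h4
        exact h4.symm
      rw [← Module.End.mul_apply, h2, Module.End.mul_apply]
    rw [h1, hx, map_zero]
  have hcompl : IsCompl (LinearMap.ker (aeval ψ h)) (LinearMap.ker (aeval ψ g)) := by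
    refine ⟨disjoint_ker_aeval_of_isCoprime ψ hcop, ?_⟩
    rw [codisjoint_iff, sup_ker_aeval_eq_ker_aeval_mul_of_coprime ψ hcop, ← hhg,
      LinearMap.aeval_self_charpoly, LinearMap.ker_zero]
  let e := Submodule.prodEquivOfIsCompl _ _ hcompl
  have hconj : ψ = e.conj ((ψ.restrict (hst h)).prodMap (ψ.restrict (hst g))) := by
    refine LinearMap.ext fun x => ?_
    obtain ⟨y, rfl⟩ := e.surjective x
    rw [LinearEquiv.conj_apply_apply, e.symm_apply_apply]
    show ψ (e y) = e ((ψ.restrict (hst h)) y.1, (ψ.restrict (hst g)) y.2)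
    rw [Submodule.coe_prodEquivOfIsCompl', Submodule.coe_prodEquivOfIsCompl', map_add]
    rfl
  have hchar : ψ.charpoly = (ψ.restrict (hst h)).charpoly * (ψ.restrict (hst g)).charpoly := by
    conv_lhs => rw [hconj]
    rw [LinearEquiv.charpoly_conj, LinearMap.charpoly_prodMap]
  have hs1 : (ψ.restrict (hst h)).charpoly.Separable := hs.of_dvd ⟨_, hchar⟩
  have hs2 : (ψ.restrict (hst g)).charpoly.Separable := hs.of_dvd ⟨_, by rw [hchar, mul_comm]⟩
  have h1 := rank_le _ hs1 hm fun v => Subtype.ext (by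
    rw [coe_aeval]
    exact LinearMap.mem_ker.1 v.2)
  have h2 := rank_le _ hs2 gm fun v => Subtype.ext (by
    rw [coe_aeval]
    exact LinearMap.mem_ker.1 v.2)
  have h3 := congrArg natDegree hchar
  rw [(LinearMap.charpoly_monic _).natDegree_mul (LinearMap.charpoly_monic _),
    LinearMap.charpoly_natDegree, LinearMap.charpoly_natDegree, LinearMap.charpoly_natDegree] at h3
  have h4 := congrArg natDegree hhg
  rw [hm.natDegree_mul gm, LinearMap.charpoly_natDegree] at h4
  omega

/-- A polynomial which is prime to the characteristic polynomial is injective. -/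
theorem inj_of_cop (ψ : V →ₗ[ℤ_[2]] V) {p : ℤ_[2][X]}
    (h : IsCoprime (p.map (algebraMap ℤ_[2] ℚ_[2])) (ψ.charpoly.map (algebraMap ℤ_[2] ℚ_[2])))
    {y : V} (hy : aeval ψ p y = 0) : y = 0 := by
  obtain ⟨a, b, hab⟩ := h
  apply tmul_inj
  show (1 : ℚ_[2]) ⊗ₜ[ℤ_[2]] y = (1 : ℚ_[2]) ⊗ₜ[ℤ_[2]] (0 : V)
  rw [TensorProduct.tmul_zero]
  have h1 := congrArg (fun q => aeval (ψ.baseChange ℚ_[2]) q ((1 : ℚ_[2]) ⊗ₜ[ℤ_[2]] y)) hab
  simp only [map_add, map_mul, LinearMap.add_apply, Module.End.mul_apply, map_one,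
    Module.End.one_apply] at h1
  rw [aeval_base, aeval_base, hy, LinearMap.aeval_self_charpoly, LinearMap.zero_apply,
    TensorProduct.tmul_zero, map_zero, map_zero, add_zero] at h1
  exact h1.symm

end dim

end Pool.Agent.Q45.EM
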