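import Pool.Agent.Q45.EM.Rk

/-!
# Ranks of stable submodules and of the spaces fixed by powers
-/

set_option autoImplicit false
set_option linter.all false

open Polynomial
open scoped Classical TensorProduct

namespace Pool.Agent.Q45.EM

section sub

theorem charpoly_res {Ω V : Type} [Field Ω] [Infinite Ω] [AddCommGroup V] [Module Ω V]
    [Module.Finite Ω V] (f : V →ₗ[Ω] V) (S : Submodule Ω V) (h : ∀ x ∈ S, f x ∈ S) :
    (f.restrict h).charpoly ∣ f.charpoly := by
  refine ⟨(S.mapQ S f h).charpoly, ?_⟩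
  apply Polynomial.funext
  intro t
  rw [eval_mul, LinearMap.eval_charpoly, LinearMap.eval_charpoly, LinearMap.eval_charpoly]
  have h' : S ≤ S.comap (algebraMap Ω (Module.End Ω V) t - f) := by
    intro x hx
    rw [Submodule.mem_comap, LinearMap.sub_apply, Module.algebraMap_end_apply]
    exact S.sub_mem (S.smul_mem t hx) (h x hx)
  rw [LinearMap.det_eq_det_mul_det S _ h']
  congr 2
  apply LinearMap.ext
  intro y
  obtain ⟨x, rfl⟩ := S.mkQ_surjective y
  simp [Submodule.mapQ_apply]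

variable {V : Type} [AddCommGroup V] [Module ℤ_[2] V] [Module.Free ℤ_[2] V]
  [Module.Finite ℤ_[2] V]

/-- The characteristic polynomial of the restriction to a stable submodule. -/
theorem charpoly_sub (ψ : V →ₗ[ℤ_[2]] V) (U : Submodule ℤ_[2] V) (hU : ∀ x ∈ U, ψ x ∈ U) :
    (ψ.restrict hU).charpoly ∣ ψ.charpoly := by
  let j : ℚ_[2] ⊗[ℤ_[2]] U →ₗ[ℚ_[2]] ℚ_[2] ⊗[ℤ_[2]] V := U.subtype.baseChange ℚ_[2]
  have hj : Function.Injective j :=
    Module.Flat.lTensor_preserves_injective_linearMap (M := ℚ_[2]) U.subtype U.injective_subtype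
  have hcomm : ∀ x, (ψ.baseChange ℚ_[2]) (j x) = j (((ψ.restrict hU).baseChange ℚ_[2]) x) := by
    intro x
    induction x using TensorProduct.induction_on with
    | zero => simp
    | add x y hx hy => rw [map_add, map_add, map_add, map_add, hx, hy]
    | tmul a u => rfl
  have hS : ∀ x ∈ LinearMap.range j, (ψ.baseChange ℚ_[2]) x ∈ LinearMap.range j := by
    rintro _ ⟨x, rfl⟩
    exact ⟨_, (hcomm x).symm⟩
  let e := LinearEquiv.ofInjective j hj
  have hconj : (ψ.baseChange ℚ_[2]).restrict hS = e.conj ((ψ.restrict hU).baseChange ℚ_[2]) := by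
    refine LinearMap.ext fun y => ?_
    obtain ⟨x, rfl⟩ := e.surjective y
    rw [LinearEquiv.conj_apply_apply, e.symm_apply_apply]
    exact Subtype.ext (hcomm x)
  have h1 := charpoly_res (ψ.baseChange ℚ_[2]) (LinearMap.range j) hS
  rw [hconj, LinearEquiv.charpoly_conj, LinearMap.charpoly_baseChange,
    LinearMap.charpoly_baseChange] at h1
  exact (Polynomial.map_dvd_map _ (IsFractionRing.injective ℤ_[2] ℚ_[2])
    (LinearMap.charpoly_monic _)).1 h1

end sub

section prod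

/-- A monic divisor of a product of irreducible polynomials. -/
theorem dvd_prod_irr {F ι : Type} [Field F] (p : ι → F[X]) (hm : ∀ i, (p i).Monic)
    (D : Finset ι) (hi : ∀ i ∈ D, Irreducible (p i)) (h : F[X]) (hh : h.Monic)
    (hd : h ∣ ∏ i ∈ D, p i) : ∃ B ⊆ D, h = ∏ i ∈ B, p i := by
  induction D using Finset.induction_on generalizing h with
  | empty =>
    refine ⟨∅, Finset.Subset.refl _, ?_⟩
    rw [Finset.prod_empty] at hd ⊢
    exact hh.eq_one_of_isUnit (isUnit_of_dvd_one hd)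
  | insert a D ha ih =>
    rw [Finset.prod_insert ha] at hd
    have hi' : ∀ i ∈ D, Irreducible (p i) := fun i h1 => hi i (Finset.mem_insert_of_mem h1)
    by_cases h1 : p a ∣ h
    · obtain ⟨h2, rfl⟩ := h1
      have h3 : h2.Monic := (hm a).of_mul_monic_left hh
      obtain ⟨B, hB, hB'⟩ := ih hi' h2 h3
        ((mul_dvd_mul_iff_left (hm a).ne_zero).1 hd)
      refine ⟨insert a B, Finset.insert_subset_insert _ hB, ?_⟩
      rw [Finset.prod_insert fun h4 => ha (hB h4), ← hB']
    · have h2 : IsCoprime h (p a) :=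
        ((hi a (Finset.mem_insert_self a D)).coprime_iff_not_dvd.2 h1).symm
      obtain ⟨B, hB, hB'⟩ := ih hi' h hh (h2.dvd_of_dvd_mul_left hd)
      exact ⟨B, hB.trans (Finset.subset_insert _ _), hB'⟩

theorem chi_dvd {χ : ℤ_[2][X]} {N : ℕ} (hN : Odd N)
    (hmod : (X - 1) * χ.map (PadicInt.toZMod (p := 2)) ∣ (X ^ N - 1 : (ZMod 2)[X])) :
    χ.map (PadicInt.toZMod (p := 2)) ∣ ∏ b ∈ N.divisors.erase 1, cyclotomic b (ZMod 2) := by
  have h1 : (X ^ N - 1 : (ZMod 2)[X]) = (X - 1) * ∏ b ∈ N.divisors.erase 1,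
      cyclotomic b (ZMod 2) := by
    rw [← prod_cyclotomic_eq_X_pow_sub_one hN.pos, ← Finset.mul_prod_erase N.divisors
      (fun b => cyclotomic b (ZMod 2)) (Nat.mem_divisors.2 ⟨one_dvd N, hN.pos.ne'⟩),
      cyclotomic_one]
  rw [h1] at hmod
  have h2 : (X - 1 : (ZMod 2)[X]) ≠ 0 := by
    have h7 := X_sub_C_ne_zero (1 : ZMod 2)
    rwa [C_1] at h7
  exact (mul_dvd_mul_iff_left h2).1 hmod

variable {V : Type} [AddCommGroup V] [Module ℤ_[2] V] [Module.Free ℤ_[2] V]
  [Module.Finite ℤ_[2] V]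

/-- The ranks of the stable submodules. -/
theorem rank_sub {N : ℕ} (hN : Odd N) (ψ : V →ₗ[ℤ_[2]] V)
    (hmod : (X - 1) * ψ.charpoly.map (PadicInt.toZMod (p := 2)) ∣ (X ^ N - 1 : (ZMod 2)[X]))
    (hirr : ∀ b, b ∣ N → Irreducible (cyclotomic b (ZMod 2))) (U : Submodule ℤ_[2] V)
    (hU : ∀ x ∈ U, ψ x ∈ U) :
    ∃ B ⊆ N.divisors.erase 1, Module.finrank ℤ_[2] U = ∑ b ∈ B, b.totient := by
  have h1 : (ψ.restrict hU).charpoly.map (PadicInt.toZMod (p := 2)) ∣
      ∏ b ∈ N.divisors.erase 1, cyclotomic b (ZMod 2) :=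
    (Polynomial.map_dvd _ (charpoly_sub ψ U hU)).trans (chi_dvd hN hmod)
  obtain ⟨B, hB, hB'⟩ := dvd_prod_irr (fun b => cyclotomic b (ZMod 2))
    (fun b => cyclotomic.monic b _) (N.divisors.erase 1)
    (fun b hb => hirr b (Nat.dvd_of_mem_divisors (Finset.mem_of_mem_erase hb))) _
    ((LinearMap.charpoly_monic _).map _) h1
  refine ⟨B, hB, ?_⟩
  have h2 := congrArg natDegree hB'
  rw [(LinearMap.charpoly_monic _).natDegree_map, LinearMap.charpoly_natDegree,
    natDegree_prod_of_monic _ _ fun b _ => cyclotomic.monic b _] at h2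
  rw [h2]
  exact Finset.sum_congr rfl fun b _ => natDegree_cyclotomic b _

end prod

end Pool.Agent.Q45.EM
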