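import Pool.Agent.Q45.EM.Rk2

/-!
# Ranks of the submodules fixed by the powers
-/

set_option autoImplicit false
set_option linter.all false

open Polynomial
open scoped Classical TensorProduct

namespace Pool.Agent.Q45.EM

section cyc

/-- The cyclotomic polynomials of order `2 b` and `b` agree modulo `2`. -/
theorem cyc_two_mod {b : ℕ} (hb : Odd b) :
    cyclotomic (2 * b) (ZMod 2) = cyclotomic b (ZMod 2) := by
  haveI : Fact (Nat.Prime 2) := ⟨Nat.prime_two⟩
  have h1 : ¬ 2 ∣ b := fun h => (Nat.not_even_iff_odd.2 hb) (even_iff_two_dvd.2 h)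
  have h2 := cyclotomic_mul_prime_eq_pow_of_not_dvd (ZMod 2) h1
  rw [mul_comm, h2]
  norm_num

theorem div_cases {N a : ℕ} (hN : Odd N) (ha : a ∣ 2 * N) :
    (a ∣ N ∧ Odd a) ∨ ∃ b, b ∣ N ∧ Odd b ∧ a = 2 * b := by
  rcases Nat.even_or_odd a with h | h
  · obtain ⟨c, rfl⟩ := even_iff_two_dvd.1 h
    have h4 : c ∣ N := Nat.dvd_of_mul_dvd_mul_left two_pos ha
    exact Or.inr ⟨c, h4, hN.of_dvd_nat h4, rfl⟩
  · have h5 : Nat.Coprime a 2 := Nat.coprime_two_right.2 h
    exact Or.inl ⟨h5.dvd_of_dvd_mul_left ha, h⟩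

theorem cyc_irr {N a : ℕ} (hN : Odd N) (hirr : ∀ b, b ∣ N → Irreducible (cyclotomic b (ZMod 2)))
    (ha : a ∣ 2 * N) : Irreducible (cyclotomic a ℚ_[2]) := by
  have h1 : Irreducible (cyclotomic a (ZMod 2)) := by
    rcases div_cases hN ha with ⟨h, -⟩ | ⟨b, h, hb, rfl⟩
    · exact hirr a h
    · rw [cyc_two_mod hb]
      exact hirr b h
  have h2 : Irreducible (cyclotomic a ℤ_[2]) := by
    refine (cyclotomic.monic a ℤ_[2]).irreducible_of_irreducible_map
      (PadicInt.toZMod (p := 2)) _ ?_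
    rw [map_cyclotomic]
    exact h1
  have h3 := ((cyclotomic.monic a ℤ_[2]).irreducible_iff_irreducible_map_fraction_map
    (K := ℚ_[2])).1 h2
  rwa [map_cyclotomic] at h3

end cyc

section one

variable {V : Type} [AddCommGroup V] [Module ℤ_[2] V] [Module.Free ℤ_[2] V]
  [Module.Finite ℤ_[2] V] {ψ : V →ₗ[ℤ_[2]] V}

theorem cyc_desc {a : ℕ} (h : cyclotomic a ℚ_[2] ∣ ψ.charpoly.map (algebraMap ℤ_[2] ℚ_[2])) :
    cyclotomic a ℤ_[2] ∣ ψ.charpoly := by
  rw [← map_cyclotomic a (algebraMap ℤ_[2] ℚ_[2])] at h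
  exact (Polynomial.map_dvd_map _ (IsFractionRing.injective ℤ_[2] ℚ_[2])
    (cyclotomic.monic a ℤ_[2])).1 h

/-- Each cyclotomic polynomial divides the characteristic polynomial or is prime to it. -/
theorem cyc_alt {N : ℕ} (hN : Odd N)
    (hor : (∃ f : ℚ[X], RatCh ψ f) ∨ ∀ b, b ∣ N → Irreducible (cyclotomic b (ZMod 2)))
    {a : ℕ} (ha : a ∣ 2 * N) (hnd : ¬ cyclotomic a ℤ_[2] ∣ ψ.charpoly) :
    IsCoprime (cyclotomic a ℚ_[2]) (ψ.charpoly.map (algebraMap ℤ_[2] ℚ_[2])) := by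
  have ha0 : 0 < a := Nat.pos_of_dvd_of_pos ha (Nat.mul_pos two_pos hN.pos)
  rcases hor with ⟨f, hf⟩ | hirr
  · have h1 : ¬ cyclotomic a ℚ ∣ f := by
      intro h2
      have h3 := Polynomial.map_dvd (algebraMap ℚ ℚ_[2]) h2
      rw [map_cyclotomic, hf] at h3
      exact hnd (cyc_desc h3)
    have h2 := (cyclotomic.irreducible_rat ha0).coprime_iff_not_dvd.2 h1
    have h3 := h2.map (mapRingHom (algebraMap ℚ ℚ_[2]))
    rw [coe_mapRingHom, map_cyclotomic, hf] at h3
    exact h3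
  · exact (cyc_irr hN hirr ha).coprime_iff_not_dvd.2 fun h1 => hnd (cyc_desc h1)

/-- The products of the cyclotomic polynomials which divide the characteristic polynomial. -/
theorem cyc_prod (D : Finset ℕ) (hD : ∀ a ∈ D, cyclotomic a ℤ_[2] ∣ ψ.charpoly) :
    ∏ a ∈ D, cyclotomic a ℤ_[2] ∣ ψ.charpoly := by
  have h1 : ∏ a ∈ D, cyclotomic a ℚ_[2] ∣ ψ.charpoly.map (algebraMap ℤ_[2] ℚ_[2]) := by
    refine Finset.prod_dvd_of_coprime (fun a _ b _ hab => ?_) fun a ha => ?_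
    · have h2 := (cyclotomic.isCoprime_rat hab).map (mapRingHom (algebraMap ℚ ℚ_[2]))
      rw [coe_mapRingHom, map_cyclotomic, map_cyclotomic] at h2
      exact h2
    · have h2 := Polynomial.map_dvd (algebraMap ℤ_[2] ℚ_[2]) (hD a ha)
      rwa [map_cyclotomic] at h2
  have h2 : (∏ a ∈ D, cyclotomic a ℤ_[2]).map (algebraMap ℤ_[2] ℚ_[2]) =
      ∏ a ∈ D, cyclotomic a ℚ_[2] := by
    rw [Polynomial.map_prod]
    exact Finset.prod_congr rfl fun a _ => map_cyclotomic _ _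
  rw [← h2] at h1
  exact (Polynomial.map_dvd_map _ (IsFractionRing.injective ℤ_[2] ℚ_[2])
    (monic_prod_of_monic _ _ fun a _ => cyclotomic.monic a _)).1 h1

theorem pow_fix {v : V} {a b : ℕ} (ha : (ψ ^ a) v = v) (hab : a ∣ b) : (ψ ^ b) v = v := by
  obtain ⟨c, rfl⟩ := hab
  induction c with
  | zero => rfl
  | succ c ih => rw [Nat.mul_succ, pow_add, Module.End.mul_apply, ha, ih]

theorem gcd_fix {v : V} : ∀ a b : ℕ, (ψ ^ a) v = v → (ψ ^ b) v = v →
    (ψ ^ (Nat.gcd a b)) v = v := by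
  intro a b
  induction a, b using Nat.gcd.induction with
  | H0 b =>
    intro _ hb
    rw [Nat.gcd_zero_left]
    exact hb
  | H1 a b ha ih =>
    intro h1 h2
    rw [Nat.gcd_rec]
    refine ih ?_ h1
    have h3 : (ψ ^ (b % a + a * (b / a))) v = v := by rw [Nat.mod_add_div]; exact h2
    rw [pow_add, Module.End.mul_apply, pow_fix h1 (dvd_mul_right a _)] at h3
    exact h3

/-- **The ranks of the submodules fixed by the powers.** -/
theorem tate_ranks {N : ℕ} (hN : Odd N)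
    (hmod : (X - 1) * ψ.charpoly.map (PadicInt.toZMod (p := 2)) ∣ (X ^ N - 1 : (ZMod 2)[X]))
    (hsep : ψ.charpoly.Separable)
    (hor : (∃ f : ℚ[X], RatCh ψ f) ∨ ∀ b, b ∣ N → Irreducible (cyclotomic b (ZMod 2)))
    (h2N : ∀ (v : V) (j : ℕ), 0 < j → (ψ ^ j) v = v → (ψ ^ (2 * N)) v = v) :
    ∃ A : Finset ℕ, (∀ a ∈ A, a ∣ 2 * N ∧ 2 < a ∧ 2 * a ∉ A ∧ cyclotomic a ℤ_[2] ∣ ψ.charpoly) ∧
      ∀ j : ℕ, 0 < j → Module.finrank ℤ_[2] (LinearMap.ker (ψ ^ j - 1)) =
        ∑ a ∈ A.filter (· ∣ j), a.totient := by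
  have h2N0 : 2 * N ≠ 0 := (Nat.mul_pos two_pos hN.pos).ne'
  refine ⟨(2 * N).divisors.filter fun a => cyclotomic a ℤ_[2] ∣ ψ.charpoly, ?_, ?_⟩
  · intro a ha
    obtain ⟨ha1, ha2⟩ := Finset.mem_filter.1 ha
    have ha3 := Nat.dvd_of_mem_divisors ha1
    refine ⟨ha3, cyc_big hN hmod ha3 ha2, fun h2a => ?_, ha2⟩
    obtain ⟨hb1, hb2⟩ := Finset.mem_filter.1 h2a
    have hb3 : a ∣ N := Nat.dvd_of_mul_dvd_mul_left two_pos (Nat.dvd_of_mem_divisors hb1)
    have hodd : Odd a := hN.of_dvd_nat hb3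
    have h1 := cyc_prod (ψ := ψ) {a, 2 * a} (by
      intro b hb
      rcases Finset.mem_insert.1 hb with rfl | hb
      · exact ha2
      · rw [Finset.mem_singleton.1 hb]
        exact hb2)
    have hne : a ≠ 2 * a := by
      have := hodd.pos
      omega
    rw [Finset.prod_pair hne] at h1
    have h2 := Polynomial.map_dvd (PadicInt.toZMod (p := 2)) h1
    rw [Polynomial.map_mul, map_cyclotomic, map_cyclotomic, cyc_two_mod hodd] at h2
    have h3 : (X ^ N - 1 : (ZMod 2)[X]).Separable := by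
      have hN2 : ((N : ℕ) : ZMod 2) ≠ 0 := by
        rw [Ne, ZMod.natCast_eq_zero_iff]
        intro h
        exact (Nat.not_even_iff_odd.2 hN) (even_iff_two_dvd.2 h)
      exact separable_X_pow_sub_C (1 : ZMod 2) hN2 one_ne_zero
    have h4 : (cyclotomic a (ZMod 2) * cyclotomic a (ZMod 2)).Separable :=
      h3.of_dvd (h2.trans ((dvd_mul_left _ _).trans hmod))
    have h5 : IsUnit (cyclotomic a (ZMod 2)) := isCoprime_self.1 h4.isCoprime
    have h6 := natDegree_eq_zero_of_isUnit h5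
    rw [natDegree_cyclotomic] at h6
    have := Nat.totient_pos.2 hodd.pos
    omega
  · intro j hj
    let J := Nat.gcd j (2 * N)
    have hJ : 0 < J := Nat.gcd_pos_of_pos_left _ hj
    let D := J.divisors.filter fun a => cyclotomic a ℤ_[2] ∣ ψ.charpoly
    let D' := J.divisors.filter fun a => ¬ cyclotomic a ℤ_[2] ∣ ψ.charpoly
    have hX : (X ^ J - 1 : ℤ_[2][X]) = (∏ a ∈ D', cyclotomic a ℤ_[2]) *
        ∏ a ∈ D, cyclotomic a ℤ_[2] := by
      rw [← prod_cyclotomic_eq_X_pow_sub_one hJ, mul_comm]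
      exact (Finset.prod_filter_mul_prod_filter_not _ _ _).symm
    have hdiv : ∀ a, a ∈ J.divisors → a ∣ 2 * N := fun a ha =>
      (Nat.dvd_of_mem_divisors ha).trans (Nat.gcd_dvd_right _ _)
    obtain ⟨q, hq⟩ := cyc_prod (ψ := ψ) D fun a ha => (Finset.mem_filter.1 ha).2
    have hDm : (∏ a ∈ D, cyclotomic a ℤ_[2]).Monic :=
      monic_prod_of_monic _ _ fun a _ => cyclotomic.monic a _
    have hqm : q.Monic := hDm.of_mul_monic_left (by rw [← hq]; exact LinearMap.charpoly_monic ψ)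
    have hrk := rank_ker ψ hsep hDm hqm hq
    have hker : LinearMap.ker (ψ ^ j - 1) = LinearMap.ker (aeval ψ (∏ a ∈ D, cyclotomic a ℤ_[2])) := by
      have hfix : ∀ (m : ℕ) (v : V), v ∈ LinearMap.ker (ψ ^ m - 1) ↔ (ψ ^ m) v = v := by
        intro m v
        rw [LinearMap.mem_ker, LinearMap.sub_apply, sub_eq_zero]
        rfl
      have haev : ∀ v : V, aeval ψ (X ^ J - 1 : ℤ_[2][X]) v = (ψ ^ J) v - v := by
        intro v
        rw [map_sub, map_pow, aeval_X, map_one]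
        rfl
      ext v
      rw [hfix, LinearMap.mem_ker]
      constructor
      · intro h
        have h1 : (ψ ^ J) v = v := gcd_fix j (2 * N) h (h2N v j hj h)
        have h2 := haev v
        rw [h1, sub_self, hX, map_mul, Module.End.mul_apply] at h2
        refine inj_of_cop ψ ?_ h2
        rw [Polynomial.map_prod]
        refine IsCoprime.prod_left fun a ha => ?_
        rw [map_cyclotomic]
        exact cyc_alt hN hor (hdiv a (Finset.mem_filter.1 ha).1) (Finset.mem_filter.1 ha).2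
      · intro h
        have h2 := haev v
        rw [hX, map_mul, Module.End.mul_apply, h, map_zero] at h2
        exact pow_fix (sub_eq_zero.1 h2.symm) (Nat.gcd_dvd_left _ _)
    rw [hker, hrk, natDegree_prod_of_monic _ _ fun a _ => cyclotomic.monic a _]
    have hset : D = ((2 * N).divisors.filter fun a => cyclotomic a ℤ_[2] ∣ ψ.charpoly).filter
        (· ∣ j) := by
      ext a
      simp only [D, Finset.mem_filter, Nat.mem_divisors]
      constructor
      · rintro ⟨⟨h1, -⟩, h2⟩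
        exact ⟨⟨⟨h1.trans (Nat.gcd_dvd_right _ _), h2N0⟩, h2⟩, h1.trans (Nat.gcd_dvd_left _ _)⟩
      · rintro ⟨⟨⟨h1, -⟩, h2⟩, h3⟩
        exact ⟨⟨Nat.dvd_gcd h3 h1, hJ.ne'⟩, h2⟩
    rw [← hset]
    exact Finset.sum_congr rfl fun a _ => natDegree_cyclotomic a _

end one

end Pool.Agent.Q45.EM
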