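import Pool.Agent.Q45.GM.Dpd
import Pool.Agent.Q45.EM.Pt
import Pool.Agent.Q45.EM.Chi
import Pool.Agent.Q45.NE.Main
import Pool.Agent.Q45.NE.ParBT

/-!
# The setting
-/

set_option autoImplicit false
set_option linter.all false

open Polynomial IsDedekindDomain WithZero
open scoped Classical

namespace Pool.Agent.Q45.EM

open Pool.Agent.Q45.TW (IsGeom)
open Pool.Agent.Q45.TG (fF fF_map fF_monic fF_natDegree irr_base sep_fF ds ds_map upF IsBr)
open Pool.Agent.Q45.GM (pm irr_of_dom ff_comp adjoin_top fF_pm FixP Fixes Fld kM clX kz_rel RelZ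
  cls_surj SelT lvl lvl_coc lvl_two tor_two)
open Pool.Agent.Q45.NE (eG model model_monic model_natDegree model_up x_spec irr_model sep_model
  eG_up RegX regX_model RegW regW_base parBT)
open Pool.Agent.Y160.SQ
open Pool.Agent.Y160.SE (IsPw)
open Pool.Agent.TH115.GD (incl rs ak Sep Comp)

section dat

variable {k k' : Type} [Field k] [Field k'] [Algebra k k'] {P : k[X][X]} {G : k[X]}

/-- The hypotheses on the curve `P = 0` and the section `G`. -/
structure Dm (k' : Type) [Field k'] [Algebra k k'] (P : k[X][X]) (G : k[X]) : Prop where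
  two : (2 : k) ≠ 0
  monic : P.Monic
  odd : Odd P.natDegree
  three : 1 < P.natDegree
  der : derivative P ≠ 0
  smooth : ∃ a₁ a₂ a₃ : k[X][X], a₁ * P + a₂ * derivative P + a₃ * ds P = 1
  sep : (eG P G).Separable
  br : IsBr 2 (pm k' P)
  unr : IsCoprime (AdjoinRoot.of P (eG P G)) (AdjoinRoot.mk P (derivative P))

theorem Dm.e_ne (h : Dm k' P G) : eG P G ≠ 0 := h.sep.ne_zero

theorem Dm.pos (h : Dm k' P G) : 0 < P.natDegree := by have := h.three; omega

theorem eG_pm : eG (pm k' P) (G.map (algebraMap k k')) = (eG P G).map (algebraMap k k') := eG_up P G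

theorem Dm.pm_monic (h : Dm k' P G) : (pm k' P).Monic := h.monic.map _

theorem Dm.pm_deg (h : Dm k' P G) : (pm k' P).natDegree = P.natDegree := h.monic.natDegree_map _

theorem Dm.pm_smooth (h : Dm k' P G) : ∃ a₁ a₂ a₃ : k'[X][X],
    a₁ * pm k' P + a₂ * derivative (pm k' P) + a₃ * ds (pm k' P) = 1 := by
  obtain ⟨a₁, a₂, a₃, h1⟩ := h.smooth
  refine ⟨pm k' a₁, pm k' a₂, pm k' a₃, ?_⟩
  unfold pm
  rw [derivative_map, ds_map, ← Polynomial.map_mul, ← Polynomial.map_mul, ← Polynomial.map_mul,
    ← Polynomial.map_add, ← Polynomial.map_add, h1, Polynomial.map_one]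

theorem Dm.pm_der (h : Dm k' P G) : derivative (pm k' P) ≠ 0 := by
  unfold pm
  rw [derivative_map]
  exact (Polynomial.map_ne_zero_iff (map_injective _ (algebraMap k k').injective)).2 h.der

theorem Dm.pm_sep (h : Dm k' P G) : (eG (pm k' P) (G.map (algebraMap k k'))).Separable := by
  rw [eG_pm]
  exact h.sep.map

/-- The map of the coordinate rings. -/
noncomputable def upR (k' : Type) [Field k'] [Algebra k k'] (P : k[X][X]) :
    AdjoinRoot P →+* AdjoinRoot (pm k' P) :=
  AdjoinRoot.lift ((AdjoinRoot.of (pm k' P)).comp (mapRingHom (algebraMap k k')))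
    (AdjoinRoot.root (pm k' P)) (by
      rw [← eval₂_map]
      exact AdjoinRoot.eval₂_root (pm k' P))

theorem upR_mk (p : k[X][X]) : upR k' P (AdjoinRoot.mk P p) = AdjoinRoot.mk (pm k' P) (pm k' p) := by
  unfold upR
  rw [AdjoinRoot.lift_mk, ← eval₂_map]
  have h1 := AdjoinRoot.aeval_eq (f := pm k' P) (pm k' p)
  rw [aeval_def] at h1
  exact h1

theorem Dm.pm_unr (h : Dm k' P G) :
    IsCoprime (AdjoinRoot.of (pm k' P) (eG (pm k' P) (G.map (algebraMap k k'))))
      (AdjoinRoot.mk (pm k' P) (derivative (pm k' P))) := by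
  obtain ⟨x, y, hxy⟩ := h.unr
  refine ⟨upR k' P x, upR k' P y, ?_⟩
  have h1 := congrArg (upR k' P) hxy
  rw [map_add, map_mul, map_mul, map_one, ← AdjoinRoot.mk_C, upR_mk, upR_mk] at h1
  rw [← AdjoinRoot.mk_C, eG_pm]
  have h2 : pm k' (C (eG P G)) = C ((eG P G).map (algebraMap k k')) := by
    unfold pm
    rw [map_C]
    rfl
  have h3 : pm k' (derivative P) = derivative (pm k' P) := by
    unfold pm
    rw [derivative_map]
  rw [← h2, ← h3]
  exact h1

/-- The model. -/
noncomputable def fM (P : k[X][X]) (G : k[X]) (K : Type) [Field K] [Algebra k[X] K] : K[X] :=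
  (model P G).map (algebraMap k[X] K)

variable {K F : Type} [Field K] [Algebra k[X] K] [IsFractionRing k[X] K] [Field F]
  [Algebra k'[X] F] [IsFractionRing k'[X] F] [Algebra K F]

theorem fM_comp (h : Dm k' P G) (hcomp : ∀ p : k[X], algebraMap K F (algebraMap k[X] K p) =
      algebraMap k'[X] F (p.map (algebraMap k k'))) :
    (model (pm k' P) (G.map (algebraMap k k'))).map (algebraMap k'[X] F) =
      (fM P G K).map (algebraMap K F) := by
  have h1 : model (pm k' P) (G.map (algebraMap k k')) = upF k' (model P G) := model_up P G h.monic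
  rw [h1]
  unfold fM upF
  rw [Polynomial.map_map, Polynomial.map_map]
  congr 1
  exact RingHom.ext fun p => (hcomp p).symm

/-- The data of the surface. -/
theorem with_em (h : Dm k' P G) {Q : k'[X][X]}
    (hQ : pm k' P = Q) [IsDedekindDomain (AdjoinRoot Q)]
    (hcomp : ∀ p : k[X], algebraMap K F (algebraMap k[X] K p) =
      algebraMap k'[X] F (p.map (algebraMap k k'))) (L : Type) [Field L]
    [Algebra (AdjoinRoot Q) L] [IsFractionRing (AdjoinRoot Q) L] {c : AdjoinRoot Q}
    (hc : c * (AdjoinRoot.of Q (G.map (algebraMap k k')) - AdjoinRoot.root Q) =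
      AdjoinRoot.of Q (eG Q (G.map (algebraMap k k')))) {Cn : Prop}
    (cont : ∀ [Algebra F L] [Algebra K L] [IsScalarTower K F L] [Algebra L (Sep F)]
      [IsScalarTower F L (Sep F)] [Algebra k'[X] L] [IsScalarTower k'[X] F L]
      [IsScalarTower k'[X] (AdjoinRoot Q) L] [Algebra.IsIntegral k'[X] (AdjoinRoot Q)]
      [Module.IsTorsionFree k'[X] (AdjoinRoot Q)] (hgd : Good 2 (-1) (fM P G K)) (a : Sep F)
      (hfld : Fld (f := fM P G K) a (algebraMap (AdjoinRoot Q) L (-c)))
      (hff : (model Q (G.map (algebraMap k k'))).map (algebraMap k'[X] F) =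
        (fM P G K).map (algebraMap K F))
      (hfix : ∀ e : L ≃+* L, FixP k (Q := Q) e → Fixes K (algebraMap (AdjoinRoot Q) L (-c)) e),
      Cn) : Cn := by
  have hQm : Q.Monic := by rw [← hQ]; exact h.pm_monic
  have hQd : Q.natDegree = P.natDegree := by rw [← hQ]; exact h.pm_deg
  have hn : 0 < Q.natDegree := by rw [hQd]; exact h.pos
  have hirrQ : Irreducible Q := irr_of_dom hQm.ne_zero
  have hdQ : derivative Q ≠ 0 := by rw [← hQ]; exact h.pm_der
  have he : eG Q (G.map (algebraMap k k')) ≠ 0 := by rw [← hQ]; exact h.pm_sep.ne_zero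
  have hinjA : Function.Injective (AdjoinRoot.of Q) :=
    AdjoinRoot.of.injective_of_degree_ne_zero (natDegree_pos_iff_degree_pos.1 hn).ne'
  have hinj : Function.Injective ((algebraMap (AdjoinRoot Q) L).comp (AdjoinRoot.of Q)) :=
    (IsFractionRing.injective (AdjoinRoot Q) L).comp hinjA
  letI iBL : Algebra k'[X] L := ((algebraMap (AdjoinRoot Q) L).comp (AdjoinRoot.of Q)).toAlgebra
  haveI : IsScalarTower k'[X] (AdjoinRoot Q) L := IsScalarTower.of_algebraMap_eq fun _ => rfl
  letI iFL : Algebra F L := (IsFractionRing.lift (A := k'[X]) (K := F) hinj).toAlgebra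
  have hFL : ∀ p : k'[X], algebraMap F L (algebraMap k'[X] F p) =
      algebraMap (AdjoinRoot Q) L (AdjoinRoot.of Q p) := fun p =>
    IsFractionRing.lift_algebraMap hinj p
  haveI : IsScalarTower k'[X] F L := IsScalarTower.of_algebraMap_eq fun p => (hFL p).symm
  letI iKL : Algebra K L := ((algebraMap F L).comp (algebraMap K F)).toAlgebra
  haveI : IsScalarTower K F L := IsScalarTower.of_algebraMap_eq fun _ => rfl
  set η : L := algebraMap (AdjoinRoot Q) L (AdjoinRoot.root Q) with hη
  have htop0 : IntermediateField.adjoin F {η} = ⊤ := adjoin_top hFL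
  have hev : ∀ p : k'[X][X], aeval η (p.map (algebraMap k'[X] F)) =
      algebraMap (AdjoinRoot Q) L (AdjoinRoot.mk Q p) := by
    intro p
    rw [aeval_def, eval₂_map]
    have h1 : (algebraMap F L).comp (algebraMap k'[X] F) =
        (algebraMap (AdjoinRoot Q) L).comp (AdjoinRoot.of Q) := RingHom.ext hFL
    rw [h1, hη, ← hom_eval₂, ← AdjoinRoot.aeval_eq, aeval_def]
    rfl
  have hroot : aeval η (fF Q F) = 0 := by
    have h1 := hev Q
    rw [AdjoinRoot.mk_self, map_zero] at h1
    exact h1
  have hfr : IsFractionRing k'[X] F := inferInstance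
  set θ : L := algebraMap (AdjoinRoot Q) L (-c) with hθ
  have hxrel : θ * (η - algebraMap F L (algebraMap k'[X] F (G.map (algebraMap k k')))) =
      algebraMap F L (algebraMap k'[X] F (eG Q (G.map (algebraMap k k')))) := by
    rw [hFL, hFL, ← hc, hθ, hη, ← map_sub, ← map_mul]
    congr 1
    ring
  obtain ⟨hx1, hx2, hx0⟩ := x_spec (F := Q) (G := G.map (algebraMap k k')) (N := L) (K := F)
    (IsFractionRing.injective k'[X] F) hroot hxrel he htop0
  have hff : (model Q (G.map (algebraMap k k'))).map (algebraMap k'[X] F) =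
      (fM P G K).map (algebraMap K F) := by
    rw [← hQ]; exact fM_comp h hcomp
  have hirrF := irr_model (F := Q) (G := G.map (algebraMap k k')) (K := F) hQm hirrQ hn he hfr
  have hsepF := sep_model (F := Q) (G := G.map (algebraMap k k')) (K := F) hQm hirrQ hn he hdQ hfr
  rw [hff] at hx1 hirrF hsepF
  have hsθ : IsSeparable F θ := hsepF.of_dvd (minpoly.dvd F θ hx1)
  haveI : Algebra.IsSeparable F L := by
    have h1 := (IntermediateField.isSeparable_adjoin_simple_iff_isSeparable F L).2 hsθ
    rw [hx2] at h1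
    exact Algebra.IsSeparable.of_algHom F _ (IntermediateField.topEquiv (F := F) (E := L)).symm.toAlgHom
  letI iLS : Algebra L (Sep F) := (IsSepClosed.lift : L →ₐ[F] Sep F).toRingHom.toAlgebra
  haveI : IsScalarTower F L (Sep F) := IsScalarTower.of_algebraMap_eq fun x =>
    ((IsSepClosed.lift : L →ₐ[F] Sep F).commutes x).symm
  have hgd : Good 2 (-1) (fM P G K) := by
    have h2 : (2 : K) ≠ 0 := by
      have h3 : (algebraMap k[X] K) (C (2 : k)) = 2 := by
        rw [show (C (2 : k)) = (2 : k[X]) from rfl, map_ofNat]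
      rw [← h3]
      intro h4
      exact h.two (C_injective ((IsFractionRing.injective k[X] K) (by rw [h4, C_0, map_zero])))
    haveI : NeZero (2 : K) := ⟨h2⟩
    have hne : (-1 : K) ≠ 1 := fun h3 => h2 (by linear_combination -h3)
    refine ⟨Nat.prime_two.isPrimePow, ?_, (model_monic P G h.pos).map _, ?_, ?_⟩
    · exact IsPrimitiveRoot.mk_of_lt _ (by norm_num) (by norm_num) (by
        intro l h1 h2
        have h3 : l = 1 := by omega
        rw [h3, pow_one]
        exact hne)
    · exact (separable_map (algebraMap K F)).1 hsepF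
    · unfold fM
      rw [(model_monic P G h.pos).natDegree_map, model_natDegree P G h.pos]
      exact Nat.coprime_two_left.2 h.odd
  have hfld : Fld (f := fM P G K) (algebraMap L (Sep F) θ) θ := by
    refine ⟨?_, rfl, hx2, hirrF⟩
    unfold Rt
    have h1 : aeval (algebraMap L (Sep F) θ) (fM P G K) = aeval (algebraMap L (Sep F) θ)
        ((fM P G K).map (algebraMap K F)) := (aeval_map_algebraMap _ _ _).symm
    rw [h1, aeval_algebraMap_apply, hx1, map_zero]
  haveI : Module.Finite k'[X] (AdjoinRoot Q) := hQm.finite_adjoinRoot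
  haveI : Algebra.IsIntegral k'[X] (AdjoinRoot Q) := Algebra.IsIntegral.of_finite _ _
  haveI : Module.IsTorsionFree k'[X] (AdjoinRoot Q) := by
    rw [Module.isTorsionFree_iff_algebraMap_injective]
    exact hinjA
  refine cont hgd _ hfld hff fun e he' => ⟨?_, ?_⟩
  · have h4 : ∀ p : k[X], e (algebraMap K L (algebraMap k[X] K p)) =
        algebraMap K L (algebraMap k[X] K p) := by
      intro p
      have h5 : algebraMap K L (algebraMap k[X] K p) =
          algebraMap (AdjoinRoot Q) L (AdjoinRoot.mk Q (pm k' (C p))) := by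
        rw [IsScalarTower.algebraMap_apply K F L, hcomp, hFL]
        unfold pm
        rw [map_C]
        rfl
      rw [h5]
      exact he' (C p)
    intro x
    obtain ⟨a, b, -, rfl⟩ := IsFractionRing.div_surjective (A := k[X]) x
    rw [map_div₀, map_div₀, h4, h4]
  · have h5 := he' X
    unfold pm at h5
    rw [map_X, AdjoinRoot.mk_X] at h5
    have hC : ∀ p : k[X], e (algebraMap (AdjoinRoot Q) L (AdjoinRoot.of Q (p.map (algebraMap k k')))) =
        algebraMap (AdjoinRoot Q) L (AdjoinRoot.of Q (p.map (algebraMap k k'))) := by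
      intro p
      have h6 := he' (C p)
      unfold pm at h6
      rw [map_C, AdjoinRoot.mk_C] at h6
      exact h6
    have heQ : eG Q (G.map (algebraMap k k')) = (eG P G).map (algebraMap k k') := by
      rw [← hQ]; exact eG_pm
    have hne : η - algebraMap (AdjoinRoot Q) L (AdjoinRoot.of Q (G.map (algebraMap k k'))) ≠ 0 := by
      intro h0
      rw [← hFL] at h0
      rw [h0, mul_zero] at hxrel
      exact he (IsFractionRing.injective k'[X] F ((algebraMap F L).injective (by
        rw [← hxrel, map_zero, map_zero])))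
    have h7 : θ * (η - algebraMap (AdjoinRoot Q) L (AdjoinRoot.of Q (G.map (algebraMap k k')))) =
        algebraMap (AdjoinRoot Q) L (AdjoinRoot.of Q ((eG P G).map (algebraMap k k'))) := by
      rw [← hFL, ← hFL, ← heQ]
      exact hxrel
    have h8 := congrArg e h7
    rw [map_mul, map_sub, hC, hC, h5, ← hη, ← h7] at h8
    exact mul_right_cancel₀ hne h8

end dat

end Pool.Agent.Q45.EM
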