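import Pool.Agent.Q45.EM.Main
import Pool.Agent.Q45.NE.DensB

/-!
# Conditions on the curve and the section
-/

set_option autoImplicit false
set_option linter.all false

open Polynomial IsDedekindDomain
open scoped Classical

namespace Pool.Agent.Q45.EM

open Pool.Agent.Q45.TG (ds IsBr)
open Pool.Agent.Q45.GM
open Pool.Agent.Q45.NE (eG model)
open Pool.Agent.Y160.SQ
open Pool.Agent.TH115.GD (incl rs ak Sep Comp)
open Pool.Agent.Y160.RK (ptCl jm_fix)

/-- A curve isomorphic to the affine line. -/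
theorem isBr_of_line {k' : Type} [Field k'] {Q : k'[X][X]} (φ : AdjoinRoot Q ≃ₐ[k'] k'[X]) :
    IsBr 2 Q := by
  haveI : IsDomain (AdjoinRoot Q) := φ.injective.isDomain φ.toRingHom
  haveI : IsPrincipalIdealRing (AdjoinRoot Q) :=
    IsPrincipalIdealRing.of_surjective (φ.symm : k'[X] →ₐ[k'] AdjoinRoot Q) φ.symm.surjective
  refine ⟨inferInstance, fun u => ?_, fun J _ => inferInstance⟩
  have h1 : IsUnit (φ (u : AdjoinRoot Q)) := u.isUnit.map φ
  obtain ⟨c, -, hc⟩ := Polynomial.isUnit_iff.1 h1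
  refine ⟨c, ?_⟩
  apply φ.injective
  rw [← hc]
  have h2 : AdjoinRoot.of Q (C c) = algebraMap k' (AdjoinRoot Q) c := rfl
  rw [h2, φ.commutes]
  rfl

theorem unr_of_coprime {k : Type} [Field k] {F : k[X][X]} (hF : F.Monic) (hn : 0 < F.natDegree)
    {e : k[X]} (h1 : IsCoprime e F.discr) :
    IsCoprime (AdjoinRoot.of F e) (AdjoinRoot.mk F (derivative F)) := by
  obtain ⟨p, q, -, -, hpq⟩ := exists_mul_add_mul_eq_C_resultant F (derivative F)
    (m := F.natDegree) (n := F.natDegree - 1) le_rfl (natDegree_derivative_le F) (Or.inl hn.ne')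
  rw [resultant_deriv (natDegree_pos_iff_degree_pos.1 hn), hF.leadingCoeff, mul_one] at hpq
  obtain ⟨a, b, hab⟩ := h1
  have h2 := congrArg (AdjoinRoot.of F) hab
  rw [map_add, map_mul, map_mul, map_one] at h2
  have h3 := congrArg (AdjoinRoot.mk F) hpq
  rw [map_add, map_mul, map_mul, AdjoinRoot.mk_self, zero_mul, zero_add, AdjoinRoot.mk_C, map_mul] at h3
  set s : k[X] := (-1) ^ (F.natDegree * (F.natDegree - 1) / 2) with hs
  have hss : s * s = 1 := by
    rw [hs, ← pow_add, ← two_mul, pow_mul, neg_one_sq, one_pow]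
  have hss' := congrArg (AdjoinRoot.of F) hss
  rw [map_mul, map_one] at hss'
  refine ⟨AdjoinRoot.of F a, AdjoinRoot.of F b * AdjoinRoot.of F s * AdjoinRoot.mk F q, ?_⟩
  linear_combination h2 + (AdjoinRoot.of F b * AdjoinRoot.of F s) * h3 +
    (AdjoinRoot.of F b * AdjoinRoot.of F F.discr) * hss'

/-- The curve `a(w) + t = 0` is an affine line. -/
theorem line_gs {k' : Type} [Field k'] (a : k'[X]) :
    Nonempty (AdjoinRoot (a.map C + C X : k'[X][X]) ≃ₐ[k'] k'[X]) := by
  set Q : k'[X][X] := a.map C + C X with hQ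
  -- the map which sends `t` to `- a(w)` and `w` to the variable
  let ev : k'[X] →ₐ[k'] k'[X] := aeval (-a)
  have h0 : Q.eval₂ (ev : k'[X] →+* k'[X]) X = 0 := by
    rw [hQ, eval₂_add, eval₂_map, eval₂_C]
    have h1 : ((ev : k'[X] →+* k'[X]).comp C) = C := by
      refine RingHom.ext fun c => ?_
      show aeval (-a) (C c) = C c
      rw [aeval_C]
      rfl
    have h3 : (ev : k'[X] →+* k'[X]) X = -a := aeval_X _
    rw [h1, h3, eval₂_C_X]
    ring
  let φ : AdjoinRoot Q →ₐ[k'] k'[X] := AdjoinRoot.liftAlgHom Q ev X h0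
  let ψ : k'[X] →ₐ[k'] AdjoinRoot Q := aeval (AdjoinRoot.root Q)
  have hφr : φ (AdjoinRoot.root Q) = X := AdjoinRoot.liftAlgHom_root _ _ _ _
  have hφo : ∀ p : k'[X], φ (AdjoinRoot.of Q p) = ev p := fun p =>
    AdjoinRoot.liftAlgHom_of _ _ _ _ _
  have hψX : ψ X = AdjoinRoot.root Q := aeval_X _
  have h1 : φ.comp ψ = AlgHom.id k' k'[X] := by
    refine Polynomial.algHom_ext ?_
    show φ (ψ X) = X
    rw [hψX, hφr]
  have hψa : ψ (-a) = AdjoinRoot.of Q X := by
    have h2 : (Q.eval₂ (AdjoinRoot.of Q) (AdjoinRoot.root Q)) = 0 := AdjoinRoot.eval₂_root Q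
    rw [hQ, eval₂_add, eval₂_map, eval₂_C, ← hQ] at h2
    have h3 : ψ a = a.eval₂ ((AdjoinRoot.of Q).comp C) (AdjoinRoot.root Q) := rfl
    rw [map_neg, h3]
    exact (neg_eq_of_add_eq_zero_right h2)
  have h2 : ψ.comp φ = AlgHom.id k' (AdjoinRoot Q) := by
    refine AlgHom.ext fun x => ?_
    obtain ⟨p, rfl⟩ := AdjoinRoot.mk_surjective x
    show ψ (φ (AdjoinRoot.mk Q p)) = AdjoinRoot.mk Q p
    have h3 : ((ψ : k'[X] →+* AdjoinRoot Q).comp (φ : AdjoinRoot Q →+* k'[X])).comp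
        (AdjoinRoot.mk Q) = AdjoinRoot.mk Q := by
      refine Polynomial.ringHom_ext (fun q => ?_) ?_
      · show ψ (φ (AdjoinRoot.of Q q)) = AdjoinRoot.of Q q
        rw [hφo]
        have h4 : (ψ : k'[X] →+* AdjoinRoot Q).comp (ev : k'[X] →+* k'[X]) = AdjoinRoot.of Q := by
          refine Polynomial.ringHom_ext (fun c => ?_) ?_
          · show ψ (aeval (-a) (C c)) = AdjoinRoot.of Q (C c)
            rw [aeval_C, AlgHom.commutes]
            rfl
          · show ψ (aeval (-a) X) = AdjoinRoot.of Q X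
            rw [aeval_X, hψa]
        exact congrArg (fun χ : k'[X] →+* AdjoinRoot Q => χ q) h4
      · show ψ (φ (AdjoinRoot.root Q)) = AdjoinRoot.root Q
        rw [hφr, hψX]
    exact congrArg (fun χ : k'[X][X] →+* AdjoinRoot Q => χ p) h3
  exact ⟨AlgEquiv.ofAlgHom φ ψ h1 h2⟩

end Pool.Agent.Q45.EM
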