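import Pool.Agent.Q45.EM.Set

/-!
# The values of a class
-/

set_option autoImplicit false
set_option linter.all false

open Polynomial IsDedekindDomain WithZero
open scoped Classical

namespace Pool.Agent.Q45.EM

open Pool.Agent.Q45.TG (ds IsBr)
open Pool.Agent.Q45.GM (pm Fld kM clX kz_rel RelZ cls_surj SelT lvl lvl_coc lvl_two tor_two kM_cls
  kM_zero_iff sqS clX_zero opX opX_cl kM_rho fin_free XL sel_isLocal)
open Pool.Agent.Q45.NE (eG model model_monic model_natDegree RegX regX_model RegW regW_base parBT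
  cof_coprime)
open Pool.Agent.Y160.SQ
open Pool.Agent.Y160.SE (IsPw)
open Pool.Agent.TH115.GD (incl rs ak Sep Comp)

section prime

variable {k' : Type} [Field k']

/-- The prime ideal of `t = r`. -/
noncomputable def vr (r : k') : HeightOneSpectrum k'[X] :=
  ⟨Ideal.span {X - C r}, (Ideal.span_singleton_prime (X_sub_C_ne_zero r)).2
    (irreducible_X_sub_C r).prime, fun h => X_sub_C_ne_zero r (Ideal.span_singleton_eq_bot.1 h)⟩

theorem mem_vr {r : k'} {p : k'[X]} : p ∈ (vr r).asIdeal ↔ p.eval r = 0 := by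
  show p ∈ Ideal.span {X - C r} ↔ _
  rw [Ideal.mem_span_singleton, dvd_iff_isRoot]
  rfl

theorem vr_X {F : Type} [Field F] [Algebra k'[X] F] [IsFractionRing k'[X] F] (r : k') :
    (vr r).valuation F (algebraMap k'[X] F (X - C r)) = exp (-1 : ℤ) := by
  rw [HeightOneSpectrum.valuation_of_algebraMap]
  exact HeightOneSpectrum.intValuation_singleton _ (X_sub_C_ne_zero r) rfl

/-- The valuation of a separable polynomial at a root. -/
theorem vr_sep {F : Type} [Field F] [Algebra k'[X] F] [IsFractionRing k'[X] F] {r : k'} {e : k'[X]}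
    (he : e.Separable) (hr : e.eval r = 0) :
    (vr r).valuation F (algebraMap k'[X] F e) = exp (-1 : ℤ) := by
  obtain ⟨q, hq⟩ : (X - C r) ∣ e := dvd_iff_isRoot.2 hr
  have h1 : q.eval r ≠ 0 := by
    intro h0
    have h2 : ¬ IsUnit (X - C r) := not_isUnit_X_sub_C _
    apply h2
    refine he.squarefree _ ?_
    obtain ⟨v, hv⟩ := dvd_iff_isRoot.2 h0
    exact ⟨v, by rw [mul_assoc, ← hv, ← hq]⟩
  have h2 : (vr r).valuation F (algebraMap k'[X] F q) = 1 := by
    rw [HeightOneSpectrum.valuation_of_algebraMap, HeightOneSpectrum.intValuation_eq_one_iff, mem_vr]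
    exact h1
  rw [hq, map_mul, map_mul, h2, mul_one, vr_X]

variable {S : Type} [CommRing S] [IsDedekindDomain S] [Algebra k'[X] S]
  [Algebra.IsIntegral k'[X] S] [Module.IsTorsionFree k'[X] S]

theorem under_vr {r : k'} {𝔓 : HeightOneSpectrum S}
    (h : algebraMap k'[X] S (X - C r) ∈ 𝔓.asIdeal) : 𝔓.under k'[X] = vr r := by
  apply HeightOneSpectrum.ext
  have h1 : (vr r).asIdeal ≤ (𝔓.under k'[X]).asIdeal := by
    show Ideal.span {X - C r} ≤ _
    rw [Ideal.span_singleton_le_iff_mem]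
    exact h
  exact ((vr r).isMaximal.eq_of_le (𝔓.under k'[X]).isPrime.ne_top h1).symm

end prime

section val

variable {k k' : Type} [Field k] [Field k'] [Algebra k k'] {P : k[X][X]} {G : k[X]}
  {K F : Type} [Field K] [Algebra k[X] K] [IsFractionRing k[X] K] [Field F]
  [Algebra k'[X] F] [IsFractionRing k'[X] F] [Algebra K F] {Q : k'[X][X]}
  [IsDedekindDomain (AdjoinRoot Q)] {L : Type} [Field L] [Algebra (AdjoinRoot Q) L]
  [IsFractionRing (AdjoinRoot Q) L] {c : AdjoinRoot Q}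
  [Algebra F L] [Algebra K L] [IsScalarTower K F L] [Algebra L (Sep F)]
  [IsScalarTower F L (Sep F)] [Algebra k'[X] L] [IsScalarTower k'[X] F L]
  [IsScalarTower k'[X] (AdjoinRoot Q) L] [Algebra.IsIntegral k'[X] (AdjoinRoot Q)]
  [Module.IsTorsionFree k'[X] (AdjoinRoot Q)]

/-- The values of a class. -/
theorem val_m (h : Dm k' P G) (hQ : pm k' P = Q)
    (hc : c * (AdjoinRoot.of Q (G.map (algebraMap k k')) - AdjoinRoot.root Q) =
      AdjoinRoot.of Q (eG Q (G.map (algebraMap k k')))) (hgd : Good 2 (-1) (fM P G K)) {a : Sep F}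
    (hfld : Fld (f := fM P G K) a (algebraMap (AdjoinRoot Q) L (-c)))
    (hff : (model Q (G.map (algebraMap k k'))).map (algebraMap k'[X] F) =
        (fM P G K).map (algebraMap K F)) (m : SelT (F := F) 2 k'[X] (fM P G K) 2) :
    ∃ z : Lˣ, kM hgd hfld m = clX z ∧
      (∀ 𝔓 : HeightOneSpectrum (AdjoinRoot Q), (-c) ∉ 𝔓.asIdeal →
        IsPw 2 (𝔓.valuation L (z : L))) ∧
      ∀ r : k', (eG Q (G.map (algebraMap k k'))).eval r = 0 → ∃ i : ℕ,
        ∀ 𝔓 : HeightOneSpectrum (AdjoinRoot Q), AdjoinRoot.of Q (X - C r) ∈ 𝔓.asIdeal →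
          (AdjoinRoot.root Q - AdjoinRoot.of Q (G.map (algebraMap k k'))) ∉ 𝔓.asIdeal →
          IsPw 2 (𝔓.valuation L ((z : L) * algebraMap (AdjoinRoot Q) L (-c) ^ i)) := by
  have hQm : Q.Monic := by rw [← hQ]; exact h.pm_monic
  have hQd : Q.natDegree = P.natDegree := by rw [← hQ]; exact h.pm_deg
  have hn : 0 < Q.natDegree := by rw [hQd]; exact h.pos
  have hodd : Odd Q.natDegree := by rw [hQd]; exact h.odd
  have hsep : (eG Q (G.map (algebraMap k k'))).Separable := by rw [← hQ]; exact h.pm_sep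
  have hsm : ∃ a₁ a₂ a₃ : k'[X][X], a₁ * Q + a₂ * derivative Q + a₃ * ds Q = 1 := by
    rw [← hQ]; exact h.pm_smooth
  have hS : RegX (model Q (G.map (algebraMap k k'))) := regX_model hsm hn
  obtain ⟨cc, rfl⟩ := cls_surj (sel_isLocal 2 k'[X] (fM P G K)) m
  obtain ⟨z, ⟨t, ht, htz⟩, h1⟩ := kz_rel hgd hfld cc
  have hd2 : ∀ σ, Tor hgd (lvl cc σ) := fun σ => (tor_two hgd).2 (lvl_two cc σ)
  refine ⟨z, h1, fun 𝔓 h𝔓 => ?_, fun r hr => ?_⟩
  · exact Pool.Agent.Q45.ND.parP (p := 2) (m := 1) Nat.prime_two (by norm_num) hyps hff hgd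
      (model_monic _ _ hn) hfld.val hfld.rt (lvl_coc cc) hd2 (cc.2.loc 1) ht.ne htz
      (fun σ hσ => ht.act σ hσ) (-c) rfl 𝔓 (fun h => h𝔓 (hS (AdjoinRoot Q) _ 𝔓.asIdeal 𝔓.isPrime h))
  · obtain ⟨i, hi⟩ := parBT (B := AdjoinRoot Q) (M := L) hyps hff hQm hodd hsep.ne_zero hgd hfld.val
      hfld.rt (lvl_coc cc) hd2 (vr r) (cc.2.loc 1 (vr r)) ht.ne htz (fun σ hσ => ht.act σ hσ)
      (θ₀ := -c) rfl (W₀ := AdjoinRoot.root Q - AdjoinRoot.of Q (G.map (algebraMap k k'))) (by
        have h3 : algebraMap k'[X] (AdjoinRoot Q) (eG Q (G.map (algebraMap k k'))) =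
            AdjoinRoot.of Q (eG Q (G.map (algebraMap k k'))) := rfl
        rw [h3, ← hc]
        ring) (by
        have h1 : algebraMap k'[X] (AdjoinRoot Q) (G.map (algebraMap k k')) +
            (AdjoinRoot.root Q - AdjoinRoot.of Q (G.map (algebraMap k k'))) =
            AdjoinRoot.root Q := add_sub_cancel _ _
        rw [h1, AdjoinRoot.aeval_eq, AdjoinRoot.mk_self]) (vr_sep hsep hr) (regW_base hsm)
    exact ⟨i, fun 𝔓 h3 h4 => hi 𝔓 (under_vr h3) h4⟩

end val

end Pool.Agent.Q45.EM
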